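import Pool.Agent.W869.AU.Defs

/-!
# Renaming the points of the set
-/

set_option autoImplicit false

universe u

namespace Pool.Agent.W869.AU

open Set
open Cardinal hiding univ

variable {μ : Cardinal.{u}} {hμ : ℵ₀ ≤ μ} {L L' : Type u}

theorem almostSub_image (b : L ≃ L') {A B : Set L} :
    AlmostSub μ (b '' A) (b '' B) ↔ AlmostSub μ A B := by
  unfold AlmostSub
  rw [← Set.image_sdiff b.injective, Cardinal.mk_image_eq b.injective]

theorem cls_le {A B : Set L} : cls hμ A ≤ cls hμ B ↔ AlmostSub μ A B := Iff.rfl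

theorem exists_cls (q : Quo μ hμ L) : ∃ A : Set L, cls hμ A = q :=
  ⟨ofAntisymmetrization (α := Pow μ hμ L) (· ≤ ·) q,
    toAntisymmetrization_ofAntisymmetrization _ q⟩

/-- A bijection induces an isomorphism. -/
theorem exists_iso (b : L ≃ L') : ∃ c : Quo μ hμ L ≃o Quo μ hμ L',
    ∀ A : Set L, c (cls hμ A) = cls hμ (b '' A) := by
  choose rep hrep using fun q : Quo μ hμ L => exists_cls q
  have hmono : ∀ q q', cls hμ (b '' rep q) ≤ cls hμ (b '' rep q') ↔ q ≤ q' := by
    intro q q'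
    rw [cls_le, almostSub_image, ← cls_le (hμ := hμ), hrep, hrep]
  have hf : ∀ A : Set L, cls hμ (b '' rep (cls hμ A)) = cls hμ (b '' A) := by
    intro A
    have h1 := hrep (cls hμ A)
    rw [le_antisymm_iff, cls_le, cls_le] at h1
    rw [le_antisymm_iff, cls_le, cls_le, almostSub_image, almostSub_image]
    exact h1
  refine ⟨RelIso.ofSurjective (OrderEmbedding.ofMapLEIff (fun q => cls hμ (b '' rep q)) hmono) ?_,
    hf⟩
  intro q
  obtain ⟨B, hB⟩ := exists_cls q
  refine ⟨cls hμ (b.symm '' B), ?_⟩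
  refine (hf _).trans ?_
  rw [← hB, Set.image_image]
  simp

theorem transport (b : L ≃ L') (π : Quo μ hμ L ≃o Quo μ hμ L) :
    ∃ π' : Quo μ hμ L' ≃o Quo μ hμ L', (IsTrivial π' → IsTrivial π) ∧
      ∀ X : Set L', IsTrivialOn π (b ⁻¹' X) → IsTrivialOn π' X := by
  obtain ⟨c, hc⟩ := exists_iso (μ := μ) (hμ := hμ) b
  have hc' : ∀ A : Set L', c.symm (cls hμ A) = cls hμ (b.symm '' A) := by
    intro A
    rw [OrderIso.symm_apply_eq, hc, Set.image_image]
    simp
  refine ⟨(c.symm.trans π).trans c, ?_, ?_⟩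
  · rintro ⟨e, he⟩
    refine ⟨fun x => b.symm (e (b x)), fun A => ?_⟩
    have h1 := he (b '' A)
    simp only [OrderIso.trans_apply] at h1
    rw [← hc, OrderIso.symm_apply_apply, ← OrderIso.eq_symm_apply, hc'] at h1
    rw [h1, Set.image_image, Set.image_image]
  · rintro X ⟨e, he⟩
    have hb : ∀ x : X, b.symm x.1 ∈ b ⁻¹' X := fun x => by
      rw [mem_preimage, Equiv.apply_symm_apply]
      exact x.2
    refine ⟨fun x => b (e ⟨b.symm x.1, hb x⟩), fun A => ?_⟩
    have h1 := he ((fun x : X => (⟨b.symm x.1, hb x⟩ : (b ⁻¹' X : Set L))) '' A)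
    rw [Set.image_image, Set.image_image] at h1
    simp only [OrderIso.trans_apply]
    rw [hc', Set.image_image, h1, hc, Set.image_image]

end Pool.Agent.W869.AU
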