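import Pool.Agent.W869.AU.Glob7
import Pool.Agent.W869.AU.Transport

/-!
# The inaccessible cardinal is needed
-/

set_option autoImplicit false
set_option linter.unusedSectionVars false
set_option linter.unusedVariables false

universe u

namespace Pool.Agent.W869.AU

open Set
open Cardinal hiding univ

variable {κ : Cardinal.{u}} {Λ : Type u}

theorem cls_le_iff {hμ : ℵ₀ ≤ Order.succ κ} {A B : Set Λ} :
    cls hμ A ≤ cls hμ B ↔ Al κ A B :=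
  cls_le.trans Order.lt_succ_iff

theorem cls_eq_iff {hμ : ℵ₀ ≤ Order.succ κ} {A B : Set Λ} :
    cls hμ A = cls hμ B ↔ Al κ A B ∧ Al κ B A := by
  rw [le_antisymm_iff, cls_le_iff, cls_le_iff]

theorem exists_aut {hμ : ℵ₀ ≤ Order.succ κ}
    (π : Quo (Order.succ κ) hμ Λ ≃o Quo (Order.succ κ) hμ Λ) :
    ∃ ρ : Aut κ Λ, ∀ A, π (cls hμ A) = cls hμ (ρ.F A) := by
  choose rep hrep using fun q : Quo (Order.succ κ) hμ Λ => exists_cls q
  refine ⟨⟨fun A => rep (π (cls hμ A)), fun B => rep (π.symm (cls hμ B)), fun A B => ?_,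
    fun B => ?_, fun B => ?_⟩, fun A => (hrep _).symm⟩
  · rw [← cls_le_iff (hμ := hμ), ← cls_le_iff (hμ := hμ), hrep, hrep, π.le_iff_le]
  · rw [← cls_le_iff (hμ := hμ), hrep, hrep, π.apply_symm_apply]
  · rw [← cls_le_iff (hμ := hμ), hrep, hrep, π.apply_symm_apply]

theorem tr_of_trivialOn {hμ : ℵ₀ ≤ Order.succ κ}
    {π : Quo (Order.succ κ) hμ Λ ≃o Quo (Order.succ κ) hμ Λ} {ρ : Aut κ Λ}
    (hρ : ∀ A, π (cls hμ A) = cls hμ (ρ.F A)) {X : Set Λ} (h : IsTrivialOn π X) : Tr ρ X := by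
  classical
  obtain ⟨e, he⟩ := h
  have hg : ∃ g : Λ → Λ, ∀ x (h : x ∈ X), g x = e ⟨x, h⟩ :=
    ⟨fun x => if h : x ∈ X then e ⟨x, h⟩ else x, fun x h => dif_pos h⟩
  obtain ⟨g, hg⟩ := hg
  refine ⟨g, fun A hA => ?_⟩
  have h1 : (fun x : X => x.1) '' {x : X | x.1 ∈ A} = A := by
    ext x
    constructor
    · rintro ⟨y, hy, rfl⟩
      exact hy
    · intro hx
      exact ⟨⟨x, hA hx⟩, hx, rfl⟩
  have h2 : g '' A = e '' {x : X | x.1 ∈ A} := by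
    ext y
    constructor
    · rintro ⟨x, hx, rfl⟩
      exact ⟨⟨x, hA hx⟩, hx, (hg x (hA hx)).symm⟩
    · rintro ⟨x, hx, rfl⟩
      exact ⟨x.1, hx, hg x.1 x.2⟩
  rw [h2]
  have h3 := he {x : X | x.1 ∈ A}
  rw [h1, hρ] at h3
  exact cls_eq_iff.1 h3

theorem trivial_of_tr {hμ : ℵ₀ ≤ Order.succ κ}
    {π : Quo (Order.succ κ) hμ Λ ≃o Quo (Order.succ κ) hμ Λ} {ρ : Aut κ Λ}
    (hρ : ∀ A, π (cls hμ A) = cls hμ (ρ.F A)) (h : Tr ρ Set.univ) : IsTrivial π := by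
  obtain ⟨e, he⟩ := h
  refine ⟨e, fun A => ?_⟩
  rw [hρ]
  exact cls_eq_iff.2 (he A (subset_univ A))

/-- An automorphism as in the question gives an inaccessible cardinal. -/
theorem exists_inaccessible (hκ : ℵ₀ ≤ κ) {hμ : ℵ₀ ≤ Order.succ κ}
    (π : Quo (Order.succ κ) hμ Λ ≃o Quo (Order.succ κ) hμ Λ)
    (h : ∀ X : Set Λ, #X = Order.succ κ → IsTrivialOn π X) (hnt : ¬ IsTrivial π) :
    ∃ θ : Cardinal.{u}, κ < θ ∧ θ ≤ #Λ ∧ θ.IsInaccessible := by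
  by_contra hcon
  push Not at hcon
  obtain ⟨ρ, hρ⟩ := exists_aut π
  exact hnt (trivial_of_tr hρ (trivial_of_no_inaccessible hκ hcon
    fun X hX => tr_of_trivialOn hρ (h X hX)))

end Pool.Agent.W869.AU
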