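import Pool.Agent.W869.AU.Reg

/-!
# Automorphisms of quotients of power sets: definitions

The first part has the notions of the question. The second part has the hypothesis of the ZFC
theorem in an elementary form, and its translation into the forcing language.
-/

set_option autoImplicit false

universe u

namespace Pool.Agent.W869.AU

open Set Pool.Agent.Helper669.Forcing
open Cardinal hiding univ

section Notions

variable {μ : Cardinal.{u}} {hμ : ℵ₀ ≤ μ} {Λ : Type u}

/-- The set `A \ B` belongs to the ideal of the sets of cardinality less than `μ`. -/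
def AlmostSub (μ : Cardinal.{u}) (A B : Set Λ) : Prop := #(A \ B : Set Λ) < μ

theorem AlmostSub.refl (hμ : ℵ₀ ≤ μ) (A : Set Λ) : AlmostSub μ A A := by
  have h : (A \ A : Set Λ) = ∅ := Set.sdiff_self
  rw [AlmostSub, h, Cardinal.mk_eq_zero]
  exact Cardinal.aleph0_pos.trans_le hμ

theorem AlmostSub.trans (hμ : ℵ₀ ≤ μ) {A B C : Set Λ} (h1 : AlmostSub μ A B)
    (h2 : AlmostSub μ B C) : AlmostSub μ A C := by
  have h : (A \ C : Set Λ) ⊆ A \ B ∪ B \ C := by
    rintro x ⟨hx, hx'⟩
    by_cases hB : x ∈ B
    · exact Or.inr ⟨hB, hx'⟩
    · exact Or.inl ⟨hx, hB⟩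
  exact ((Cardinal.mk_le_mk_of_subset h).trans (Cardinal.mk_union_le _ _)).trans_lt
    (Cardinal.add_lt_of_lt hμ h1 h2)

/-- The power set of `Λ`, where `A ≤ B` iff `A \ B` belongs to the ideal of the sets of
cardinality less than the infinite cardinal `μ`. -/
def Pow (μ : Cardinal.{u}) (_ : ℵ₀ ≤ μ) (Λ : Type u) : Type u := Set Λ

instance : Preorder (Pow μ hμ Λ) where
  le A B := AlmostSub (Λ := Λ) μ A B
  le_refl A := AlmostSub.refl (Λ := Λ) hμ A
  le_trans A B C h1 h2 := AlmostSub.trans (Λ := Λ) hμ h1 h2

/-- The quotient Boolean algebra of the power set of `Λ` by the ideal of the sets of cardinality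
less than `μ`, as a partial order. Its automorphisms are its order automorphisms. -/
abbrev Quo (μ : Cardinal.{u}) (hμ : ℵ₀ ≤ μ) (Λ : Type u) : Type u :=
  Antisymmetrization (Pow μ hμ Λ) (· ≤ ·)

/-- The class of a set `A`. -/
def cls (hμ : ℵ₀ ≤ μ) (A : Set Λ) : Quo μ hμ Λ :=
  toAntisymmetrization (α := Pow μ hμ Λ) (· ≤ ·) A

/-- The automorphism is trivial: it is induced by a function `e` from `Λ` to `Λ`. -/
def IsTrivial (π : Quo μ hμ Λ ≃o Quo μ hμ Λ) : Prop :=
  ∃ e : Λ → Λ, ∀ A : Set Λ, π (cls hμ A) = cls hμ (e '' A)

/-- The automorphism is trivial on `X`: on the subsets of `X` it is induced by a function `e`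
from `X` to `Λ`. -/
def IsTrivialOn (π : Quo μ hμ Λ ≃o Quo μ hμ Λ) (X : Set Λ) : Prop :=
  ∃ e : X → Λ, ∀ A : Set X, π (cls hμ ((fun x : X => x.1) '' A)) = cls hμ (e '' A)

end Notions

section Ambient

/-- The set of all `x` with `φ x` is covered by the range of a function from `K`. -/
def Few (K : Type u) {L : Type u} (φ : L → Prop) : Prop :=
  ∃ g : K → L, ∀ x, φ x → ∃ k, g k = x

/-- Some injective function from `K` to `K` is not onto; some proper initial segment of the
well-ordered set `L` is not covered by a function from `K`; functions from a proper initial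
segment of `L` to `L` are bounded; and there is a family of permutations `e y` of initial segments
`{x | x < h y}` of `L`, for `y` with `Z y`, such that the `h y` are unbounded, any two of the
permutations agree except on a small set, for each set `A` there is a set `B`, and for each set
`B` there is a set `A`, such that all the permutations map `A` to `B` up to small sets, and no
function on `L` agrees with all the permutations up to small sets. -/
def Hypothesis (K L : Type u) [LinearOrder L] : Prop :=
  (∃ g : K → K, (∀ a b, g a = g b → a = b) ∧ ∃ c, ∀ a, g a ≠ c) ∧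
  (∃ γ : L, ¬ Few K fun x => x < γ) ∧
  (∀ (γ : L) (f : L → L), ∃ β, ∀ x, x < γ → f x < β) ∧
  ∃ (Y : Type u) (h : Y → L) (e : Y → Equiv.Perm L) (Z : Y → Prop),
    (∀ y x, h y ≤ x → e y x = x) ∧
    (∀ γ, ∃ y, Z y ∧ γ ≤ h y) ∧
    (∀ y y', Z y → Z y' → Few K fun x => x < h y ∧ x < h y' ∧ e y x ≠ e y' x) ∧
    (∀ A : L → Prop, ∃ B : L → Prop, ∀ y, Z y →
      Few K fun x => x < h y ∧ ¬ (A x ↔ B (e y x))) ∧
    (∀ B : L → Prop, ∃ A : L → Prop, ∀ y, Z y →
      Few K fun x => x < h y ∧ ¬ (A x ↔ B (e y x))) ∧
    ∀ f : L → L, ∃ y, Z y ∧ ¬ Few K fun x => x < h y ∧ ¬ f x = e y x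

end Ambient

section Names

variable {P : Type u} [Preorder P]

/-- Forcing version of `Few`; the function is given by a name of its graph. -/
def FewN (K : Type u) {L : Type u} (φ : L → Set P) : Set P :=
  fex fun g : K → L → Set P => fand (IsFun g)
    (fall fun x => fimp (φ x) (fex fun k => meets (g k x)))

/-- Forcing version of `Hypothesis`; functions are given by names of their graphs, the index set
`Y`, the heights `h` and the permutations `e` are objects of the ground model. -/
def HypothesisN (P : Type u) [Preorder P] (K L : Type u) [LinearOrder L] : Set P :=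
  fand (fex fun g : K → K → Set P => fand (IsFun g)
      (fand (fall fun a => fall fun b => fall fun c =>
        fimp (fand (meets (g a c)) (meets (g b c))) (fground (a = b)))
        (fex fun c => fall fun a => fnot (meets (g a c)))))
    (fand (fex fun γ : L => fnot (FewN K fun x => fground (x < γ)))
    (fand (fall fun γ : L => fall fun f : L → L → Set P => fimp (IsFun f)
        (fex fun β => fall fun x => fimp (fground (x < γ))
          (fall fun z => fimp (meets (f x z)) (fground (z < β)))))
    (fex fun Y : Type u => fex fun h : Y → L => fex fun e : Y → Equiv.Perm L =>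
      fex fun Z : Y → Set P =>
      fand (fground (∀ y x, h y ≤ x → e y x = x))
      (fand (fall fun γ => fex fun y => fand (meets (Z y)) (fground (γ ≤ h y)))
      (fand (fall fun y => fall fun y' => fimp (meets (Z y)) (fimp (meets (Z y'))
        (FewN K fun x => fground (x < h y ∧ x < h y' ∧ e y x ≠ e y' x))))
      (fand (fall fun A : L → Set P => fex fun B : L → Set P => fall fun y =>
        fimp (meets (Z y)) (FewN K fun x => fand (fground (x < h y))
          (fnot (fiff (meets (A x)) (meets (B (e y x)))))))
      (fand (fall fun B : L → Set P => fex fun A : L → Set P => fall fun y =>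
        fimp (meets (Z y)) (FewN K fun x => fand (fground (x < h y))
          (fnot (fiff (meets (A x)) (meets (B (e y x)))))))
      (fall fun f : L → L → Set P => fimp (IsFun f) (fex fun y => fand (meets (Z y))
        (fnot (FewN K fun x => fand (fground (x < h y))
          (fnot (meets (f x (e y x)))))))))))))))

end Names

end Pool.Agent.W869.AU
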