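import Pool.Agent.W869.AU.Base
import Pool.Agent.W869.AU.Defs

/-!
# The automorphism
-/

set_option autoImplicit false
set_option linter.unusedSectionVars false
set_option linter.unusedVariables false
set_option linter.style.haveILetI false

universe u

namespace Pool.Agent.W869.AU

open Set
open Cardinal hiding univ

/-- A function without fixed points has a large free set. -/
theorem exists_free {L : Type u} {κ : Cardinal.{u}} (hκ : ℵ₀ ≤ κ) (D : Set L) (hD : ¬ #D ≤ κ)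
    (g : L → L) (hg : ∀ x ∈ D, g x ≠ x) : ∃ D' ⊆ D, ¬ #D' ≤ κ ∧ ∀ x ∈ D', g x ∉ D' := by
  obtain ⟨E, hE⟩ := zorn_subset {E : Set L | E ⊆ D ∧ ∀ x ∈ E, g x ∉ E} (by
    intro c hc hchain
    refine ⟨⋃₀ c, ⟨sUnion_subset fun s hs => (hc hs).1, ?_⟩,
      fun s hs => subset_sUnion_of_mem hs⟩
    rintro x ⟨s, hs, hxs⟩ ⟨t, ht, hxt⟩
    rcases hchain.total hs ht with h | h
    · exact (hc ht).2 x (h hxs) hxt
    · exact (hc hs).2 x hxs (h hxt))
  by_cases hEκ : #E ≤ κ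
  · have h1 : D ⊆ (E ∪ g '' E) ∪ ((D ∩ g ⁻¹' E) \ E) := by
      intro x hx
      by_cases hxE : x ∈ E
      · exact Or.inl (Or.inl hxE)
      · by_cases hgx : g x ∈ E
        · exact Or.inr ⟨⟨hx, hgx⟩, hxE⟩
        · refine Or.inl (Or.inr ?_)
          by_contra hcon
          refine hxE (hE.le_of_ge (y := insert x E) ⟨insert_subset hx hE.prop.1, ?_⟩
            (subset_insert x E) (mem_insert x E))
          rintro z (rfl | hz) (h | h)
          · exact hg _ hx h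
          · exact hgx h
          · exact hcon ⟨z, hz, h⟩
          · exact hE.prop.2 z hz h
    refine ⟨(D ∩ g ⁻¹' E) \ E, fun x hx => hx.1.1, fun h => hD ?_, fun x hx hx' => hx'.2 hx.1.2⟩
    exact sm_mono h1 (sm_union hκ (sm_union hκ hEκ (sm_image g hEκ)) h)
  · exact ⟨E, hE.prop.1, hEκ, hE.prop.2⟩

variable {K L : Type u} [LinearOrder L] [WellFoundedLT L]

theorem Few.card {φ : L → Prop} (h : Few K φ) : #{x | φ x} ≤ #K := by
  obtain ⟨g, hg⟩ := h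
  exact (Cardinal.mk_le_mk_of_subset (t := range g) fun x hx => hg x hx).trans
    Cardinal.mk_range_le

theorem Few.of [Nonempty L] {φ : L → Prop} (h : #{x | φ x} ≤ #K) : Few K φ := by
  classical
  obtain ⟨i⟩ := h
  refine ⟨fun k => if h : ∃ x : {x | φ x}, i x = k then h.choose.1 else Classical.arbitrary L,
    fun x hx => ⟨i ⟨x, hx⟩, ?_⟩⟩
  have h : ∃ x' : {x | φ x}, i x' = i ⟨x, hx⟩ := ⟨_, rfl⟩
  have h2 : h.choose = ⟨x, hx⟩ := i.injective h.choose_spec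
  simp only [dif_pos h, h2]

/-- The data in the hypothesis, with cardinalities. -/
structure Dat (κ : Cardinal.{u}) {L Y : Type u} [LinearOrder L] (h : Y → L)
    (e : Y → Equiv.Perm L) (Z : Y → Prop) : Prop where
  inf : ℵ₀ ≤ κ
  big : ∃ γ : L, ¬ #(Iio γ) ≤ κ
  reg : ∀ (γ : L) (f : L → L), ∃ β, ∀ x, x < γ → f x < β
  fix : ∀ y x, h y ≤ x → e y x = x
  unb : ∀ γ, ∃ y, Z y ∧ γ ≤ h y
  coh : ∀ y y', Z y → Z y' → #{x | x < h y ∧ x < h y' ∧ e y x ≠ e y' x} ≤ κ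
  fwd : ∀ A : Set L, ∃ B : Set L, ∀ y, Z y → #{x | x < h y ∧ ¬ (x ∈ A ↔ e y x ∈ B)} ≤ κ
  bwd : ∀ B : Set L, ∃ A : Set L, ∀ y, Z y → #{x | x < h y ∧ ¬ (x ∈ A ↔ e y x ∈ B)} ≤ κ
  nt : ∀ f : L → L, ∃ y, Z y ∧ ¬ #{x | x < h y ∧ ¬ f x = e y x} ≤ κ

theorem exists_dat (hyp : Hypothesis K L) : ∃ (Y : Type u) (h : Y → L)
    (e : Y → Equiv.Perm L) (Z : Y → Prop), Dat #K h e Z := by
  obtain ⟨⟨g, hg, c, hc⟩, ⟨γ, hγ⟩, hreg, Y, h, e, Z, h1, h2, h3, h4, h5, h6⟩ := hyp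
  haveI : Nonempty L := ⟨γ⟩
  refine ⟨Y, h, e, Z, ?_, ⟨γ, fun hcon => hγ (Few.of hcon)⟩, hreg, h1, h2,
    fun y y' hy hy' => (h3 y y' hy hy').card, fun A => ?_, fun B => ?_, fun f => ?_⟩
  · rw [← Cardinal.infinite_iff]
    by_contra hfin
    rw [not_infinite_iff_finite] at hfin
    obtain ⟨a, ha⟩ := (Finite.injective_iff_surjective (f := g)).1 (fun a b => hg a b) c
    exact hc a ha
  · obtain ⟨B, hB⟩ := h4 (fun x => x ∈ A)
    exact ⟨{x | B x}, fun y hy => (hB y hy).card⟩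
  · obtain ⟨A, hA⟩ := h5 (fun x => x ∈ B)
    exact ⟨{x | A x}, fun y hy => (hA y hy).card⟩
  · obtain ⟨y, hy, hy'⟩ := h6 f
    exact ⟨y, hy, fun hcon => hy' (Few.of hcon)⟩

namespace Dat

variable {κ : Cardinal.{u}} {Y : Type u} {h : Y → L} {e : Y → Equiv.Perm L} {Z : Y → Prop}
variable (d : Dat κ h e Z)

include d

theorem lt_iff (y : Y) {x : L} : e y x < h y ↔ x < h y := by
  constructor
  · intro hx
    by_contra hc
    rw [d.fix y x (not_lt.1 hc)] at hx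
    exact hc hx
  · intro hx
    by_contra hc
    have h1 := (e y).injective (d.fix y _ (not_lt.1 hc))
    rw [h1] at hc
    exact hc hx

theorem bdd {X : Set L} (hX : #X ≤ Order.succ κ) : ∃ β, ∀ x ∈ X, x < β := by
  classical
  obtain ⟨γ, hγ⟩ := d.big
  have h1 : #X ≤ #(Iio γ) := hX.trans (Order.succ_le_of_lt (not_le.1 hγ))
  obtain ⟨i⟩ := h1
  obtain ⟨β, hβ⟩ := d.reg γ fun z => if h : ∃ x : X, (i x).1 = z then h.choose.1 else γ
  refine ⟨β, fun x hx => ?_⟩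
  have h2 := hβ (i ⟨x, hx⟩).1 (i ⟨x, hx⟩).2
  have h3 : ∃ x' : X, (i x').1 = (i ⟨x, hx⟩).1 := ⟨_, rfl⟩
  have h4 : h3.choose = ⟨x, hx⟩ := i.injective (Subtype.ext h3.choose_spec)
  simp only [dif_pos h3, h4] at h2
  exact h2

theorem small_of_bdd {X : Set L} (hX : ∀ γ, #(X ∩ Iio γ : Set L) ≤ κ) : #X ≤ κ := by
  by_contra hcon
  obtain ⟨X', h1, h2⟩ := Cardinal.le_mk_iff_exists_subset.1
    (Order.succ_le_of_lt (not_le.1 hcon))
  obtain ⟨β, hβ⟩ := d.bdd h2.le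
  have h3 : #X' ≤ κ := sm_mono (s := X') (t := X ∩ Iio β) (fun x hx => ⟨h1 hx, hβ x hx⟩) (hX β)
  rw [h2] at h3
  exact (not_lt.2 h3) (Order.lt_succ κ)

omit d in
/-- `B` represents the image of `A`. -/
def R (κ : Cardinal.{u}) (h : Y → L) (e : Y → Equiv.Perm L) (Z : Y → Prop) (A B : Set L) :
    Prop := ∀ y, Z y → #{x | x < h y ∧ ¬ (x ∈ A ↔ e y x ∈ B)} ≤ κ

theorem le_iff {A B A' B' : Set L} (h1 : R κ h e Z A B) (h2 : R κ h e Z A' B') :
    #(A \ A' : Set L) ≤ κ ↔ #(B \ B' : Set L) ≤ κ := by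
  constructor
  · intro h3
    refine d.small_of_bdd fun γ => ?_
    obtain ⟨y, hy, hγ⟩ := d.unb γ
    refine sm_mono (t := e y '' (({x | x < h y ∧ ¬ (x ∈ A ↔ e y x ∈ B)} ∪
      {x | x < h y ∧ ¬ (x ∈ A' ↔ e y x ∈ B')}) ∪ (A \ A'))) ?_
      (sm_image _ (sm_union d.inf (sm_union d.inf (h1 y hy) (h2 y hy)) h3))
    rintro z ⟨⟨hzB, hzB'⟩, hz⟩
    refine ⟨(e y).symm z, ?_, (e y).apply_symm_apply z⟩
    have hlt : (e y).symm z < h y := by
      rw [← d.lt_iff y, Equiv.apply_symm_apply]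
      exact lt_of_lt_of_le hz hγ
    by_cases hA : (e y).symm z ∈ A
    · by_cases hA' : (e y).symm z ∈ A'
      · refine Or.inl (Or.inr ⟨hlt, fun hc => hzB' ?_⟩)
        have := hc.1 hA'
        rwa [Equiv.apply_symm_apply] at this
      · exact Or.inr ⟨hA, hA'⟩
    · refine Or.inl (Or.inl ⟨hlt, fun hc => hA (hc.2 ?_)⟩)
      rwa [Equiv.apply_symm_apply]
  · intro h3
    refine d.small_of_bdd fun γ => ?_
    obtain ⟨y, hy, hγ⟩ := d.unb γ
    refine sm_mono (t := ({x | x < h y ∧ ¬ (x ∈ A ↔ e y x ∈ B)} ∪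
      {x | x < h y ∧ ¬ (x ∈ A' ↔ e y x ∈ B')}) ∪ e y ⁻¹' (B \ B')) ?_
      (sm_union d.inf (sm_union d.inf (h1 y hy) (h2 y hy)) (sm_preimage _ (e y).injective h3))
    rintro z ⟨⟨hzA, hzA'⟩, hz⟩
    have hlt : z < h y := lt_of_lt_of_le hz hγ
    by_cases hB : e y z ∈ B
    · by_cases hB' : e y z ∈ B'
      · exact Or.inl (Or.inr ⟨hlt, fun hc => hzA' (hc.2 hB')⟩)
      · exact Or.inr ⟨hB, hB'⟩
    · exact Or.inl (Or.inl ⟨hlt, fun hc => hB (hc.1 hzA)⟩)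

theorem img {y : Y} (hy : Z y) {A : Set L} (hA : ∀ x ∈ A, x < h y) :
    R κ h e Z A (e y '' A) := by
  intro y' hy'
  have h1 := d.coh y y' hy hy'
  refine sm_mono ?_ (sm_union d.inf h1
    (sm_preimage (e y') (e y').injective (sm_image (e y) h1)))
  rintro x ⟨hx, hx'⟩
  by_cases hxA : x ∈ A
  · refine Or.inl ⟨hA x hxA, hx, fun heq => hx' ⟨fun _ => ⟨x, hxA, heq⟩, fun _ => hxA⟩⟩
  · have h2 : e y' x ∈ e y '' A := by
      by_contra hc
      exact hx' ⟨fun h => (hxA h).elim, fun h => (hc h).elim⟩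
    obtain ⟨a, ha, hax⟩ := h2
    by_cases hxy : x < h y
    · refine Or.inl ⟨hxy, hx, fun heq => hxA ?_⟩
      have := (e y).injective (heq.trans hax.symm)
      rw [this]
      exact ha
    · refine Or.inr ⟨a, ⟨hA a ha, ((hA a ha).trans_le (not_lt.1 hxy)).trans hx, fun heq => ?_⟩,
        hax⟩
      have := (e y').injective (heq.symm.trans hax)
      exact hxA (this ▸ ha)

theorem result : ∃ (hμ : ℵ₀ ≤ Order.succ κ) (π : Quo (Order.succ κ) hμ L ≃o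
    Quo (Order.succ κ) hμ L), ¬ IsTrivial π ∧
      ∀ X : Set L, #X = Order.succ κ → IsTrivialOn π X := by
  have hμ : ℵ₀ ≤ Order.succ κ := d.inf.trans (Order.le_succ κ)
  have hle : ∀ A B : Set L, cls hμ A ≤ cls hμ B ↔ #(A \ B : Set L) ≤ κ := fun A B => by
    show AlmostSub (Order.succ κ) A B ↔ _
    exact Order.lt_succ_iff
  have heq : ∀ A B : Set L, cls hμ A = cls hμ B ↔ #(A \ B : Set L) ≤ κ ∧
      #(B \ A : Set L) ≤ κ := fun A B => by
    rw [le_antisymm_iff, hle, hle]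
  have hrep : ∀ q : Quo (Order.succ κ) hμ L, ∃ A : Set L, cls hμ A = q := fun q =>
    ⟨ofAntisymmetrization (α := Pow (Order.succ κ) hμ L) (· ≤ ·) q,
      toAntisymmetrization_ofAntisymmetrization _ q⟩
  choose rep hrep using hrep
  choose Φ hΦ using d.fwd
  let f : Quo (Order.succ κ) hμ L → Quo (Order.succ κ) hμ L := fun q => cls hμ (Φ (rep q))
  have hf : ∀ A B : Set L, R κ h e Z A B → f (cls hμ A) = cls hμ B := by
    intro A B hAB
    have h1 := (heq _ _).1 (hrep (cls hμ A))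
    have h2 : R κ h e Z (rep (cls hμ A)) (Φ (rep (cls hμ A))) := hΦ _
    exact (heq _ _).2 ⟨(d.le_iff h2 hAB).1 h1.1, (d.le_iff hAB h2).1 h1.2⟩
  have hmono : ∀ q q', f q ≤ f q' ↔ q ≤ q' := by
    intro q q'
    have h2 : R κ h e Z (rep q) (Φ (rep q)) := hΦ _
    have h3 : R κ h e Z (rep q') (Φ (rep q')) := hΦ _
    have h4 := d.le_iff h2 h3
    show cls hμ _ ≤ cls hμ _ ↔ _
    rw [hle, ← h4, ← hle, hrep, hrep]
  have hsurj : Function.Surjective f := by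
    intro q
    obtain ⟨A, hA⟩ := d.bwd (rep q)
    exact ⟨cls hμ A, (hf A _ hA).trans (hrep q)⟩
  let π : Quo (Order.succ κ) hμ L ≃o Quo (Order.succ κ) hμ L :=
    RelIso.ofSurjective (OrderEmbedding.ofMapLEIff f hmono) hsurj
  have hπ : ∀ A B : Set L, R κ h e Z A B → π (cls hμ A) = cls hμ B := hf
  refine ⟨hμ, π, ?_, ?_⟩
  · rintro ⟨g, hg⟩
    obtain ⟨y, hy, hbig⟩ := d.nt g
    obtain ⟨D, h1, h2, h3⟩ := exists_free d.inf _ hbig (fun x => (e y).symm (g x))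
      (fun x hx hc => hx.2 (by rw [← hc, Equiv.apply_symm_apply, hc]))
    have h4 := (heq _ _).1 ((hπ _ _ (d.img hy (A := D) fun x hx => (h1 hx).1)).symm.trans (hg D))
    apply h2
    have h5 : (e y '' D : Set L) \ g '' D = e y '' D := by
      rw [sdiff_eq_left, Set.disjoint_left]
      rintro _ ⟨a, ha, rfl⟩ ⟨b, hb, hab⟩
      refine h3 b hb ?_
      rw [hab, Equiv.symm_apply_apply]
      exact ha
    rw [h5, Cardinal.mk_image_eq (e y).injective] at h4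
    exact h4.1
  · intro X hX
    obtain ⟨β, hβ⟩ := d.bdd hX.le
    obtain ⟨y, hy, hyβ⟩ := d.unb β
    refine ⟨fun x => e y x.1, fun A => ?_⟩
    have h1 := hπ _ _ (d.img hy (A := (fun x : X => x.1) '' A) (by
      rintro _ ⟨x, -, rfl⟩
      exact (hβ x.1 x.2).trans_le hyβ))
    rw [h1, Set.image_image]

end Dat

theorem answer (hyp : Hypothesis K L) : ℵ₀ ≤ #K ∧ #K < #L ∧
    ∃ (hμ : ℵ₀ ≤ Order.succ #K) (π : Quo (Order.succ #K) hμ L ≃o Quo (Order.succ #K) hμ L),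
      ¬ IsTrivial π ∧ ∀ X : Set L, #X = Order.succ #K → IsTrivialOn π X := by
  obtain ⟨Y, h, e, Z, d⟩ := exists_dat hyp
  refine ⟨d.inf, ?_, d.result⟩
  obtain ⟨γ, hγ⟩ := d.big
  exact (not_le.1 hγ).trans_le (Cardinal.mk_set_le _)

end Pool.Agent.W869.AU
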