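import Pool.Agent.Helper669.KDelta

/-!
# Cardinal arithmetic below an inaccessible cardinal
-/

set_option autoImplicit false
set_option linter.unusedSectionVars false
set_option linter.unusedVariables false

universe u

namespace Pool.Agent.W869.AU

open Set
open Cardinal hiding univ

/-- The well-ordered set `L` has the order type of an inaccessible cardinal, `κ` is an infinite
cardinal below. -/
structure Inac (κ : Cardinal.{u}) (L : Type u) [LinearOrder L] : Prop where
  seg : ∀ a : L, #(Iio a) < #L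
  bdd : ∀ X : Set L, #X < #L → ∃ b, ∀ x ∈ X, x < b
  pow : ∀ c : Cardinal.{u}, c < #L → 2 ^ c < #L
  inf : ℵ₀ ≤ κ
  big : κ < #L

variable {κ : Cardinal.{u}} {L : Type u} [LinearOrder L] [WellFoundedLT L]

namespace Inac

variable (hL : Inac κ L)

include hL

theorem aleph : ℵ₀ < #L := hL.inf.trans_lt hL.big

theorem infinite : Infinite L := Cardinal.infinite_iff.2 hL.aleph.le

theorem exists_gt (a : L) : ∃ b, a < b := by
  obtain ⟨b, hb⟩ := hL.bdd {a} (by
    rw [Cardinal.mk_singleton]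
    exact Cardinal.one_lt_aleph0.trans hL.aleph)
  exact ⟨b, hb a rfl⟩

theorem exists_Iio {c : Cardinal.{u}} (h : c < #L) : ∃ m : L, c ≤ #(Iio m) := by
  have h1 : c.ord < Ordinal.type (α := L) (· < ·) := by
    by_contra hc
    have h2 := Ordinal.card_le_card (not_lt.1 hc)
    rw [Cardinal.card_ord, Ordinal.card_type] at h2
    exact not_lt.2 h2 h
  obtain ⟨m, hm⟩ := Ordinal.typein_surj (α := L) (· < ·) h1
  refine ⟨m, ?_⟩
  have h2 := Ordinal.card_typein (α := L) (r := (· < ·)) m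
  rw [hm, Cardinal.card_ord] at h2
  exact h2.le

theorem add {a b : Cardinal.{u}} (ha : a < #L) (hb : b < #L) : a + b < #L :=
  Cardinal.add_lt_of_lt hL.aleph.le ha hb

theorem mul {a b : Cardinal.{u}} (ha : a < #L) (hb : b < #L) : a * b < #L :=
  Cardinal.mul_lt_of_lt hL.aleph.le ha hb

/-- Unions of few small sets are small. -/
theorem union {A J : Type u} (hJ : #J < #L) (s : J → Set A) (hs : ∀ j, #(s j) < #L) :
    #(⋃ j, s j) < #L := by
  choose m hm using fun j => hL.exists_Iio (hs j)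
  obtain ⟨b, hb⟩ := hL.bdd (range m) (Cardinal.mk_range_le.trans_lt hJ)
  refine (Cardinal.mk_iUnion_le _).trans_lt ?_
  refine lt_of_le_of_lt (mul_le_mul_right (ciSup_le' (a := #(Iio b)) fun j => ?_) _)
    (hL.mul hJ (hL.seg b))
  exact (hm j).trans (Cardinal.mk_le_mk_of_subset (Iio_subset_Iio (hb _ ⟨j, rfl⟩).le))

/-- The supremum of a family of elements. -/
theorem exists_sup {J : Type u} (hJ : #J < #L) (f : J → L) :
    ∃ h, (∀ j, f j ≤ h) ∧ ∀ x < h, ∃ j, x < f j := by
  obtain ⟨b, hb⟩ := hL.bdd (range f) (Cardinal.mk_range_le.trans_lt hJ)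
  have hne : {h : L | ∀ j, f j ≤ h}.Nonempty := ⟨b, fun j => (hb _ ⟨j, rfl⟩).le⟩
  refine ⟨wellFounded_lt.min _ hne, wellFounded_lt.min_mem _ hne, fun x hx => ?_⟩
  by_contra hcon
  push Not at hcon
  exact wellFounded_lt.not_lt_min _ (show x ∈ {h : L | ∀ j, f j ≤ h} from hcon) hx

theorem succ : Order.succ κ < #L :=
  (Order.succ_le_of_lt (Cardinal.cantor κ)).trans_lt (hL.pow κ hL.big)

end Inac

/-- Small sets. -/
theorem sm_union {A : Type u} (hκ : ℵ₀ ≤ κ) {s t : Set A} (hs : #s ≤ κ) (ht : #t ≤ κ) :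
    #(s ∪ t : Set A) ≤ κ := Helper669.KDelta.small_union hκ hs ht

theorem sm_mono {A : Type u} {s t : Set A} (h : s ⊆ t) (ht : #t ≤ κ) : #s ≤ κ :=
  (Cardinal.mk_le_mk_of_subset h).trans ht

theorem sm_preimage {A B : Type u} (f : A → B) (hf : Function.Injective f) {s : Set B}
    (hs : #s ≤ κ) : #(f ⁻¹' s) ≤ κ :=
  (Cardinal.mk_preimage_of_injective f s hf).trans hs

theorem sm_image {A B : Type u} (f : A → B) {s : Set A} (hs : #s ≤ κ) : #(f '' s) ≤ κ :=
  Cardinal.mk_image_le.trans hs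

end Pool.Agent.W869.AU
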