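import Pool.Agent.Helper669.Forcing

/-!
# Regular statements of the forcing language
-/

set_option autoImplicit false
set_option linter.unusedSectionVars false
set_option linter.unusedVariables false

universe u v

namespace Pool.Agent.W869.AU

open Set Pool.Agent.Helper669.Forcing

/-- `φ if and only if ψ`. -/
def fiff {P : Type u} [Preorder P] (φ ψ : Set P) : Set P := fand (fimp φ ψ) (fimp ψ φ)

variable {P : Type u} [Preorder P]

/-- The set of conditions forcing some statement. -/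
structure Reg (φ : Set P) : Prop where
  down : ∀ p ∈ φ, ∀ q ≤ p, q ∈ φ
  dense : ∀ p, (∀ q ≤ p, ∃ r ≤ q, r ∈ φ) → p ∈ φ

theorem decide (φ : Set P) (p : P) : ∃ q ≤ p, q ∈ φ ∨ q ∈ fnot φ := by
  by_cases h : ∃ q ≤ p, q ∈ φ
  · obtain ⟨q, hq, hq'⟩ := h
    exact ⟨q, hq, Or.inl hq'⟩
  · push Not at h
    exact ⟨p, le_rfl, Or.inr fun q hq => h q hq⟩

theorem Reg.of_not {φ : Set P} (h : Reg φ) {p : P} (hp : p ∉ φ) : ∃ q ≤ p, q ∈ fnot φ := by
  by_contra hc
  push Not at hc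
  refine hp (h.dense p fun q hq => ?_)
  have := hc q hq
  simp only [fnot, Set.mem_ofPred_eq, not_forall, not_not] at this
  obtain ⟨r, hr, hr'⟩ := this
  exact ⟨r, hr, hr'⟩

theorem fnot_down {φ : Set P} {p q : P} (h : p ∈ fnot φ) (hq : q ≤ p) : q ∈ fnot φ :=
  fun r hr => h r (hr.trans hq)

theorem fnot_not {φ : Set P} {p : P} (h : p ∈ fnot φ) : p ∉ φ := h p le_rfl

theorem reg_meets (N : Set P) : Reg (meets N) where
  down := fun p hp q hq => down_meets N p hp q hq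
  dense := by
    intro p h q hq
    obtain ⟨r, hr, hr'⟩ := h q hq
    obtain ⟨s, hs, t, ht, ht'⟩ := hr' r le_rfl
    exact ⟨s, hs.trans hr, t, ht, ht'⟩

theorem reg_fnot {φ : Set P} (hφ : Down φ) : Reg (fnot φ) where
  down := fun p hp q hq => fnot_down hp hq
  dense := by
    intro p h q hq hq'
    obtain ⟨r, hr, hr'⟩ := h q hq
    exact hr' r le_rfl (hφ q hq' r hr)

theorem reg_fand {φ ψ : Set P} (hφ : Reg φ) (hψ : Reg ψ) : Reg (fand φ ψ) where
  down := fun p hp q hq => ⟨hφ.down p hp.1 q hq, hψ.down p hp.2 q hq⟩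
  dense := fun p h => ⟨hφ.dense p fun q hq => by
      obtain ⟨r, hr, hr'⟩ := h q hq
      exact ⟨r, hr, hr'.1⟩, hψ.dense p fun q hq => by
      obtain ⟨r, hr, hr'⟩ := h q hq
      exact ⟨r, hr, hr'.2⟩⟩

theorem reg_fall {ι : Sort v} {φ : ι → Set P} (h : ∀ i, Reg (φ i)) : Reg (fall φ) where
  down := fun p hp q hq i => (h i).down p (hp i) q hq
  dense := fun p h' i => (h i).dense p fun q hq => by
      obtain ⟨r, hr, hr'⟩ := h' q hq
      exact ⟨r, hr, hr' i⟩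

theorem reg_fground (h : Prop) : Reg (fground (P := P) h) where
  down := fun p hp q hq => hp
  dense := fun p h' => by
    obtain ⟨r, -, hr'⟩ := h' p le_rfl
    exact hr'

theorem reg_fimp {φ ψ : Set P} (hφ : Down φ) : Reg (fimp φ ψ) :=
  reg_fnot (down_fand hφ (down_fnot _))

theorem reg_fex {ι : Sort v} (φ : ι → Set P) : Reg (fex φ) :=
  reg_fnot (down_fall fun _ => down_fnot _)

theorem mem_fimp_reg {φ ψ : Set P} (hφ : Down φ) (hψ : Reg ψ) {p : P} :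
    p ∈ fimp φ ψ ↔ ∀ h ≤ p, h ∈ φ → h ∈ ψ := by
  rw [mem_fimp]
  constructor
  · intro h q hq hq'
    refine hψ.dense q fun r hr => ?_
    exact h r (hr.trans hq) (hφ q hq' r hr)
  · intro h q hq hq'
    exact ⟨q, le_rfl, h q hq hq'⟩

theorem mem_fiff {φ ψ : Set P} (hφ : Reg φ) (hψ : Reg ψ) {p : P} :
    p ∈ fiff φ ψ ↔ ∀ h ≤ p, (h ∈ φ ↔ h ∈ ψ) := by
  unfold fiff
  rw [mem_fand, mem_fimp_reg hφ.down hψ, mem_fimp_reg hψ.down hφ]
  constructor
  · rintro ⟨h1, h2⟩ h hh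
    exact ⟨h1 h hh, h2 h hh⟩
  · intro h
    exact ⟨fun q hq => (h q hq).1, fun q hq => (h q hq).2⟩

theorem reg_fiff {φ ψ : Set P} (hφ : Down φ) (hψ : Down ψ) : Reg (fiff φ ψ) :=
  reg_fand (reg_fimp hφ) (reg_fimp hψ)

theorem mem_meets_const {h : Prop} {p : P} : p ∈ meets {_q : P | h} ↔ h := by
  constructor
  · intro hp
    obtain ⟨r, -, s, hs, -⟩ := hp p le_rfl
    exact hs
  · intro hh q hq
    exact ⟨q, le_rfl, q, hh, le_rfl⟩

/-- Maximal antichains. -/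
theorem exists_max_antichain (S : Set P) : ∃ A ⊆ S,
    (∀ p ∈ A, ∀ q ∈ A, p ≠ q → ¬ ∃ r, r ≤ p ∧ r ≤ q) ∧ ∀ p ∈ S, ∃ a ∈ A, ∃ r, r ≤ p ∧ r ≤ a := by
  obtain ⟨A, hA⟩ := zorn_subset
    {A : Set P | A ⊆ S ∧ A.Pairwise (fun p q => ¬ ∃ r, r ≤ p ∧ r ≤ q)} (by
      intro c hc hchain
      refine ⟨⋃₀ c, ⟨sUnion_subset fun s hs => (hc hs).1, ?_⟩,
        fun s hs => subset_sUnion_of_mem hs⟩
      exact (pairwise_sUnion hchain.directedOn).2 fun s hs => (hc hs).2)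
  refine ⟨A, hA.prop.1, fun p hp q hq hne => hA.prop.2 hp hq hne, fun p hp => ?_⟩
  by_contra hcon
  push Not at hcon
  have h1 : (insert p A).Pairwise (fun p q => ¬ ∃ r, r ≤ p ∧ r ≤ q) := by
    rw [pairwise_insert]
    refine ⟨hA.prop.2, fun b hb _ => ⟨?_, ?_⟩⟩
    · rintro ⟨r, h2, h3⟩
      exact hcon b hb r h2 h3
    · rintro ⟨r, h2, h3⟩
      exact hcon b hb r h3 h2
  have h2 : p ∈ A := hA.le_of_ge ⟨insert_subset hp hA.prop.1, h1⟩ (subset_insert p A)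
    (mem_insert p A)
  exact hcon p h2 p le_rfl le_rfl

end Pool.Agent.W869.AU
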