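import Pool.Agent.W869.AU.Index
import Pool.Agent.W869.AU.Reg

/-!
# The forcing notion, and the names of subsets
-/

set_option autoImplicit false
set_option linter.unusedSectionVars false
set_option linter.unusedVariables false
set_option linter.style.haveILetI false

universe u

namespace Pool.Agent.W869.AU

open Set Pool.Agent.Helper669.Forcing
open Cardinal hiding univ

variable {κ : Cardinal.{u}} {L M : Type u} [LinearOrder L] [WellFoundedLT L]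
variable [LinearOrder M] [WellFoundedLT M]

/-- The forcing notion. -/
structure PP (κ : Cardinal.{u}) (hκ : ℵ₀ ≤ κ) (τ : M → L → Set (PC L M)) where
  val : PC L M
  ok : Ok κ τ val

variable {hκ : ℵ₀ ≤ κ} {τ : M → L → Set (PC L M)}

instance : Preorder (PP κ hκ τ) where
  le q p := Le κ q.val p.val
  le_refl p := Le.refl p.val
  le_trans r q p h1 h2 := Le.trans hκ h1 h2

theorem PP.le_def {p q : PP κ hκ τ} : q ≤ p ↔ Le κ q.val p.val := Iff.rfl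

theorem pp_merge (hL : Inac κ L) (p : PP κ hκ τ) {q : PC L M} (hq : Ok κ τ q) {t : Set M}
    (ht : ∀ ζ ∈ t, ∀ ξ < ζ, ξ ∈ t) (hqt : q.s ⊆ t) (h : Le κ q (cut p.val t)) :
    ∃ r : PP κ hκ τ, r ≤ p ∧ Le κ r.val q := by
  obtain ⟨q', h1, h2, h3, h4, h5, h6, -⟩ := exists_strict hκ (ok_cut hκ p.ok ht).1 hq h
  obtain ⟨r, h7, h8, h9, h10⟩ := merge hL p.ok h1 (T := univ) ht (fun _ _ _ _ => mem_univ _)
    (subset_univ _) (subset_univ _) (h6 ▸ hqt) h2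
  exact ⟨⟨r, h7⟩, h9.le, Le.trans hκ h10.le h3⟩

theorem Same.le {a b : PC L M} (h : Same a b) : Le κ b a := h.sle.le

theorem capture (hL : Inac κ L) (hτ : Univ τ) (t : L → Set (PP κ hκ τ)) :
    ∃ ζ : M, ∀ r : PP κ hκ τ, ζ ∈ r.val.s → ∀ x < r.val.h,
      (x ∈ r.val.u ζ → r ∈ meets (t x)) ∧ (x ∉ r.val.u ζ → r ∈ fnot (meets (t x))) := by
  choose A hA hA1 hA2 using fun x => exists_max_antichain (meets (t x))
  let N : L → Set (PC L M) := fun x => PP.val '' A x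
  have hval : ∀ p q : PP κ hκ τ, p.val = q.val → p = q := by
    rintro ⟨p, hp⟩ ⟨q, hq⟩ h
    cases h
    rfl
  have hN : ∀ x, #(N x) ≤ 2 ^ #L := by
    intro x
    refine antichain (κ := κ) (τ := τ) hL _ ?_ ?_
    · rintro _ ⟨p, hp, rfl⟩
      exact p.ok
    · rintro _ ⟨p, hp, rfl⟩ _ ⟨q, hq, rfl⟩ hne ⟨r, hr, h1, h2⟩
      exact hA1 x p hp q hq (fun h => hne (congrArg PP.val h)) ⟨⟨r, hr⟩, h1, h2⟩
  have hNs : ∀ x, ∀ a ∈ N x, #a.s ≤ #L := by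
    rintro x _ ⟨p, hp, rfl⟩
    exact p.ok.1.small.le
  have hc : ℵ₀ ≤ (2 ^ #L : Cardinal.{u}) := hL.aleph.le.trans (Cardinal.cantor _).le
  obtain ⟨b, hb⟩ := hτ.cof (⋃ x, ⋃ a ∈ N x, a.s)
    (Helper669.KDelta.small_iUnion hc (Cardinal.cantor _).le _ fun x =>
      Helper669.KDelta.small_biUnion hc _ (hN x) _ fun a ha =>
        (hNs x a ha).trans (Cardinal.cantor _).le)
  obtain ⟨ζ, hζ, hlist⟩ := hτ.list N hN hNs b
  have hsub : ∀ x, ∀ a ∈ N x, a.s ⊆ Iio ζ := by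
    intro x a ha ξ hξ
    exact (hb ξ (mem_iUnion.2 ⟨x, mem_iUnion₂.2 ⟨a, ha, hξ⟩⟩)).trans_le hζ
  refine ⟨ζ, fun r hr x hx => ?_⟩
  have hdec := r.ok.2 ζ hr x hx
  constructor
  · intro hxu q hq
    have h1 := hdec.1 hxu (res q.val ζ) (res_mem hκ q.ok ζ) (Le.cut hq _)
    obtain ⟨r', hr', hr'', a, ha, ha', hle⟩ := h1
    obtain ⟨a', ha1, ha2⟩ := (hlist x).1 a ha
    obtain ⟨p, hp, hpa⟩ := ha1
    obtain ⟨r₂, h3, h4⟩ := pp_merge hL q (mem_DD.1 hr').1 (t := Iio ζ)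
      (fun _ h5 _ h6 => h6.trans h5) (mem_DD.1 hr').2 hr''
    have h5 : r₂ ≤ p := by
      show Le κ r₂.val p.val
      rw [hpa]
      exact (h4.trans hκ hle).trans hκ ha2.symm.le
    obtain ⟨s, hs, s', hs', hs''⟩ := hA x hp r₂ h5
    exact ⟨s, hs.trans h3, s', hs', hs''⟩
  · intro hxu q hq hqm
    obtain ⟨p, hp, r₁, h1, h2⟩ := hA2 x q hqm
    have hpN : p.val ∈ N x := ⟨p, hp, rfl⟩
    obtain ⟨a, ha, ha'⟩ := (hlist x).2 p.val hpN
    have haD : a ∈ DD κ τ ζ := mem_DD.2 ⟨ha'.ok hκ p.ok, by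
      rw [← ha'.s]
      exact hsub x _ hpN⟩
    refine hdec.2 hxu (res r₁.val ζ) (res_mem hκ r₁.ok ζ) (Le.cut (h1.trans hq) _) ?_
    intro q' hq' hle
    refine ⟨q', hq', Le.refl _, a, ha, haD, ?_⟩
    exact (hle.trans hκ (le_cut_of h2 (hsub x _ hpN))).trans hκ ha'.symm.le

/-- Fusion for the forcing notion. -/
theorem pp_fusion (hL : Inac κ L) {J : Type u} (hJ : #J < #L)
    (D : J → Set (PP κ hκ τ)) (hopen : ∀ i, ∀ p ∈ D i, ∀ q ≤ p, q ∈ D i)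
    (hdense : ∀ i p, ∃ q ≤ p, q ∈ D i) (p : PP κ hκ τ) :
    ∃ q : PP κ hκ τ, SLe q.val p.val ∧ ∀ i, q ∈ D i := by
  obtain ⟨q, h1, h2⟩ := ps_fusion (κ := κ) (τ := τ) hL (t := univ) hJ
    (fun i => {q | (⟨q.val, q.ok⟩ : PP κ hκ τ) ∈ D i})
    (fun i p hp q hq => hopen i _ hp _ (SLe.le hq))
    (fun i p => by
      obtain ⟨q, hq, hq'⟩ := hdense i ⟨p.val, p.ok⟩
      obtain ⟨r, hr, hr'⟩ := ps_strict hL p q.ok (subset_univ _) hq
      exact ⟨r, hr, hopen i q hq' _ hr'⟩) ⟨p.val, p.ok, subset_univ _⟩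
  exact ⟨⟨q.val, q.ok⟩, h1, h2⟩

/-- Deciding few statements. -/
theorem pp_decide (hL : Inac κ L) {J : Type u} (hJ : #J < #L) (φ : J → Set (PP κ hκ τ))
    (hφ : ∀ j, Down (φ j)) (p : PP κ hκ τ) :
    ∃ q : PP κ hκ τ, SLe q.val p.val ∧ ∀ j, q ∈ φ j ∨ q ∈ fnot (φ j) :=
  pp_fusion hL hJ (fun j => {q | q ∈ φ j ∨ q ∈ fnot (φ j)})
    (fun j p hp q hq => hp.imp (fun h => hφ j p h q hq) fun h => fnot_down h hq)
    (fun j p => decide (φ j) p) p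

/-- Deciding the values of a function at few arguments. -/
theorem pp_fun (hL : Inac κ L) {J : Type u} (hJ : #J < #L) {Y : Type u}
    {R : J → Y → Set (PP κ hκ τ)} {p : PP κ hκ τ} (hR : ∀ j, p ∈ fex fun y => meets (R j y)) :
    ∃ q : PP κ hκ τ, SLe q.val p.val ∧ ∀ j, ∃ y, q ∈ meets (R j y) := by
  obtain ⟨q, hq, hq'⟩ := pp_fusion hL hJ
    (fun j => {q | (∃ y, q ∈ meets (R j y)) ∨ q ∈ fnot (fex fun y => meets (R j y))})
    (fun j p hp q hq => hp.imp (fun ⟨y, hy⟩ => ⟨y, down_meets _ _ hy _ hq⟩)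
      (fun h => fnot_down h hq))
    (fun j p => by
      by_cases h : ∃ r ≤ p, r ∈ fex fun y => meets (R j y)
      · obtain ⟨r, hr, hr'⟩ := h
        obtain ⟨s, hs, y, hy⟩ := mem_fex.1 hr' r le_rfl
        exact ⟨s, hs.trans hr, Or.inl ⟨y, hy⟩⟩
      · push Not at h
        exact ⟨p, le_rfl, Or.inr h⟩) p
  refine ⟨q, hq, fun j => (hq' j).resolve_right fun h => ?_⟩
  exact fnot_not h (down_fex _ p (hR j) q hq.le)

/-- Every name is listed by an index of a stronger condition. -/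
theorem pp_enter (hL : Inac κ L) (p : PP κ hκ τ) (ζ : M) (β : L) :
    ∃ q : PP κ hκ τ, SLe q.val p.val ∧ ζ ∈ q.val.s ∧ β ≤ q.val.h := by
  obtain ⟨r, h1, h2, h3⟩ := exists_enter hL p.ok ζ
  obtain ⟨r', h4, -, h5, h6⟩ := exists_height hL h1 β (T := univ) (fun _ _ _ _ => mem_univ _)
    (subset_univ _)
  obtain ⟨σ, h7, -⟩ := id h5
  exact ⟨⟨r', h4⟩, h5.trans h2, h7.sub h3, h6⟩

end Pool.Agent.W869.AU
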