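import Pool.Agent.W869.AU.Base

/-!
# Conditions

A condition consists of a height `h` in `L`, a permutation `e` of `L` which fixes all points from
`h` on, and a set `s` of indices of size less than `L`; for each index `ζ` in `s` there are three
subsets `u ζ`, `v ζ`, `w ζ` of `L` (only the parts below `h` matter), such that `e` maps `u ζ` to
`v ζ` and `w ζ` to `u ζ` up to at most `κ` errors.
-/

set_option autoImplicit false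
set_option linter.unusedSectionVars false
set_option linter.unusedVariables false

universe u

namespace Pool.Agent.W869.AU

open Set
open Cardinal hiding univ

/-- Raw conditions. -/
structure PC (L M : Type u) where
  h : L
  e : Equiv.Perm L
  s : Set M
  u : M → Set L
  v : M → Set L
  w : M → Set L

variable {κ : Cardinal.{u}} {L M : Type u} [LinearOrder L] [WellFoundedLT L]
variable [LinearOrder M] [WellFoundedLT M]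

/-- The requirements on a raw condition which do not mention names. -/
structure Wf (κ : Cardinal.{u}) (p : PC L M) : Prop where
  fix : ∀ x, p.h ≤ x → p.e x = x
  small : #p.s < #L
  verr : ∀ ζ ∈ p.s, #{x | x < p.h ∧ ¬ (x ∈ p.u ζ ↔ p.e x ∈ p.v ζ)} ≤ κ
  werr : ∀ ζ ∈ p.s, #{x | x < p.h ∧ ¬ (x ∈ p.w ζ ↔ p.e x ∈ p.u ζ)} ≤ κ

theorem perm_lt {σ : Equiv.Perm L} {h : L} (hσ : ∀ x, h ≤ x → σ x = x) {x : L} :
    σ x < h ↔ x < h := by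
  constructor
  · intro hx
    by_contra hc
    rw [hσ x (not_lt.1 hc)] at hx
    exact hc hx
  · intro hx
    by_contra hc
    have h1 := σ.injective (hσ _ (not_lt.1 hc))
    rw [h1] at hc
    exact hc hx

theorem perm_ge {σ : Equiv.Perm L} {h : L} (hσ : ∀ x, x < h → σ x = x) {x : L} :
    h ≤ σ x ↔ h ≤ x := by
  rw [← not_lt, ← not_lt, not_iff_not]
  constructor
  · intro hx
    have h1 := σ.injective (hσ _ hx)
    rwa [h1] at hx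
  · intro hx
    rw [hσ x hx]
    exact hx

theorem perm_symm_fix {σ : Equiv.Perm L} {h : L} (hσ : ∀ x, h ≤ x → σ x = x) {x : L}
    (hx : h ≤ x) : σ.symm x = x := by
  rw [Equiv.symm_apply_eq, hσ x hx]

theorem perm_symm_fix' {σ : Equiv.Perm L} {h : L} (hσ : ∀ x, x < h → σ x = x) {x : L}
    (hx : x < h) : σ.symm x = x := by
  rw [Equiv.symm_apply_eq, hσ x hx]

/-- The condition `q` extends `p`, where the permutation `σ` is exact for the old indices. -/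
structure Ex (p q : PC L M) (σ : Equiv.Perm L) : Prop where
  hle : p.h ≤ q.h
  sub : p.s ⊆ q.s
  ueq : ∀ ζ ∈ p.s, ∀ x < p.h, (x ∈ q.u ζ ↔ x ∈ p.u ζ)
  veq : ∀ ζ ∈ p.s, ∀ x < p.h, (x ∈ q.v ζ ↔ x ∈ p.v ζ)
  weq : ∀ ζ ∈ p.s, ∀ x < p.h, (x ∈ q.w ζ ↔ x ∈ p.w ζ)
  lo : ∀ x < p.h, σ x = x
  hi : ∀ x, q.h ≤ x → σ x = x
  uv : ∀ ζ ∈ p.s, ∀ x, p.h ≤ x → x < q.h → (x ∈ q.u ζ ↔ σ x ∈ q.v ζ)
  wu : ∀ ζ ∈ p.s, ∀ x, p.h ≤ x → x < q.h → (x ∈ q.w ζ ↔ σ x ∈ q.u ζ)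

theorem Ex.refl (p : PC L M) : Ex p p 1 :=
  ⟨le_rfl, subset_rfl, fun _ _ _ _ => Iff.rfl, fun _ _ _ _ => Iff.rfl, fun _ _ _ _ => Iff.rfl,
    fun _ _ => rfl, fun _ _ => rfl, fun _ _ _ h1 h2 => ((not_lt.2 h1) h2).elim,
    fun _ _ _ h1 h2 => ((not_lt.2 h1) h2).elim⟩

theorem Ex.trans {p q r : PC L M} {σ τ : Equiv.Perm L} (h1 : Ex p q σ) (h2 : Ex q r τ) :
    Ex p r (σ * τ) where
  hle := h1.hle.trans h2.hle
  sub := h1.sub.trans h2.sub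
  ueq ζ hζ x hx := (h2.ueq ζ (h1.sub hζ) x (hx.trans_le h1.hle)).trans (h1.ueq ζ hζ x hx)
  veq ζ hζ x hx := (h2.veq ζ (h1.sub hζ) x (hx.trans_le h1.hle)).trans (h1.veq ζ hζ x hx)
  weq ζ hζ x hx := (h2.weq ζ (h1.sub hζ) x (hx.trans_le h1.hle)).trans (h1.weq ζ hζ x hx)
  lo x hx := by
    rw [Equiv.Perm.mul_apply, h2.lo x (hx.trans_le h1.hle), h1.lo x hx]
  hi x hx := by
    rw [Equiv.Perm.mul_apply, h2.hi x hx, h1.hi x (h2.hle.trans hx)]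
  uv ζ hζ x hx hx' := by
    rw [Equiv.Perm.mul_apply]
    by_cases h : x < q.h
    · rw [h2.lo x h, h2.ueq ζ (h1.sub hζ) x h, h1.uv ζ hζ x hx h,
        h2.veq ζ (h1.sub hζ) _ ((perm_lt h1.hi).2 h)]
    · rw [not_lt] at h
      rw [h1.hi _ ((perm_ge h2.lo).2 h)]
      exact h2.uv ζ (h1.sub hζ) x h hx'
  wu ζ hζ x hx hx' := by
    rw [Equiv.Perm.mul_apply]
    by_cases h : x < q.h
    · rw [h2.lo x h, h2.weq ζ (h1.sub hζ) x h, h1.wu ζ hζ x hx h,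
        h2.ueq ζ (h1.sub hζ) _ ((perm_lt h1.hi).2 h)]
    · rw [not_lt] at h
      rw [h1.hi _ ((perm_ge h2.lo).2 h)]
      exact h2.wu ζ (h1.sub hζ) x h hx'

/-- The order of the conditions. -/
def Le (κ : Cardinal.{u}) (q p : PC L M) : Prop :=
  ∃ σ, Ex p q σ ∧ #{x | q.e x ≠ p.e (σ x)} ≤ κ

/-- The strict order: the permutation of `q` is the product of the one of `p` and an exact one. -/
def SLe (q p : PC L M) : Prop := ∃ σ, Ex p q σ ∧ ∀ x, q.e x = p.e (σ x)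

theorem SLe.le {q p : PC L M} (h : SLe q p) : Le κ q p := by
  obtain ⟨σ, h1, h2⟩ := h
  refine ⟨σ, h1, ?_⟩
  have : {x | q.e x ≠ p.e (σ x)} = ∅ := by
    ext x
    simp [h2 x]
  rw [this, Cardinal.mk_eq_zero]
  exact bot_le

theorem SLe.refl (p : PC L M) : SLe p p := ⟨1, Ex.refl p, fun _ => rfl⟩

theorem SLe.trans {p q r : PC L M} (h1 : SLe r q) (h2 : SLe q p) : SLe r p := by
  obtain ⟨τ, h3, h4⟩ := h1
  obtain ⟨σ, h5, h6⟩ := h2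
  exact ⟨σ * τ, h5.trans h3, fun x => by rw [h4, h6, Equiv.Perm.mul_apply]⟩

theorem Le.refl (p : PC L M) : Le κ p p := (SLe.refl p).le

theorem Le.trans (hκ : ℵ₀ ≤ κ) {p q r : PC L M} (h1 : Le κ r q) (h2 : Le κ q p) : Le κ r p := by
  obtain ⟨τ, h3, h4⟩ := h1
  obtain ⟨σ, h5, h6⟩ := h2
  refine ⟨σ * τ, h5.trans h3, ?_⟩
  refine sm_mono ?_ (sm_union hκ h4 (sm_preimage τ τ.injective h6))
  intro x hx
  by_cases h : r.e x = q.e (τ x)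
  · refine Or.inr ?_
    show q.e (τ x) ≠ p.e (σ (τ x))
    rw [← h]
    exact hx
  · exact Or.inl h

/-- Restriction of the set of indices. -/
def cut (p : PC L M) (t : Set M) : PC L M := { p with s := p.s ∩ t }

@[simp] theorem cut_h (p : PC L M) (t : Set M) : (cut p t).h = p.h := rfl
@[simp] theorem cut_e (p : PC L M) (t : Set M) : (cut p t).e = p.e := rfl
@[simp] theorem cut_s (p : PC L M) (t : Set M) : (cut p t).s = p.s ∩ t := rfl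
@[simp] theorem cut_u (p : PC L M) (t : Set M) : (cut p t).u = p.u := rfl
@[simp] theorem cut_v (p : PC L M) (t : Set M) : (cut p t).v = p.v := rfl
@[simp] theorem cut_w (p : PC L M) (t : Set M) : (cut p t).w = p.w := rfl

theorem Ex.cut {p q : PC L M} {σ : Equiv.Perm L} (h : Ex p q σ) (t : Set M) :
    Ex (cut p t) (cut q t) σ where
  hle := h.hle
  sub := inter_subset_inter_left _ h.sub
  ueq ζ hζ := h.ueq ζ hζ.1
  veq ζ hζ := h.veq ζ hζ.1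
  weq ζ hζ := h.weq ζ hζ.1
  lo := h.lo
  hi := h.hi
  uv ζ hζ := h.uv ζ hζ.1
  wu ζ hζ := h.wu ζ hζ.1

theorem SLe.cut {p q : PC L M} (h : SLe q p) (t : Set M) : SLe (cut q t) (cut p t) := by
  obtain ⟨σ, h1, h2⟩ := h
  exact ⟨σ, h1.cut t, h2⟩

theorem Le.cut {p q : PC L M} (h : Le κ q p) (t : Set M) : Le κ (cut q t) (cut p t) := by
  obtain ⟨σ, h1, h2⟩ := h
  exact ⟨σ, h1.cut t, h2⟩

theorem Ex.of_sub {p p' q : PC L M} {σ : Equiv.Perm L} (h : Ex p q σ) (hh : p'.h = p.h)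
    (hs : p'.s ⊆ p.s) (hu : ∀ ζ ∈ p'.s, ∀ x < p.h, (x ∈ p.u ζ ↔ x ∈ p'.u ζ))
    (hv : ∀ ζ ∈ p'.s, ∀ x < p.h, (x ∈ p.v ζ ↔ x ∈ p'.v ζ))
    (hw : ∀ ζ ∈ p'.s, ∀ x < p.h, (x ∈ p.w ζ ↔ x ∈ p'.w ζ)) : Ex p' q σ where
  hle := hh ▸ h.hle
  sub := hs.trans h.sub
  ueq ζ hζ x hx := (h.ueq ζ (hs hζ) x (hh ▸ hx)).trans (hu ζ hζ x (hh ▸ hx))
  veq ζ hζ x hx := (h.veq ζ (hs hζ) x (hh ▸ hx)).trans (hv ζ hζ x (hh ▸ hx))
  weq ζ hζ x hx := (h.weq ζ (hs hζ) x (hh ▸ hx)).trans (hw ζ hζ x (hh ▸ hx))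
  lo x hx := h.lo x (hh ▸ hx)
  hi := h.hi
  uv ζ hζ x hx := h.uv ζ (hs hζ) x (hh ▸ hx)
  wu ζ hζ x hx := h.wu ζ (hs hζ) x (hh ▸ hx)

theorem sle_cut (p : PC L M) (t : Set M) : SLe p (cut p t) :=
  ⟨1, (Ex.refl p).of_sub rfl inter_subset_left (fun _ _ _ _ => Iff.rfl) (fun _ _ _ _ => Iff.rfl)
    (fun _ _ _ _ => Iff.rfl), fun _ => rfl⟩

theorem sle_cut_of {p q : PC L M} {t : Set M} (h : SLe q p) (ht : p.s ⊆ t) :
    SLe (cut q t) p := by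
  obtain ⟨σ, h1, h2⟩ := h
  exact ⟨σ, ⟨h1.hle, subset_inter h1.sub ht, h1.ueq, h1.veq, h1.weq, h1.lo, h1.hi, h1.uv,
    h1.wu⟩, h2⟩

theorem le_cut_of {p q : PC L M} {t : Set M} (h : Le κ q p) (ht : p.s ⊆ t) :
    Le κ (cut q t) p := by
  obtain ⟨σ, h1, h2⟩ := h
  exact ⟨σ, ⟨h1.hle, subset_inter h1.sub ht, h1.ueq, h1.veq, h1.weq, h1.lo, h1.hi, h1.uv,
    h1.wu⟩, h2⟩

/-- Restriction to the points below an index. -/
abbrev res (p : PC L M) (ζ : M) : PC L M := cut p (Iio ζ)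

/-! ### Forcing below an index -/

/-- `p` forces, with respect to the set `D` of conditions, that the generic filter meets `N`. -/
def Mt (κ : Cardinal.{u}) (D N : Set (PC L M)) : Set (PC L M) :=
  {p | ∀ q ∈ D, Le κ q p → ∃ r ∈ D, Le κ r q ∧ ∃ a ∈ N, a ∈ D ∧ Le κ r a}

/-- `p` forces the negation. -/
def Nt (κ : Cardinal.{u}) (D N : Set (PC L M)) : Set (PC L M) :=
  {p | ∀ q ∈ D, Le κ q p → q ∉ Mt κ D N}

theorem Mt.down (hκ : ℵ₀ ≤ κ) {D N : Set (PC L M)} {p q : PC L M} (hp : p ∈ Mt κ D N)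
    (h : Le κ q p) : q ∈ Mt κ D N := fun r hr h' => hp r hr (h'.trans hκ h)

theorem Nt.down (hκ : ℵ₀ ≤ κ) {D N : Set (PC L M)} {p q : PC L M} (hp : p ∈ Nt κ D N)
    (h : Le κ q p) : q ∈ Nt κ D N := fun r hr h' => hp r hr (h'.trans hκ h)

/-- `p` decides, below the index `ζ`, the name `N` as `p.u ζ`. -/
def Dec (κ : Cardinal.{u}) (D : Set (PC L M)) (N : L → Set (PC L M)) (ζ : M) (p : PC L M) :
    Prop :=
  ∀ x < p.h, (x ∈ p.u ζ → res p ζ ∈ Mt κ D (N x)) ∧ (x ∉ p.u ζ → res p ζ ∈ Nt κ D (N x))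

/-- The conditions with indices below `ξ`. -/
noncomputable def DD (κ : Cardinal.{u}) (τ : M → L → Set (PC L M)) : M → Set (PC L M) :=
  (wellFounded_lt (α := M)).fix fun ξ ih =>
    {p | Wf κ p ∧ p.s ⊆ Iio ξ ∧ ∀ (ζ : M) (h : ζ < ξ), ζ ∈ p.s → Dec κ (ih ζ h) (τ ζ) ζ p}

/-- The conditions. -/
def Ok (κ : Cardinal.{u}) (τ : M → L → Set (PC L M)) (p : PC L M) : Prop :=
  Wf κ p ∧ ∀ ζ ∈ p.s, Dec κ (DD κ τ ζ) (τ ζ) ζ p

variable {τ : M → L → Set (PC L M)}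

theorem mem_DD {ξ : M} {p : PC L M} : p ∈ DD κ τ ξ ↔ Ok κ τ p ∧ p.s ⊆ Iio ξ := by
  have h : DD κ τ ξ = {p | Wf κ p ∧ p.s ⊆ Iio ξ ∧ ∀ (ζ : M) (h : ζ < ξ), ζ ∈ p.s →
      Dec κ (DD κ τ ζ) (τ ζ) ζ p} := (wellFounded_lt (α := M)).fix_eq _ ξ
  rw [h]
  constructor
  · rintro ⟨h1, h2, h3⟩
    exact ⟨⟨h1, fun ζ hζ => h3 ζ (h2 hζ) hζ⟩, h2⟩
  · rintro ⟨⟨h1, h3⟩, h2⟩
    exact ⟨h1, h2, fun ζ hζ hζ' => h3 ζ hζ'⟩

theorem ok_of (hκ : ℵ₀ ≤ κ) {q : PC L M} (hq : Wf κ q)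
    (h : ∀ ζ ∈ q.s, ∀ x < q.h, ∃ p, Ok κ τ p ∧ ζ ∈ p.s ∧ x < p.h ∧ Le κ (res q ζ) (res p ζ) ∧
      (x ∈ q.u ζ ↔ x ∈ p.u ζ)) : Ok κ τ q := by
  refine ⟨hq, fun ζ hζ x hx => ?_⟩
  obtain ⟨p, hp, hζp, hxp, hle, hu⟩ := h ζ hζ x hx
  have h1 := hp.2 ζ hζp x hxp
  exact ⟨fun hxu => Mt.down hκ (h1.1 (hu.1 hxu)) hle,
    fun hxu => Nt.down hκ (h1.2 fun h' => hxu (hu.2 h')) hle⟩

theorem ok_cut (hκ : ℵ₀ ≤ κ) {p : PC L M} (hp : Ok κ τ p) {t : Set M}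
    (ht : ∀ ζ ∈ t, ∀ ξ < ζ, ξ ∈ t) : Ok κ τ (cut p t) := by
  refine ok_of hκ ⟨hp.1.fix, (Cardinal.mk_le_mk_of_subset inter_subset_left).trans_lt hp.1.small,
    fun ζ hζ => hp.1.verr ζ hζ.1, fun ζ hζ => hp.1.werr ζ hζ.1⟩ ?_
  intro ζ hζ x hx
  refine ⟨p, hp, hζ.1, hx, ?_, Iff.rfl⟩
  refine (SLe.le ⟨1, ⟨le_rfl, ?_, fun _ _ _ _ => Iff.rfl, fun _ _ _ _ => Iff.rfl,
    fun _ _ _ _ => Iff.rfl, fun _ _ => rfl, fun _ _ => rfl,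
    fun _ _ _ h1 h2 => ((not_lt.2 h1) h2).elim,
    fun _ _ _ h1 h2 => ((not_lt.2 h1) h2).elim⟩, fun _ => rfl⟩)
  rintro ξ ⟨h1, h2⟩
  exact ⟨⟨h1, ht ζ hζ.2 ξ h2⟩, h2⟩

theorem ok_res (hκ : ℵ₀ ≤ κ) {p : PC L M} (hp : Ok κ τ p) (ζ : M) : Ok κ τ (res p ζ) :=
  ok_cut hκ hp fun _ h1 _ h2 => h2.trans h1

theorem res_mem (hκ : ℵ₀ ≤ κ) {p : PC L M} (hp : Ok κ τ p) (ζ : M) : res p ζ ∈ DD κ τ ζ :=
  mem_DD.2 ⟨ok_res hκ hp ζ, inter_subset_right⟩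

/-- Conditions with the same data are equivalent. -/
theorem sle_of_eq {p q : PC L M} (hh : q.h = p.h) (he : ∀ x, q.e x = p.e x) (hs : p.s ⊆ q.s)
    (hu : ∀ ζ ∈ p.s, ∀ x < p.h, (x ∈ q.u ζ ↔ x ∈ p.u ζ))
    (hv : ∀ ζ ∈ p.s, ∀ x < p.h, (x ∈ q.v ζ ↔ x ∈ p.v ζ))
    (hw : ∀ ζ ∈ p.s, ∀ x < p.h, (x ∈ q.w ζ ↔ x ∈ p.w ζ)) : SLe q p :=
  ⟨1, ⟨hh.ge, hs, hu, hv, hw, fun _ _ => rfl, fun _ _ => rfl,
    fun _ _ x h1 h2 => ((not_lt.2 h1) (hh ▸ h2)).elim,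
    fun _ _ x h1 h2 => ((not_lt.2 h1) (hh ▸ h2)).elim⟩, he⟩

/-- Replacing the permutation by one which differs at few points. -/
theorem change (hκ : ℵ₀ ≤ κ) {q : PC L M} (hq : Ok κ τ q) {f : Equiv.Perm L}
    (hfix : ∀ x, q.h ≤ x → f x = x) (hf : #{x | q.e x ≠ f x} ≤ κ) :
    Ok κ τ { q with e := f } ∧ Le κ { q with e := f } q ∧ Le κ q { q with e := f } := by
  have hf' : #{x | f x ≠ q.e x} ≤ κ := by
    refine sm_mono ?_ hf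
    intro x hx
    exact fun h => hx h.symm
  have h1 : ∀ t : Set M, Le κ (cut { q with e := f } t) (cut q t) := fun t =>
    ⟨1, ⟨le_rfl, subset_rfl, fun _ _ _ _ => Iff.rfl, fun _ _ _ _ => Iff.rfl,
      fun _ _ _ _ => Iff.rfl, fun _ _ => rfl, fun _ _ => rfl,
      fun _ _ _ h1 h2 => ((not_lt.2 h1) h2).elim,
      fun _ _ _ h1 h2 => ((not_lt.2 h1) h2).elim⟩, hf'⟩
  refine ⟨?_, ?_, ?_⟩
  · refine ok_of hκ ⟨hfix, hq.1.small, ?_, ?_⟩ ?_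
    · intro ζ hζ
      refine sm_mono ?_ (sm_union hκ hf (hq.1.verr ζ hζ))
      rintro x ⟨hx, hx'⟩
      by_cases h : q.e x = f x
      · refine Or.inr ⟨hx, ?_⟩
        rw [h]
        exact hx'
      · exact Or.inl h
    · intro ζ hζ
      refine sm_mono ?_ (sm_union hκ hf (hq.1.werr ζ hζ))
      rintro x ⟨hx, hx'⟩
      by_cases h : q.e x = f x
      · refine Or.inr ⟨hx, ?_⟩
        rw [h]
        exact hx'
      · exact Or.inl h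
    · intro ζ hζ x hx
      exact ⟨q, hq, hζ, hx, h1 _, Iff.rfl⟩
  · exact ⟨1, ⟨le_rfl, subset_rfl, fun _ _ _ _ => Iff.rfl, fun _ _ _ _ => Iff.rfl,
      fun _ _ _ _ => Iff.rfl, fun _ _ => rfl, fun _ _ => rfl,
      fun _ _ _ h1 h2 => ((not_lt.2 h1) h2).elim,
      fun _ _ _ h1 h2 => ((not_lt.2 h1) h2).elim⟩, hf'⟩
  · exact ⟨1, ⟨le_rfl, subset_rfl, fun _ _ _ _ => Iff.rfl, fun _ _ _ _ => Iff.rfl,
      fun _ _ _ _ => Iff.rfl, fun _ _ => rfl, fun _ _ => rfl,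
      fun _ _ _ h1 h2 => ((not_lt.2 h1) h2).elim,
      fun _ _ _ h1 h2 => ((not_lt.2 h1) h2).elim⟩, hf⟩

/-- Every extension is equivalent to a strict extension. -/
theorem exists_strict (hκ : ℵ₀ ≤ κ) {p q : PC L M} (hp : Wf κ p) (hq : Ok κ τ q)
    (h : Le κ q p) : ∃ r, Ok κ τ r ∧ SLe r p ∧ Le κ r q ∧ Le κ q r ∧ r.h = q.h ∧ r.s = q.s ∧
      r.u = q.u ∧ r.v = q.v ∧ r.w = q.w := by
  obtain ⟨σ, h1, h2⟩ := h
  obtain ⟨h3, h4, h5⟩ := change hκ hq (f := p.e * σ) (fun x hx => by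
    rw [Equiv.Perm.mul_apply, h1.hi x hx, hp.fix x (h1.hle.trans hx)]) h2
  refine ⟨_, h3, ⟨σ, ⟨h1.hle, h1.sub, h1.ueq, h1.veq, h1.weq, h1.lo, h1.hi, h1.uv, h1.wu⟩,
    fun x => rfl⟩, h4, h5, rfl, rfl, rfl, rfl, rfl⟩

end Pool.Agent.W869.AU
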