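import Pool.Agent.W869.AU.Forc
import Pool.Agent.W869.AU.Answer
import Pool.Agent.W869.AU.Transport

/-!
# Forcing the hypothesis
-/

set_option autoImplicit false
set_option linter.unusedSectionVars false
set_option linter.style.haveILetI false

universe u

namespace Pool.Agent.W869.AU

open Set
open Cardinal hiding univ

theorem inac_of {κ θ : Cardinal.{u}} (hκ : ℵ₀ ≤ κ) (hθ : κ < θ) (hi : θ.IsInaccessible) :
    Inac κ θ.ord.ToType := by
  have hc : #θ.ord.ToType = θ := Cardinal.mk_ord_toType θ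
  refine ⟨fun a => ?_, fun X hX => exists_gt_of_small ?_, fun c h => ?_, hκ, ?_⟩
  · refine Cardinal.mk_Iio_lt a ?_
    rw [hc, Ordinal.type_toType]
  · rw [Ordinal.cof_toType, hi.isRegular.cof_ord]
    exact hX.trans_eq hc
  · rw [hc] at h ⊢
    exact hi.isStrongPrelimit h
  · rw [hc]
    exact hθ

theorem pp_nonempty {κ : Cardinal.{u}} {L M : Type u} [LinearOrder L] [WellFoundedLT L]
    [LinearOrder M] [WellFoundedLT M] {τ : M → L → Set (PC L M)} (hκ : ℵ₀ ≤ κ)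
    (hL : Inac κ L) : Nonempty (PP κ hκ τ) := by
  haveI := hL.infinite
  obtain ⟨a⟩ : Nonempty L := inferInstance
  exact ⟨⟨⟨a, 1, ∅, fun _ => ∅, fun _ => ∅, fun _ => ∅⟩, ⟨fun _ _ => rfl, by
    show #(∅ : Set M) < #L
    rw [Cardinal.mk_eq_zero]
    exact (Cardinal.aleph0_pos).trans hL.aleph, fun ζ hζ => hζ.elim, fun ζ hζ => hζ.elim⟩,
    fun ζ hζ => hζ.elim⟩⟩

theorem forced {κ θ : Cardinal.{u}} (hκ : ℵ₀ ≤ κ) (hθ : κ < θ) (hi : θ.IsInaccessible) :
    ∃ (P : Type u) (_ : Preorder P), Nonempty P ∧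
      ∀ p : P, p ∈ HypothesisN P κ.ord.ToType θ.ord.ToType := by
  have hL := inac_of hκ hθ hi
  haveI := hL.infinite
  obtain ⟨M, i1, i2, τ, hτ⟩ := exists_univ (L := θ.ord.ToType)
  exact ⟨PP κ hκ τ, inferInstance, pp_nonempty hκ hL,
    fun p => forced_hyp hL (Cardinal.mk_ord_toType κ) hτ p⟩

/-- The ZFC part, for sets of ordinals. -/
theorem answer' {K L : Type u} [LinearOrder L] [WellFoundedLT L] (hyp : Hypothesis K L) :
    ∃ κ lam : Cardinal.{u}, ℵ₀ ≤ κ ∧ κ < lam ∧ ∃ (hμ : ℵ₀ ≤ Order.succ κ)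
      (π : Quo (Order.succ κ) hμ lam.ord.ToType ≃o Quo (Order.succ κ) hμ lam.ord.ToType),
      ¬ IsTrivial π ∧ ∀ X : Set lam.ord.ToType, #X = Order.succ κ → IsTrivialOn π X := by
  obtain ⟨h1, h2, hμ, π, h3, h4⟩ := answer hyp
  obtain ⟨b⟩ := Cardinal.eq.1 (Cardinal.mk_ord_toType (#L)).symm
  obtain ⟨π', h5, h6⟩ := transport b π
  refine ⟨#K, #L, h1, h2, hμ, π', fun h => h3 (h5 h), fun X hX => h6 X (h4 _ ?_)⟩
  rw [← hX]
  exact Cardinal.mk_preimage_equiv b X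

end Pool.Agent.W869.AU
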