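import Pool.Agent.W869.AU.NoThread
import Pool.Agent.W869.AU.Defs

/-!
# The hypothesis is forced
-/

set_option autoImplicit false
set_option linter.unusedSectionVars false
set_option linter.unusedVariables false
set_option linter.style.haveILetI false

universe u

namespace Pool.Agent.W869.AU

open Set Pool.Agent.Helper669.Forcing
open Cardinal hiding univ

section General

variable {P : Type u} [Preorder P] {K L : Type u}

theorem down_FewN (φ : L → Set P) : Down (FewN K φ) := down_fex _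

theorem reg_FewN (φ : L → Set P) : Reg (FewN K φ) := reg_fex _

theorem isFun_ground {X Y : Type u} (g : X → Y) (p : P) :
    p ∈ IsFun (fun a b => {_q : P | g a = b}) := by
  refine ⟨fun x => mem_fex_of_mem (g x) (down_meets _) (mem_meets_const.2 rfl), ?_⟩
  intro x y y'
  rw [mem_fimp_reg (down_fand (down_meets _) (down_meets _)) (reg_fground _)]
  rintro q hq ⟨h1, h2⟩
  exact (mem_meets_const.1 h1).symm.trans (mem_meets_const.1 h2)

/-- Covering by a ground model function. -/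
theorem few_of {φ : L → Set P} {q : P} (z : K → L)
    (h : ∀ x, ∀ s ≤ q, s ∈ φ x → ∃ k, z k = x) : q ∈ FewN K φ := by
  refine mem_fex_of_mem (fun k x => {_q : P | z k = x}) ?_ ⟨isFun_ground z q, fun x => ?_⟩
  · exact down_fand (down_IsFun _) (down_fall fun _ => down_fimp _ _)
  · rw [mem_fimp]
    intro s hs hsx
    obtain ⟨k, hk⟩ := h x s hs hsx
    exact ⟨s, le_rfl, mem_fex_of_mem k (down_meets _) (mem_meets_const.2 hk)⟩

/-- Small sets are covered. -/
theorem exists_cover [Nonempty L] {X : Set L} (h : #X ≤ #K) (hK : #K ≠ 0) :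
    ∃ z : K → L, ∀ x ∈ X, ∃ k, z k = x := by
  classical
  obtain ⟨i⟩ := h
  refine ⟨fun k => if h : ∃ x : X, i x = k then h.choose.1 else Classical.arbitrary L,
    fun x hx => ⟨i ⟨x, hx⟩, ?_⟩⟩
  have h : ∃ x' : X, i x' = i ⟨x, hx⟩ := ⟨_, rfl⟩
  have h2 : h.choose = ⟨x, hx⟩ := i.injective h.choose_spec
  simp only [dif_pos h, h2]

end General

variable {κ : Cardinal.{u}} {L M : Type u} [LinearOrder L] [WellFoundedLT L]
variable [LinearOrder M] [WellFoundedLT M]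
variable {hκ : ℵ₀ ≤ κ} {τ : M → L → Set (PC L M)} {K : Type u}

theorem pp_le {r q : PP κ hκ τ} (h : SLe r.val q.val) : r ≤ q := h.le

theorem few_decide (hL : Inac κ L) (hK : #K = κ) {φ : L → Set (PP κ hκ τ)} {q : PP κ hκ τ}
    (hq : q ∈ FewN K φ) : ∃ r ≤ q, ∃ z : K → L, ∀ x, r ∈ φ x → Down (φ x) → ∃ k, z k = x := by
  obtain ⟨r, hr, g, hg, hg'⟩ := mem_fex.1 hq q le_rfl
  obtain ⟨s, hs, hs'⟩ := pp_fun (hκ := hκ) (τ := τ) hL (J := K) (hK.le.trans_lt hL.big) (Y := L)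
    (R := g) (p := r) hg.1
  choose z hz using hs'
  refine ⟨s, (pp_le hs).trans hr, z, fun x hx hd => ?_⟩
  obtain ⟨s₁, h1, h2⟩ := mem_fimp.1 (hg' x) s hs.le hx
  obtain ⟨s₂, h3, k, h4⟩ := mem_fex.1 h2 s₁ le_rfl
  exact ⟨k, IsFun.unique (down_IsFun g r hg s₂ ((h3.trans h1).trans (pp_le hs)))
    (down_meets _ _ (hz k) _ (h3.trans h1)) h4⟩

theorem le_agree {p q : PC L M} (h : Le κ q p) : #{x | x < p.h ∧ q.e x ≠ p.e x} ≤ κ := by
  obtain ⟨σ, h1, h2⟩ := h
  refine sm_mono ?_ h2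
  rintro x ⟨hx, hx'⟩
  show q.e x ≠ p.e (σ x)
  rw [h1.lo x hx]
  exact hx'

variable (hL : Inac κ L) (hK : #K = κ)

include hL hK

theorem forced_inf (p : PP κ hκ τ) : p ∈ fex fun g : K → K → Set (PP κ hκ τ) => fand (IsFun g)
    (fand (fall fun a => fall fun b => fall fun c =>
      fimp (fand (meets (g a c)) (meets (g b c))) (fground (a = b)))
      (fex fun c => fall fun a => fnot (meets (g a c)))) := by
  haveI : Infinite K := Cardinal.infinite_iff.2 (hK ▸ hκ)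
  obtain ⟨g, hg, c, hc⟩ : ∃ g : K → K, Function.Injective g ∧ ∃ c, ∀ a, g a ≠ c := by
    obtain ⟨c⟩ : Nonempty K := inferInstance
    have h1 : #K = #{x : K | x ≠ c} := by
      have h2 : #({c}ᶜ : Set K) = #K := Cardinal.mk_compl_of_infinite {c} (by
        rw [Cardinal.mk_singleton]
        exact Cardinal.one_lt_aleph0.trans_le (Cardinal.aleph0_le_mk K))
      exact h2.symm
    obtain ⟨f⟩ := Cardinal.eq.1 h1
    exact ⟨fun a => (f a).1, fun a b h => f.injective (Subtype.ext h), c, fun a => (f a).2⟩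
  refine mem_fex_of_mem (fun a b => {_q : PP κ hκ τ | g a = b}) ?_ ⟨isFun_ground g p, ?_, ?_⟩
  · exact down_fand (down_IsFun _) (down_fand (down_fall fun _ => down_fall fun _ =>
      down_fall fun _ => down_fimp _ _) (down_fex _))
  · intro a b c
    rw [mem_fimp_reg (down_fand (down_meets _) (down_meets _)) (reg_fground _)]
    rintro q hq ⟨h1, h2⟩
    exact hg ((mem_meets_const.1 h1).trans (mem_meets_const.1 h2).symm)
  · refine mem_fex_of_mem c (down_fall fun _ => down_fnot _) fun a q hq h1 => ?_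
    exact hc a (mem_meets_const.1 h1)

theorem forced_big (p : PP κ hκ τ) :
    p ∈ fex fun γ : L => fnot (FewN K fun x => fground (x < γ)) := by
  obtain ⟨γ, hγ⟩ := hL.exists_Iio (hL.pow κ hL.big)
  refine mem_fex_of_mem γ (down_fnot _) fun q hq h1 => ?_
  obtain ⟨r, hr, z, hz⟩ := few_decide hL hK h1
  have h2 : #(Iio γ) ≤ #K := by
    refine (Cardinal.mk_le_mk_of_subset (t := range z) ?_).trans Cardinal.mk_range_le
    intro x hx
    exact hz x hx (down_fground _)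
  rw [hK] at h2
  exact not_lt.2 (hγ.trans h2) (Cardinal.cantor _)

theorem forced_reg (p : PP κ hκ τ) :
    p ∈ fall fun γ : L => fall fun f : L → L → Set (PP κ hκ τ) => fimp (IsFun f)
        (fex fun β => fall fun x => fimp (fground (x < γ))
          (fall fun z => fimp (meets (f x z)) (fground (z < β)))) := by
  intro γ f
  rw [mem_fimp]
  intro q hq hf
  obtain ⟨r, hr, hr'⟩ := pp_fun (hκ := hκ) (τ := τ) hL (J := Iio γ) (hL.seg γ) (Y := L)
    (R := fun x z => f x z) (p := q) (fun x => hf.1 x)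
  choose z hz using hr'
  obtain ⟨β, hβ⟩ := hL.bdd (range z) (Cardinal.mk_range_le.trans_lt (hL.seg γ))
  refine ⟨r, hr.le, mem_fex_of_mem β (down_fall fun _ => down_fimp _ _) fun x => ?_⟩
  rw [mem_fimp_reg (down_fground _) (reg_fall fun _ => reg_fimp (down_meets _))]
  intro s hs hx y
  rw [mem_fimp_reg (down_meets _) (reg_fground _)]
  intro t ht ht'
  have h1 : y = z ⟨x, hx⟩ := IsFun.unique
    (down_IsFun f q hf t ((ht.trans hs).trans (pp_le hr))) ht'
    (down_meets _ _ (hz ⟨x, hx⟩) _ (ht.trans hs))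
  rw [h1]
  exact hβ _ ⟨_, rfl⟩

theorem forced_coh (p : PP κ hκ τ) :
    p ∈ fall fun y : PP κ hκ τ => fall fun y' : PP κ hκ τ => fimp (meets {y}) (fimp (meets {y'})
        (FewN K fun x => fground (x < y.val.h ∧ x < y'.val.h ∧ y.val.e x ≠ y'.val.e x))) := by
  intro y y'
  rw [mem_fimp_reg (down_meets _) (reg_fimp (down_meets _))]
  intro q hq hy
  rw [mem_fimp_reg (down_meets _) (reg_FewN _)]
  intro q' hq' hy'
  obtain ⟨r, hr, z, hz, hrz⟩ := hy q' hq'
  obtain ⟨r', hr', z', hz', hrz'⟩ := hy' r hr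
  rw [mem_singleton_iff] at hz hz'
  subst hz hz'
  have h1 := le_agree (show Le κ r'.val z.val from hr'.trans hrz)
  have h2 := le_agree (show Le κ r'.val z'.val from hrz')
  haveI : Nonempty L := ⟨z.val.h⟩
  have hK0 : #K ≠ 0 := by
    rw [hK]
    exact (Cardinal.aleph0_pos.trans_le hκ).ne'
  obtain ⟨g, hg⟩ := exists_cover (K := K) (X := {x | x < z.val.h ∧ x < z'.val.h ∧
      z.val.e x ≠ z'.val.e x}) (by
    rw [hK]
    refine sm_mono ?_ (sm_union hκ h1 h2)
    rintro x ⟨hx, hx', hne⟩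
    by_cases h : r'.val.e x = z.val.e x
    · exact Or.inr ⟨hx', fun h' => hne (h.symm.trans h')⟩
    · exact Or.inl ⟨hx, h⟩) hK0
  exact few_of g fun x s hs hx => hg x hx

/-- The set of bad points. -/
theorem bad_small {r y : PC L M} (hr : Ok κ τ r) (hry : Le κ r y) {ζ : M} (hζ : ζ ∈ r.s)
    (g g' : PC L M → M → Set L)
    (hg : #{x | x < r.h ∧ ¬ (x ∈ g r ζ ↔ r.e x ∈ g' r ζ)} ≤ κ) :
    ∃ z : K → L, ∀ x < y.h, (∀ k, z k ≠ x) → r.e x = y.e x ∧ (x ∈ g r ζ ↔ y.e x ∈ g' r ζ) := by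
  haveI : Nonempty L := ⟨y.h⟩
  have hK0 : #K ≠ 0 := by
    rw [hK]
    exact (Cardinal.aleph0_pos.trans_le hL.inf).ne'
  obtain ⟨z, hz⟩ := exists_cover (K := K) (X := {x | x < y.h ∧ r.e x ≠ y.e x} ∪
    {x | x < r.h ∧ ¬ (x ∈ g r ζ ↔ r.e x ∈ g' r ζ)}) (by
      rw [hK]
      exact sm_union hL.inf (le_agree hry) hg) hK0
  obtain ⟨σ, hσ, -⟩ := id hry
  refine ⟨z, fun x hx hzx => ?_⟩
  have h1 : x ∉ {x | x < y.h ∧ r.e x ≠ y.e x} ∪ {x | x < r.h ∧ ¬ (x ∈ g r ζ ↔ r.e x ∈ g' r ζ)} :=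
    fun h => by
      obtain ⟨k, hk⟩ := hz x h
      exact hzx k hk
  have h2 : r.e x = y.e x := by
    by_contra hc
    exact h1 (Or.inl ⟨hx, hc⟩)
  refine ⟨h2, ?_⟩
  rw [← h2]
  by_contra hc
  exact h1 (Or.inr ⟨hx.trans_le hσ.hle, hc⟩)

theorem forced_fwd (hτ : Univ τ) (p : PP κ hκ τ) :
    p ∈ fall fun A : L → Set (PP κ hκ τ) => fex fun B : L → Set (PP κ hκ τ) =>
      fall fun y : PP κ hκ τ =>
        fimp (meets {y}) (FewN K fun x => fand (fground (x < y.val.h))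
          (fnot (fiff (meets (A x)) (meets (B (y.val.e x)))))) := by
  intro A
  obtain ⟨ζ, hζ⟩ := capture hL hτ A
  refine mem_fex_of_mem (fun z => {r : PP κ hκ τ | ζ ∈ r.val.s ∧ z < r.val.h ∧ z ∈ r.val.v ζ})
    (down_fall fun _ => down_fimp _ _) fun y => ?_
  rw [mem_fimp_reg (down_meets _) (reg_FewN _)]
  intro q hq hy
  refine (reg_FewN _).dense q fun q₁ hq₁ => ?_
  obtain ⟨q₂, hq₂, y', hy', hle⟩ := hy q₁ hq₁
  rw [mem_singleton_iff] at hy'
  subst hy'
  obtain ⟨r, hr, hrζ, -⟩ := pp_enter hL q₂ ζ y'.val.h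
  have hry : Le κ r.val y'.val := hr.le.trans hκ hle
  obtain ⟨z, hz⟩ := bad_small hL hK r.ok hry hrζ (fun p => p.u) (fun p => p.v)
    (r.ok.1.verr ζ hrζ)
  obtain ⟨σ, hσ, -⟩ := id hry
  refine ⟨r, (pp_le hr).trans hq₂, few_of z fun x s hs hx => ?_⟩
  by_contra hcon
  push Not at hcon
  have hxy : x < y'.val.h := hx.1
  obtain ⟨h1, h2⟩ := hz x hxy hcon
  have hxr : x < r.val.h := hxy.trans_le hσ.hle
  have hzr : y'.val.e x < r.val.h := by
    rw [← h1]
    exact (perm_lt r.ok.1.fix).2 hxr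
  refine fnot_not hx.2 ?_
  rw [mem_fiff (reg_meets _) (reg_meets _)]
  intro h hh
  have hhr : h ≤ r := hh.trans hs
  by_cases hxu : x ∈ r.val.u ζ
  · refine ⟨fun _ => ?_, fun _ => down_meets _ _ ((hζ r hrζ x hxr).1 hxu) _ hhr⟩
    exact meets_of_le (show r ∈ {r : PP κ hκ τ | ζ ∈ r.val.s ∧ y'.val.e x < r.val.h ∧
      y'.val.e x ∈ r.val.v ζ} from ⟨hrζ, hzr, h2.1 hxu⟩) hhr
  · refine ⟨fun h3 => (fnot_not (fnot_down ((hζ r hrζ x hxr).2 hxu) hhr) h3).elim, fun h3 => ?_⟩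
    exfalso
    obtain ⟨s₁, hs₁, b, ⟨hb1, hb2, hb3⟩, hb4⟩ := h3 h le_rfl
    obtain ⟨ρ, hρ, -⟩ := id hb4
    obtain ⟨ρ', hρ', -⟩ := id (show Le κ s₁.val r.val from hs₁.trans hhr)
    have h4 : y'.val.e x ∈ s₁.val.v ζ := (hρ.veq ζ hb1 _ hb2).2 hb3
    exact hxu (h2.2 ((hρ'.veq ζ hrζ _ hzr).1 h4))

theorem forced_bwd (hτ : Univ τ) (p : PP κ hκ τ) :
    p ∈ fall fun B : L → Set (PP κ hκ τ) => fex fun A : L → Set (PP κ hκ τ) =>
      fall fun y : PP κ hκ τ =>
        fimp (meets {y}) (FewN K fun x => fand (fground (x < y.val.h))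
          (fnot (fiff (meets (A x)) (meets (B (y.val.e x)))))) := by
  intro B
  obtain ⟨ζ, hζ⟩ := capture hL hτ B
  refine mem_fex_of_mem (fun z => {r : PP κ hκ τ | ζ ∈ r.val.s ∧ z < r.val.h ∧ z ∈ r.val.w ζ})
    (down_fall fun _ => down_fimp _ _) fun y => ?_
  rw [mem_fimp_reg (down_meets _) (reg_FewN _)]
  intro q hq hy
  refine (reg_FewN _).dense q fun q₁ hq₁ => ?_
  obtain ⟨q₂, hq₂, y', hy', hle⟩ := hy q₁ hq₁
  rw [mem_singleton_iff] at hy'
  subst hy'
  obtain ⟨r, hr, hrζ, -⟩ := pp_enter hL q₂ ζ y'.val.h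
  have hry : Le κ r.val y'.val := hr.le.trans hκ hle
  obtain ⟨z, hz⟩ := bad_small hL hK r.ok hry hrζ (fun p => p.w) (fun p => p.u)
    (r.ok.1.werr ζ hrζ)
  obtain ⟨σ, hσ, -⟩ := id hry
  refine ⟨r, (pp_le hr).trans hq₂, few_of z fun x s hs hx => ?_⟩
  by_contra hcon
  push Not at hcon
  have hxy : x < y'.val.h := hx.1
  obtain ⟨h1, h2⟩ := hz x hxy hcon
  have hxr : x < r.val.h := hxy.trans_le hσ.hle
  have hzr : y'.val.e x < r.val.h := by
    rw [← h1]
    exact (perm_lt r.ok.1.fix).2 hxr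
  refine fnot_not hx.2 ?_
  rw [mem_fiff (reg_meets _) (reg_meets _)]
  intro h hh
  have hhr : h ≤ r := hh.trans hs
  by_cases hxw : x ∈ r.val.w ζ
  · refine ⟨fun _ => down_meets _ _ ((hζ r hrζ _ hzr).1 (h2.1 hxw)) _ hhr, fun _ => ?_⟩
    exact meets_of_le (show r ∈ {r : PP κ hκ τ | ζ ∈ r.val.s ∧ x < r.val.h ∧
      x ∈ r.val.w ζ} from ⟨hrζ, hxr, hxw⟩) hhr
  · refine ⟨fun h3 => ?_, fun h3 => (fnot_not (fnot_down ((hζ r hrζ _ hzr).2
      fun h4 => hxw (h2.2 h4)) hhr) h3).elim⟩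
    exfalso
    obtain ⟨s₁, hs₁, b, ⟨hb1, hb2, hb3⟩, hb4⟩ := h3 h le_rfl
    obtain ⟨ρ, hρ, -⟩ := id hb4
    obtain ⟨ρ', hρ', -⟩ := id (show Le κ s₁.val r.val from hs₁.trans hhr)
    have h4 : x ∈ s₁.val.w ζ := (hρ.weq ζ hb1 _ hb2).2 hb3
    exact hxw ((hρ'.weq ζ hrζ _ hxr).1 h4)

theorem forced_nt (p : PP κ hκ τ) :
    p ∈ fall fun f : L → L → Set (PP κ hκ τ) => fimp (IsFun f) (fex fun y : PP κ hκ τ =>
        fand (meets {y}) (fnot (FewN K fun x => fand (fground (x < y.val.h))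
          (fnot (meets (f x (y.val.e x))))))) := by
  intro f
  rw [mem_fimp]
  intro q hq hf
  refine ⟨q, le_rfl, mem_fex.2 fun q₁ hq₁ => ?_⟩
  obtain ⟨r, hr, hr'⟩ := no_thread hL q₁ (down_IsFun f q hf q₁ hq₁)
  refine ⟨r, hr, r, meets_of_mem rfl, fun s hs hs' => hr' ?_⟩
  obtain ⟨t, ht, z, hz⟩ := few_decide hL hK hs'
  have htr : t ≤ r := ht.trans hs
  have h1 : {x | x < r.val.h ∧ ∃ y, r ∈ meets (f x y) ∧ r.val.e x ≠ y} ⊆ range z := by
    rintro x ⟨hx, y, hy, hne⟩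
    refine hz x ⟨hx, fun t' ht' ht'' => hne ?_⟩ (down_fand (down_fground _) (down_fnot _))
    exact IsFun.unique (down_IsFun f q hf t' (((ht'.trans htr).trans hr).trans hq₁))
      ht'' (down_meets _ _ hy _ (ht'.trans htr))
  exact ((Cardinal.mk_le_mk_of_subset h1).trans Cardinal.mk_range_le).trans hK.le

theorem forced_hyp (hτ : Univ τ) (p : PP κ hκ τ) : p ∈ HypothesisN (PP κ hκ τ) K L := by
  refine ⟨forced_inf hL hK p, forced_big hL hK p, forced_reg hL hK p, ?_⟩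
  have hd1 : ∀ (Y : Type u) (h : Y → L) (e : Y → Equiv.Perm L) (Z : Y → Set (PP κ hκ τ)),
      Down (fand (fground (∀ y x, h y ≤ x → e y x = x))
      (fand (fall fun γ => fex fun y => fand (meets (Z y)) (fground (γ ≤ h y)))
      (fand (fall fun y => fall fun y' => fimp (meets (Z y)) (fimp (meets (Z y'))
        (FewN K fun x => fground (x < h y ∧ x < h y' ∧ e y x ≠ e y' x))))
      (fand (fall fun A : L → Set (PP κ hκ τ) => fex fun B : L → Set (PP κ hκ τ) =>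
        fall fun y => fimp (meets (Z y)) (FewN K fun x => fand (fground (x < h y))
          (fnot (fiff (meets (A x)) (meets (B (e y x)))))))
      (fand (fall fun B : L → Set (PP κ hκ τ) => fex fun A : L → Set (PP κ hκ τ) =>
        fall fun y => fimp (meets (Z y)) (FewN K fun x => fand (fground (x < h y))
          (fnot (fiff (meets (A x)) (meets (B (e y x)))))))
      (fall fun f : L → L → Set (PP κ hκ τ) => fimp (IsFun f) (fex fun y =>
        fand (meets (Z y)) (fnot (FewN K fun x => fand (fground (x < h y))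
          (fnot (meets (f x (e y x))))))))))))) := fun Y h e Z =>
    down_fand (down_fground _) (down_fand (down_fall fun _ => down_fex _)
      (down_fand (down_fall fun _ => down_fall fun _ => down_fimp _ _)
        (down_fand (down_fall fun _ => down_fex _) (down_fand (down_fall fun _ => down_fex _)
          (down_fall fun _ => down_fimp _ _)))))
  refine mem_fex_of_mem (PP κ hκ τ) (down_fex _) (mem_fex_of_mem (fun y => y.val.h) (down_fex _)
    (mem_fex_of_mem (fun y => y.val.e) (down_fex _) (mem_fex_of_mem (fun y => {y})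
      (hd1 _ _ _ _) ⟨fun y x hx => y.ok.1.fix x hx, ?_, forced_coh hL hK p,
        forced_fwd hL hK hτ p, forced_bwd hL hK hτ p, forced_nt hL hK p⟩)))
  intro γ
  rw [mem_fex]
  intro q hq
  obtain ⟨r, h1, -, h2, h3⟩ := exists_height hL q.ok γ (T := univ)
    (fun _ _ _ _ => mem_univ _) (subset_univ _)
  exact ⟨⟨r, h1⟩, h2.le, ⟨r, h1⟩, meets_of_mem rfl, h3⟩

end Pool.Agent.W869.AU
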