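import Pool.Agent.W869.AU.Base

/-!
# Automorphisms which are trivial on small sets

An automorphism of the quotient of the power set of `Λ` by the ideal of the sets of size at most
`κ` is given by a map `F` on the power set, where `F A` represents the image of `A`.
-/

set_option autoImplicit false
set_option linter.unusedSectionVars false
set_option linter.unusedVariables false
set_option linter.style.haveILetI false

universe u

namespace Pool.Agent.W869.AU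

open Set
open Cardinal hiding univ

variable {κ : Cardinal.{u}} {Λ : Type u}

/-- `A` is contained in `B` up to at most `κ` points. -/
def Al (κ : Cardinal.{u}) (A B : Set Λ) : Prop := #(A \ B : Set Λ) ≤ κ

theorem sm_empty : #(∅ : Set Λ) ≤ κ := by
  rw [Cardinal.mk_eq_zero]
  exact bot_le

theorem Al.of_subset {A B : Set Λ} (h : A ⊆ B) : Al κ A B := by
  have h1 : (A \ B : Set Λ) = ∅ := Set.sdiff_eq_empty.2 h
  rw [Al, h1]
  exact sm_empty

theorem Al.refl (A : Set Λ) : Al κ A A := Al.of_subset subset_rfl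

theorem Al.trans (hκ : ℵ₀ ≤ κ) {A B C : Set Λ} (h1 : Al κ A B) (h2 : Al κ B C) : Al κ A C := by
  refine sm_mono (t := A \ B ∪ B \ C) ?_ (sm_union hκ h1 h2)
  rintro x ⟨hx, hx'⟩
  by_cases hB : x ∈ B
  · exact Or.inr ⟨hB, hx'⟩
  · exact Or.inl ⟨hx, hB⟩

theorem Al.small (hκ : ℵ₀ ≤ κ) {A B : Set Λ} (h : Al κ A B) (hB : #B ≤ κ) : #A ≤ κ := by
  refine sm_mono (t := A \ B ∪ B) ?_ (sm_union hκ h hB)
  intro x hx
  by_cases hB : x ∈ B
  · exact Or.inr hB
  · exact Or.inl ⟨hx, hB⟩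

theorem Al.of_small {A B : Set Λ} (h : #A ≤ κ) : Al κ A B := sm_mono sdiff_subset h

theorem Al.union (hκ : ℵ₀ ≤ κ) {A B C : Set Λ} (h1 : Al κ A C) (h2 : Al κ B C) :
    Al κ (A ∪ B) C := by
  refine sm_mono (t := A \ C ∪ B \ C) ?_ (sm_union hκ h1 h2)
  rintro x ⟨hx | hx, hx'⟩
  · exact Or.inl ⟨hx, hx'⟩
  · exact Or.inr ⟨hx, hx'⟩

theorem Al.mono {A B A' B' : Set Λ} (h : Al κ A B) (h1 : A' ⊆ A) (h2 : B ⊆ B') :
    Al κ A' B' := sm_mono (s := A' \ B') (t := A \ B)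
  (fun x hx => ⟨h1 hx.1, fun h' => hx.2 (h2 h')⟩) h

/-- Automorphisms, given by representatives of the images and of the preimages. -/
structure Aut (κ : Cardinal.{u}) (Λ : Type u) where
  F : Set Λ → Set Λ
  G : Set Λ → Set Λ
  le_iff : ∀ A B, Al κ A B ↔ Al κ (F A) (F B)
  FG : ∀ B, Al κ (F (G B)) B
  FG' : ∀ B, Al κ B (F (G B))

namespace Aut

variable (hκ : ℵ₀ ≤ κ) (π : Aut κ Λ)

include hκ

theorem small_iff (A : Set Λ) : #A ≤ κ ↔ #(π.F A) ≤ κ := by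
  have h0 : #(π.F (π.G ∅)) ≤ κ := (π.FG ∅).small hκ sm_empty
  constructor
  · intro h
    exact ((π.le_iff A (π.G ∅)).1 (Al.of_small h)).small hκ h0
  · intro h
    have h1 := (π.le_iff A ∅).2 (Al.of_small h)
    exact h1.small hκ sm_empty

theorem disj {A B : Set Λ} (h : #(A ∩ B : Set Λ) ≤ κ) : #(π.F A ∩ π.F B : Set Λ) ≤ κ := by
  have h1 : Al κ (π.G (π.F A ∩ π.F B)) A := by
    rw [π.le_iff]
    exact (π.FG _).trans hκ (Al.of_subset inter_subset_left)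
  have h2 : Al κ (π.G (π.F A ∩ π.F B)) B := by
    rw [π.le_iff]
    exact (π.FG _).trans hκ (Al.of_subset inter_subset_right)
  have h3 : #(π.G (π.F A ∩ π.F B)) ≤ κ := by
    refine sm_mono (t := (π.G (π.F A ∩ π.F B) \ A ∪ π.G (π.F A ∩ π.F B) \ B) ∪ A ∩ B) ?_
      (sm_union hκ (sm_union hκ h1 h2) h)
    intro x hx
    by_cases hA : x ∈ A
    · by_cases hB : x ∈ B
      · exact Or.inr ⟨hA, hB⟩
      · exact Or.inl (Or.inr ⟨hx, hB⟩)
    · exact Or.inl (Or.inl ⟨hx, hA⟩)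
  exact (π.FG' _).small hκ ((π.small_iff hκ _).1 h3)

theorem union_le (A B : Set Λ) : Al κ (π.F (A ∪ B)) (π.F A ∪ π.F B) := by
  let C := π.F (A ∪ B) \ (π.F A ∪ π.F B)
  have hC : Al κ (π.G C) (A ∪ B) := by
    rw [π.le_iff]
    exact (π.FG C).trans hκ (Al.of_subset sdiff_subset)
  have key : ∀ D : Set Λ, π.F D ⊆ π.F A ∪ π.F B → #(π.G C ∩ D : Set Λ) ≤ κ := by
    intro D hD
    rw [π.small_iff hκ]
    have h1 : Al κ (π.F (π.G C ∩ D)) C :=
      ((π.le_iff _ _).1 (Al.of_subset inter_subset_left)).trans hκ (π.FG C)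
    have h2 : Al κ (π.F (π.G C ∩ D)) (π.F D) :=
      (π.le_iff _ _).1 (Al.of_subset inter_subset_right)
    refine sm_mono (t := π.F (π.G C ∩ D) \ C ∪ π.F (π.G C ∩ D) \ π.F D) ?_
      (sm_union hκ h1 h2)
    intro x hx
    by_cases hxC : x ∈ C
    · exact Or.inr ⟨hx, fun h => hxC.2 (hD h)⟩
    · exact Or.inl ⟨hx, hxC⟩
  have h3 : #(π.G C) ≤ κ := by
    refine sm_mono (t := π.G C \ (A ∪ B) ∪ (π.G C ∩ A ∪ π.G C ∩ B)) ?_ (sm_union hκ hC
      (sm_union hκ (key A subset_union_left) (key B subset_union_right)))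
    intro x hx
    by_cases hx' : x ∈ A ∪ B
    · rcases hx' with h | h
      · exact Or.inr (Or.inl ⟨hx, h⟩)
      · exact Or.inr (Or.inr ⟨hx, h⟩)
    · exact Or.inl ⟨hx, hx'⟩
  exact (π.FG' C).small hκ ((π.small_iff hκ _).1 h3)

/-- The inverse automorphism. -/
def symm : Aut κ Λ where
  F := π.G
  G := π.F
  le_iff A B := by
    rw [π.le_iff (π.G A) (π.G B)]
    constructor
    · intro h
      exact ((π.FG A).trans hκ h).trans hκ (π.FG' B)
    · intro h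
      exact ((π.FG' A).trans hκ h).trans hκ (π.FG B)
  FG A := by
    rw [π.le_iff]
    exact π.FG _
  FG' A := by
    rw [π.le_iff]
    exact π.FG' _

end Aut

/-- On the subsets of `X` the automorphism is induced by `e`. -/
def Good (π : Aut κ Λ) (e : Λ → Λ) (X : Set Λ) : Prop :=
  ∀ A ⊆ X, Al κ (π.F A) (e '' A) ∧ Al κ (e '' A) (π.F A)

/-- The automorphism is trivial on `X`. -/
def Tr (π : Aut κ Λ) (X : Set Λ) : Prop := ∃ e : Λ → Λ, Good π e X

/-- The automorphism is trivial on the sets of size `κ⁺`. -/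
def Loc (π : Aut κ Λ) : Prop := ∀ X : Set Λ, #X = Order.succ κ → Tr π X

section Basic

variable (hκ : ℵ₀ ≤ κ) {π : Aut κ Λ} {e e' : Λ → Λ} {X Y : Set Λ}

theorem Good.mono (h : Good π e X) (hY : Y ⊆ X) : Good π e Y := fun A hA => h A (hA.trans hY)

include hκ

theorem Good.small (h : Good π e X) {D : Set Λ} (hD : D ⊆ X) (h1 : #(e '' D) ≤ κ) :
    #D ≤ κ := by
  rw [π.small_iff hκ]
  exact (h D hD).1.small hκ h1

/-- Points of `X` are sent to the right side of every set. -/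
theorem Good.side (h : Good π e X) (A : Set Λ) : #{x ∈ X | ¬ (x ∈ A ↔ e x ∈ π.F A)} ≤ κ := by
  have h1 : #{x ∈ X | x ∈ A ∧ e x ∉ π.F A} ≤ κ := by
    refine h.small hκ (fun x hx => hx.1) ?_
    have h2 : Al κ (e '' (X ∩ A)) (π.F A) := (h _ inter_subset_left).2.trans hκ
      ((π.le_iff _ _).1 (Al.of_subset inter_subset_right))
    refine sm_mono ?_ h2
    rintro _ ⟨x, hx, rfl⟩
    exact ⟨⟨x, ⟨hx.1, hx.2.1⟩, rfl⟩, hx.2.2⟩
  have h3 : #{x ∈ X | x ∉ A ∧ e x ∈ π.F A} ≤ κ := by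
    refine h.small hκ (fun x hx => hx.1) ?_
    have h4 : #(π.F {x ∈ X | x ∉ A ∧ e x ∈ π.F A} ∩ π.F A : Set Λ) ≤ κ := by
      refine π.disj hκ ?_
      have : ({x ∈ X | x ∉ A ∧ e x ∈ π.F A} ∩ A : Set Λ) = ∅ := by
        ext x
        simp only [mem_inter_iff, mem_ofPred_eq, mem_empty_iff_false, iff_false]
        tauto
      rw [this]
      exact sm_empty
    have h5 := (h {x ∈ X | x ∉ A ∧ e x ∈ π.F A} (fun x hx => hx.1)).2
    refine sm_mono (t := (e '' {x ∈ X | x ∉ A ∧ e x ∈ π.F A}) \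
      π.F {x ∈ X | x ∉ A ∧ e x ∈ π.F A} ∪ (π.F {x ∈ X | x ∉ A ∧ e x ∈ π.F A} ∩ π.F A)) ?_
      (sm_union hκ h5 h4)
    intro y hy
    by_cases hyF : y ∈ π.F {x ∈ X | x ∉ A ∧ e x ∈ π.F A}
    · refine Or.inr ⟨hyF, ?_⟩
      obtain ⟨x, hx, rfl⟩ := hy
      exact hx.2.2
    · exact Or.inl ⟨hy, hyF⟩
  refine sm_mono ?_ (sm_union hκ h1 h3)
  rintro x ⟨hx, hx'⟩
  by_cases hA : x ∈ A
  · exact Or.inl ⟨hx, hA, fun h => hx' ⟨fun _ => h, fun _ => hA⟩⟩
  · by_cases hF : e x ∈ π.F A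
    · exact Or.inr ⟨hx, hA, hF⟩
    · exact (hx' ⟨fun h => (hA h).elim, fun h => (hF h).elim⟩).elim

/-- Two inducing functions agree up to a small set. -/
theorem Good.uniq (h : Good π e X) (h' : Good π e' X) : #{x ∈ X | e x ≠ e' x} ≤ κ := by
  obtain ⟨E, hE⟩ := zorn_subset
    {E : Set Λ | E ⊆ {x ∈ X | e x ≠ e' x} ∧ ∀ x ∈ E, ∀ y ∈ E, e x ≠ e' y} (by
    intro c hc hchain
    refine ⟨⋃₀ c, ⟨sUnion_subset fun s hs => (hc hs).1, ?_⟩,
      fun s hs => subset_sUnion_of_mem hs⟩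
    rintro x ⟨s, hs, hxs⟩ y ⟨t, ht, hyt⟩
    rcases hchain.total hs ht with h | h
    · exact (hc ht).2 x (h hxs) y hyt
    · exact (hc hs).2 x hxs y (h hyt))
  have hEX : E ⊆ X := fun x hx => (hE.prop.1 hx).1
  have h1 : #E ≤ κ := by
    refine h.small hκ hEX ?_
    have h2 : Al κ (e '' E) (e' '' E) := (h E hEX).2.trans hκ (h' E hEX).1
    refine sm_mono ?_ h2
    rintro _ ⟨x, hx, rfl⟩
    refine ⟨⟨x, hx, rfl⟩, ?_⟩
    rintro ⟨y, hy, hxy⟩
    exact hE.prop.2 x hx y hy hxy.symm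
  have h2 : #{x ∈ X | e x ∈ e' '' E} ≤ κ := by
    refine h.small hκ (fun x hx => hx.1) (sm_mono ?_ (sm_image e' h1))
    rintro _ ⟨x, hx, rfl⟩
    exact hx.2
  have h3 : #{x ∈ X | e' x ∈ e '' E} ≤ κ := by
    refine h'.small hκ (fun x hx => hx.1) (sm_mono ?_ (sm_image e h1))
    rintro _ ⟨x, hx, rfl⟩
    exact hx.2
  refine sm_mono ?_ (sm_union hκ h1 (sm_union hκ h2 h3))
  rintro x ⟨hx, hne⟩
  by_cases hxE : x ∈ E
  · exact Or.inl hxE
  · by_contra hcon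
    simp only [mem_union, mem_ofPred_eq, not_or, not_and] at hcon
    refine hxE (hE.le_of_ge (y := insert x E) ⟨insert_subset ⟨hx, hne⟩ hE.prop.1, ?_⟩
      (subset_insert x E) (mem_insert x E))
    rintro y (rfl | hy) z (rfl | hz) heq
    · exact hne heq
    · exact hcon.2.1 hx ⟨z, hz, heq.symm⟩
    · exact hcon.2.2 hx ⟨y, hy, heq⟩
    · exact hE.prop.2 y hy z hz heq

theorem Good.congr (h : Good π e X) (hne : #{x ∈ X | e x ≠ e' x} ≤ κ) : Good π e' X := by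
  intro A hA
  have h1 : #(e '' {x ∈ X | e x ≠ e' x}) ≤ κ := sm_image e hne
  have h2 : #(e' '' {x ∈ X | e x ≠ e' x}) ≤ κ := sm_image e' hne
  have h3 : Al κ (e '' A) (e' '' A) := by
    refine sm_mono ?_ h1
    rintro _ ⟨⟨x, hx, rfl⟩, hx'⟩
    exact ⟨x, ⟨hA hx, fun heq => hx' ⟨x, hx, heq.symm⟩⟩, rfl⟩
  have h4 : Al κ (e' '' A) (e '' A) := by
    refine sm_mono ?_ h2
    rintro _ ⟨⟨x, hx, rfl⟩, hx'⟩
    exact ⟨x, ⟨hA hx, fun heq => hx' ⟨x, hx, heq⟩⟩, rfl⟩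
  exact ⟨(h A hA).1.trans hκ h3, h4.trans hκ (h A hA).2⟩

theorem good_of_small (h : #X ≤ κ) : Good π e X := by
  intro A hA
  have h1 : #A ≤ κ := sm_mono hA h
  exact ⟨Al.of_small ((π.small_iff hκ A).1 h1), Al.of_small (sm_image e h1)⟩

/-- Gluing. -/
theorem Good.glue (h : Good π e X) (h' : Good π e' Y) : Tr π (X ∪ Y) := by
  classical
  refine ⟨fun x => if x ∈ X then e x else e' x, fun A hA => ?_⟩
  have h1 := h (A ∩ X) inter_subset_right
  have h2 := h' (A \ X) (by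
    rintro x ⟨hx, hx'⟩
    exact (hA hx).resolve_left hx')
  have h3 : (fun x => if x ∈ X then e x else e' x) '' A = e '' (A ∩ X) ∪ e' '' (A \ X) := by
    ext y
    constructor
    · rintro ⟨x, hx, rfl⟩
      by_cases hxX : x ∈ X
      · exact Or.inl ⟨x, ⟨hx, hxX⟩, (if_pos hxX).symm⟩
      · exact Or.inr ⟨x, ⟨hx, hxX⟩, (if_neg hxX).symm⟩
    · rintro (⟨x, ⟨hx, hxX⟩, rfl⟩ | ⟨x, ⟨hx, hxX⟩, rfl⟩)
      · exact ⟨x, hx, if_pos hxX⟩
      · exact ⟨x, hx, if_neg hxX⟩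
  have h4 : A = (A ∩ X) ∪ (A \ X) := (inter_union_sdiff A X).symm
  rw [h3]
  constructor
  · have h5 := π.union_le hκ (A ∩ X) (A \ X)
    rw [← h4] at h5
    exact h5.trans hκ (Al.union hκ (h1.1.mono subset_rfl subset_union_left)
      (h2.1.mono subset_rfl subset_union_right))
  · exact Al.union hκ (h1.2.trans hκ ((π.le_iff _ _).1 (Al.of_subset inter_subset_left)))
      (h2.2.trans hκ ((π.le_iff _ _).1 (Al.of_subset sdiff_subset)))

end Basic

/-- Subsets of size `κ⁺` of large sets. -/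
theorem exists_sub {C : Set Λ} (h : ¬ #C ≤ κ) : ∃ D ⊆ C, #D = Order.succ κ :=
  Cardinal.le_mk_iff_exists_subset.1 (Order.succ_le_of_lt (not_le.1 h))

theorem not_small_of {D : Set Λ} (h : #D = Order.succ κ) : ¬ #D ≤ κ := by
  rw [h]
  exact not_le.2 (Order.lt_succ κ)

section Local

variable (hκ : ℵ₀ ≤ κ) {π : Aut κ Λ} {e e' : Λ → Λ} {X Y : Set Λ}

include hκ

/-- From the small subsets to the whole set. -/
theorem good_of_local (h : ∀ Y ⊆ X, #Y = Order.succ κ → Good π e Y) : Good π e X := by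
  intro A hA
  constructor
  · by_contra hcon
    let C := π.F A \ e '' A
    have hC : ¬ #C ≤ κ := hcon
    have h1 : Al κ (π.G C) A := by
      rw [π.le_iff]
      exact (π.FG C).trans hκ (Al.of_subset sdiff_subset)
    have h2 : ¬ #(π.G C) ≤ κ := fun h => hC ((π.FG' C).small hκ ((π.small_iff hκ _).1 h))
    have h3 : ¬ #(π.G C ∩ A : Set Λ) ≤ κ := by
      intro h
      refine h2 (sm_mono (t := π.G C \ A ∪ π.G C ∩ A) ?_ (sm_union hκ h1 h))
      intro x hx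
      by_cases hxA : x ∈ A
      · exact Or.inr ⟨hx, hxA⟩
      · exact Or.inl ⟨hx, hxA⟩
    obtain ⟨Y, hY, hY'⟩ := exists_sub h3
    have hYX : Y ⊆ X := fun x hx => hA (hY hx).2
    have h4 := h Y hYX hY'
    apply not_small_of hY'
    refine h4.small hκ subset_rfl ?_
    have h5 : Al κ (e '' Y) C := ((h4 Y subset_rfl).2.trans hκ
      ((π.le_iff _ _).1 (Al.of_subset fun x hx => (hY hx).1))).trans hκ (π.FG C)
    refine sm_mono ?_ h5
    rintro _ ⟨x, hx, rfl⟩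
    exact ⟨⟨x, hx, rfl⟩, fun h => h.2 ⟨x, (hY hx).2, rfl⟩⟩
  · by_contra hcon
    obtain ⟨C, hC, hC'⟩ := exists_sub hcon
    choose! s hs hs' using fun y (hy : y ∈ C) => (hC hy).1
    have hinj : Set.InjOn s C := by
      intro y hy z hz heq
      rw [← hs' y hy, ← hs' z hz, heq]
    have h1 : #(s '' C) = Order.succ κ := by
      rw [Cardinal.mk_image_eq_of_injOn _ _ hinj, hC']
    have h2 : s '' C ⊆ A := by
      rintro _ ⟨y, hy, rfl⟩
      exact hs y hy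
    have h3 := h (s '' C) (h2.trans hA) h1
    have h4 : e '' (s '' C) = C := by
      rw [Set.image_image]
      ext y
      constructor
      · rintro ⟨z, hz, rfl⟩
        show e (s z) ∈ C
        rw [hs' z hz]
        exact hz
      · intro hy
        exact ⟨y, hy, hs' y hy⟩
    have h5 : Al κ C (π.F A) := by
      have h6 := (h3 _ subset_rfl).2
      rw [h4] at h6
      exact h6.trans hκ ((π.le_iff _ _).1 (Al.of_subset h2))
    apply not_small_of hC'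
    refine sm_mono ?_ h5
    intro y hy
    exact ⟨hy, (hC hy).2⟩

/-- Every large set contains an image of a set of size `κ⁺`. -/
theorem exists_image (hπ : Loc π) {C : Set Λ} (hC : ¬ #C ≤ κ) :
    ∃ (Y : Set Λ) (e : Λ → Λ), #Y = Order.succ κ ∧ Good π e Y ∧ (∀ x ∈ Y, e x ∈ C) ∧
      Y ⊆ π.G C := by
  have h2 : ¬ #(π.G C) ≤ κ := fun h => hC ((π.FG' C).small hκ ((π.small_iff hκ _).1 h))
  obtain ⟨Y₀, hY₀, hY₀'⟩ := exists_sub h2
  obtain ⟨e, he⟩ := hπ Y₀ hY₀'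
  have h3 : Al κ (e '' Y₀) C := ((he Y₀ subset_rfl).2.trans hκ
      ((π.le_iff _ _).1 (Al.of_subset hY₀))).trans hκ (π.FG C)
  have h4 : #{x ∈ Y₀ | e x ∉ C} ≤ κ := by
    refine he.small hκ (fun x hx => hx.1) (sm_mono ?_ h3)
    rintro _ ⟨x, hx, rfl⟩
    exact ⟨⟨x, hx.1, rfl⟩, hx.2⟩
  have h5 : ¬ #{x ∈ Y₀ | e x ∈ C} ≤ κ := by
    intro h
    refine not_small_of hY₀' (sm_mono ?_ (sm_union hκ h4 h))
    intro x hx
    by_cases hxC : e x ∈ C
    · exact Or.inr ⟨hx, hxC⟩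
    · exact Or.inl ⟨hx, hxC⟩
  obtain ⟨Y, hY, hY'⟩ := exists_sub h5
  exact ⟨Y, e, hY', he.mono fun x hx => (hY hx).1, fun x hx => (hY hx).2,
    fun x hx => hY₀ (hY hx).1⟩

theorem Loc.le (hπ : Loc π) {X : Set Λ} (h : #X ≤ Order.succ κ) : Tr π X := by
  rcases h.lt_or_eq with h1 | h1
  · exact ⟨id, good_of_small hκ (Order.lt_succ_iff.1 h1)⟩
  · exact hπ X h1

end Local

end Pool.Agent.W869.AU
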