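import Pool.Agent.W869.AU.Glob

/-!
# Respected functions, the inverse automorphism, and disjoint families
-/

set_option autoImplicit false
set_option linter.unusedSectionVars false
set_option linter.unusedVariables false
set_option linter.style.haveILetI false

universe u

namespace Pool.Agent.W869.AU

open Set
open Cardinal hiding univ

variable {κ : Cardinal.{u}} {Λ : Type u}

section Resp

variable (hκ : ℵ₀ ≤ κ) {π : Aut κ Λ} {e e' : Λ → Λ} {X Y : Set Λ}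

include hκ

/-- The preimages of sets. -/
theorem Good.side' (h : Good π e X) (B : Set Λ) :
    #{x ∈ X | ¬ (x ∈ π.G B ↔ e x ∈ B)} ≤ κ := by
  have h1 := h.side hκ (π.G B)
  have h2 : #{x ∈ X | e x ∈ π.F (π.G B) \ B} ≤ κ := by
    refine h.small hκ (fun x hx => hx.1) (sm_mono ?_ (π.FG B))
    rintro _ ⟨x, hx, rfl⟩
    exact hx.2
  have h3 : #{x ∈ X | e x ∈ B \ π.F (π.G B)} ≤ κ := by
    refine h.small hκ (fun x hx => hx.1) (sm_mono ?_ (π.FG' B))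
    rintro _ ⟨x, hx, rfl⟩
    exact hx.2
  refine sm_mono ?_ (sm_union hκ h1 (sm_union hκ h2 h3))
  rintro x ⟨hx, hx'⟩
  by_cases ha : x ∈ π.G B ↔ e x ∈ π.F (π.G B)
  · by_cases hB : e x ∈ B
    · by_cases hF : e x ∈ π.F (π.G B)
      · exact (hx' ⟨fun _ => hB, fun _ => ha.2 hF⟩).elim
      · exact Or.inr (Or.inr ⟨hx, hB, hF⟩)
    · by_cases hF : e x ∈ π.F (π.G B)
      · exact Or.inr (Or.inl ⟨hx, hF, hB⟩)
      · exact (hx' ⟨fun h => (hF (ha.1 h)).elim, fun h => (hB h).elim⟩).elim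
  · exact Or.inl ⟨hx, ha⟩

/-- Functions with few values are respected. -/
theorem exists_resp (π : Aut κ Λ) {Z : Type u} [Nonempty Z] (hZ : #Z ≤ 2 ^ κ) (f : Λ → Z) :
    ∃ g : Λ → Z, ∀ (e : Λ → Λ) (X : Set Λ), Good π e X → #{x ∈ X | g (e x) ≠ f x} ≤ κ := by
  classical
  let K : Type u := κ.ord.ToType
  have hK : #K = κ := Cardinal.mk_ord_toType κ
  obtain ⟨i⟩ : Nonempty (Z ↪ Set K) := by
    rw [← Cardinal.le_def, Cardinal.mk_set, hK]
    exact hZ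
  let A : K → Set Λ := fun n => {x | n ∈ i (f x)}
  refine ⟨fun y => if h : ∃ z, ∀ n, n ∈ i z ↔ y ∈ π.F (A n) then h.choose
    else Classical.arbitrary Z, fun e X h => ?_⟩
  refine sm_mono (t := ⋃ n, {x ∈ X | ¬ (x ∈ A n ↔ e x ∈ π.F (A n))}) ?_
    (Helper669.KDelta.small_iUnion hκ hK.le _ fun n => h.side hκ (A n))
  rintro x ⟨hx, hx'⟩
  by_contra hcon
  simp only [mem_iUnion, mem_ofPred_eq, not_exists, not_and, not_not] at hcon
  have h1 : ∃ z, ∀ n, n ∈ i z ↔ e x ∈ π.F (A n) := ⟨f x, fun n => hcon n hx⟩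
  apply hx'
  refine (dif_pos h1).trans ?_
  apply i.injective
  ext n
  rw [h1.choose_spec n]
  exact (hcon n hx).symm

/-- The inverse is trivial on the image. -/
theorem tr_symm {Y' : Set Λ} (he : Good π e (π.G Y')) : Tr (π.symm hκ) Y' := by
  classical
  refine ⟨fun y => if h : ∃ x ∈ π.G Y', e x = y then h.choose else y, fun B hB => ?_⟩
  set e' : Λ → Λ := fun y => if h : ∃ x ∈ π.G Y', e x = y then h.choose else y with he'
  have hs : ∀ y, (∃ x ∈ π.G Y', e x = y) → e' y ∈ π.G Y' ∧ e (e' y) = y := by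
    intro y hy
    have : e' y = hy.choose := dif_pos hy
    rw [this]
    exact hy.choose_spec
  have h0 : #(Y' \ e '' π.G Y' : Set Λ) ≤ κ := (π.FG' Y').trans hκ (he _ subset_rfl).1
  let B₁ : Set Λ := {y ∈ B | ∃ x ∈ π.G Y', e x = y}
  have h1 : #(B \ B₁ : Set Λ) ≤ κ := by
    refine sm_mono ?_ h0
    rintro y ⟨hy, hy'⟩
    refine ⟨hB hy, ?_⟩
    rintro ⟨x, hx, hxy⟩
    exact hy' ⟨hy, x, hx, hxy⟩
  let D : Set Λ := e' '' B₁
  have hD : D ⊆ π.G Y' := by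
    rintro _ ⟨y, hy, rfl⟩
    exact (hs y hy.2).1
  have h2 : e '' D = B₁ := by
    ext y
    constructor
    · rintro ⟨_, ⟨z, hz, rfl⟩, rfl⟩
      rw [(hs z hz.2).2]
      exact hz
    · intro hy
      exact ⟨e' y, ⟨y, hy, rfl⟩, (hs y hy.2).2⟩
  have h3 := he D hD
  rw [h2] at h3
  have h4 : Al κ (e' '' B) D := by
    refine sm_mono ?_ (sm_image e' h1)
    rintro _ ⟨⟨y, hy, rfl⟩, hy'⟩
    exact ⟨y, ⟨hy, fun h => hy' ⟨y, h, rfl⟩⟩, rfl⟩
  have h5 : Al κ D (e' '' B) := Al.of_subset (image_mono fun y hy => hy.1)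
  show Al κ (π.G B) (e' '' B) ∧ Al κ (e' '' B) (π.G B)
  constructor
  · refine Al.trans hκ ?_ h5
    rw [π.le_iff]
    exact ((π.FG B).trans hκ h1).trans hκ h3.2
  · refine Al.trans hκ h4 ?_
    rw [π.le_iff]
    exact (h3.1.trans hκ (Al.of_subset fun y hy => hy.1)).trans hκ (π.FG' B)

theorem loc_symm (hπ : Loc π) : Loc (π.symm hκ) := by
  intro Y' hY'
  suffices h : #(π.G Y') ≤ Order.succ κ by
    obtain ⟨e, he⟩ := hπ.le hκ h
    exact tr_symm hκ he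
  classical
  let K : Type u := κ.ord.ToType
  have hK : #K = κ := Cardinal.mk_ord_toType κ
  obtain ⟨i⟩ : Nonempty (Y' ↪ Set K) := by
    rw [← Cardinal.le_def, Cardinal.mk_set, hK, hY']
    exact Order.succ_le_of_lt (Cardinal.cantor κ)
  let C : K → Set Λ := fun n => {y | ∃ h : y ∈ Y', n ∈ i ⟨y, h⟩}
  let j : Λ → Set K := fun x => {n | x ∈ π.G (C n)}
  have key : ∀ (Y : Set Λ) (e : Λ → Λ), Y ⊆ π.G Y' → Good π e Y →
      #{x ∈ Y | ¬ ∃ h : e x ∈ Y', i ⟨e x, h⟩ = j x} ≤ κ := by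
    intro Y e hY he
    refine sm_mono ?_ (sm_union hκ (he.side' hκ Y')
      (Helper669.KDelta.small_iUnion hκ hK.le _ fun n => he.side' hκ (C n)))
    rintro x ⟨hx, hx'⟩
    by_cases h1 : e x ∈ Y'
    · refine Or.inr ?_
      by_contra hcon
      simp only [mem_iUnion, mem_ofPred_eq, not_exists, not_and, not_not] at hcon
      refine hx' ⟨h1, ?_⟩
      ext n
      show n ∈ i ⟨e x, h1⟩ ↔ x ∈ π.G (C n)
      rw [hcon n hx]
      exact ⟨fun h => ⟨h1, h⟩, fun ⟨_, h⟩ => h⟩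
    · exact Or.inl ⟨hx, fun h => h1 (h.1 (hY hx))⟩
  have hrest : #{x ∈ π.G Y' | ¬ ∃ y, i y = j x} ≤ κ := by
    by_contra hcon
    obtain ⟨Y, hY, hYc⟩ := exists_sub hcon
    obtain ⟨e, he⟩ := hπ Y hYc
    apply not_small_of hYc
    refine sm_mono ?_ (key Y e (fun x hx => (hY hx).1) he)
    intro x hx
    exact ⟨hx, fun ⟨h, h'⟩ => (hY hx).2 ⟨_, h'⟩⟩
  have hfib : ∀ y : Y', #{x ∈ π.G Y' | i y = j x} ≤ κ := by
    intro y
    by_contra hcon
    obtain ⟨Y, hY, hYc⟩ := exists_sub hcon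
    obtain ⟨e, he⟩ := hπ Y hYc
    apply not_small_of hYc
    have h1 : #{x ∈ Y | e x = y.1} ≤ κ := by
      refine he.small hκ (fun x hx => hx.1) (sm_mono (t := {y.1}) ?_ ?_)
      · rintro _ ⟨x, hx, rfl⟩
        exact hx.2
      · rw [Cardinal.mk_singleton]
        exact (Cardinal.one_lt_aleph0).le.trans hκ
    refine sm_mono ?_ (sm_union hκ h1 (key Y e (fun x hx => (hY hx).1) he))
    intro x hx
    by_cases hx' : ∃ h : e x ∈ Y', i ⟨e x, h⟩ = j x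
    · obtain ⟨h, h'⟩ := hx'
      have h2 : (⟨e x, h⟩ : Y') = y := i.injective (h'.trans (hY hx).2.symm)
      exact Or.inl ⟨hx, congrArg Subtype.val h2⟩
    · exact Or.inr ⟨hx, hx'⟩
  have hs : ℵ₀ ≤ Order.succ κ := hκ.trans (Order.le_succ κ)
  refine (Cardinal.mk_le_mk_of_subset (t := {x ∈ π.G Y' | ¬ ∃ y, i y = j x} ∪
    ⋃ y : Y', {x ∈ π.G Y' | i y = j x}) ?_).trans (Helper669.KDelta.small_union hs
      (hrest.trans (Order.le_succ κ)) (Helper669.KDelta.small_iUnion hs hY'.le _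
        fun y => (hfib y).trans (Order.le_succ κ)))
  intro x hx
  by_cases hx' : ∃ y, i y = j x
  · obtain ⟨y, hy⟩ := hx'
    exact Or.inr (mem_iUnion.2 ⟨y, hx, hy⟩)
  · exact Or.inl ⟨hx, hx'⟩

theorem card_G {Y' : Set Λ} (h : Tr (π.symm hκ) Y') : #(π.G Y') ≤ #Y' + κ := by
  obtain ⟨e, he⟩ := h
  have h1 : #(π.G Y' \ e '' Y' : Set Λ) ≤ κ := (he Y' subset_rfl).1
  have h2 : π.G Y' ⊆ e '' Y' ∪ π.G Y' \ e '' Y' := by
    intro x hx
    by_cases h : x ∈ e '' Y'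
    · exact Or.inl h
    · exact Or.inr ⟨hx, h⟩
  exact (Cardinal.mk_le_mk_of_subset h2).trans ((Cardinal.mk_union_le _ _).trans
    (add_le_add Cardinal.mk_image_le h1))

end Resp

/-! ### Disjoint families -/

/-- Maximal disjoint families of subsets of `X` with the property `Q`. -/
theorem exists_family (Q : Set Λ → Prop) (X : Set Λ) (hQ : ∀ Y, Q Y → Y.Nonempty) :
    ∃ S : Set (Set Λ), (∀ Y ∈ S, Y ⊆ X ∧ Q Y) ∧
      (∀ Y ∈ S, ∀ Y' ∈ S, Y ≠ Y' → Disjoint Y Y') ∧ ∀ Y, Q Y → Y ⊆ X \ ⋃₀ S → False := by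
  obtain ⟨S, hS⟩ := zorn_subset
    {S : Set (Set Λ) | (∀ Y ∈ S, Y ⊆ X ∧ Q Y) ∧ S.Pairwise Disjoint} (by
    intro c hc hchain
    refine ⟨⋃₀ c, ⟨?_, ?_⟩, fun s hs => subset_sUnion_of_mem hs⟩
    · rintro Y ⟨s, hs, hY⟩
      exact (hc hs).1 Y hY
    · exact (pairwise_sUnion hchain.directedOn).2 fun s hs => (hc hs).2)
  refine ⟨S, hS.prop.1, fun Y hY Y' hY' hne => hS.prop.2 hY hY' hne, fun Y hY hYX => ?_⟩
  have hd : ∀ Y' ∈ S, Disjoint Y Y' := fun Y' hY' => Set.disjoint_left.2 fun x hx hx' =>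
    (hYX hx).2 ⟨Y', hY', hx'⟩
  have h1 : Y ∈ S := by
    refine hS.le_of_ge (y := insert Y S) ⟨?_, ?_⟩ (subset_insert Y S) (mem_insert Y S)
    · rintro Y' (rfl | hY')
      · exact ⟨fun x hx => (hYX hx).1, hY⟩
      · exact hS.prop.1 Y' hY'
    · rw [pairwise_insert]
      exact ⟨hS.prop.2, fun Y' hY' _ => ⟨hd Y' hY', (hd Y' hY').symm⟩⟩
  obtain ⟨x, hx⟩ := hQ Y hY
  exact Set.disjoint_left.1 (hd Y h1) hx hx

/-- A disjoint family of sets meeting `U` has at most `|U|` members. -/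
theorem card_family {S : Set (Set Λ)} {U : Set Λ}
    (hd : ∀ Y ∈ S, ∀ Y' ∈ S, Y ≠ Y' → Disjoint Y Y') (hU : ∀ Y ∈ S, (Y ∩ U).Nonempty) :
    #S ≤ #U := by
  choose f hf using fun Y : S => hU Y.1 Y.2
  refine Cardinal.mk_le_of_injective (f := fun Y : S => (⟨f Y, (hf Y).2⟩ : U)) ?_
  intro Y Y' heq
  by_contra hne
  have h1 : f Y = f Y' := congrArg Subtype.val heq
  exact Set.disjoint_left.1 (hd Y.1 Y.2 Y'.1 Y'.2 fun h => hne (Subtype.ext h)) (hf Y).1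
    (h1 ▸ (hf Y').1)

theorem card_sUnion {S : Set (Set Λ)} {c : Cardinal.{u}} (hc : ∀ Y ∈ S, #Y ≤ c) :
    #(⋃₀ S : Set Λ) ≤ #S * c := by
  rw [sUnion_eq_iUnion]
  refine (Cardinal.mk_iUnion_le _).trans ?_
  have h1 : (⨆ Y : S, #(Y.1 : Set Λ)) ≤ c := ciSup_le' fun Y => hc Y.1 Y.2
  exact mul_le_mul_right h1 _

end Pool.Agent.W869.AU
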