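import Pool.Agent.W869.AU.Glob2

/-!
# Bad sets, and the singular case
-/

set_option autoImplicit false
set_option linter.unusedSectionVars false
set_option linter.unusedVariables false
set_option linter.style.haveILetI false

universe u

namespace Pool.Agent.W869.AU

open Set
open Cardinal hiding univ

variable {κ : Cardinal.{u}} {Λ : Type u}

/-- The coordinates of a point of the image. -/
def Sc {M : Type u} (π : Aut κ Λ) (T : Λ → Set M) (y : Λ) : Set M :=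
  {ν | y ∈ π.F {x | ν ∈ T x}}

/-- Sets of size `κ⁺` on which the automorphism is induced by a function with property `P`. -/
def BadP (π : Aut κ Λ) (P : Λ → Λ → Prop) (Y : Set Λ) : Prop :=
  #Y = Order.succ κ ∧ ∃ e : Λ → Λ, Good π e Y ∧ ∀ x ∈ Y, P x (e x)

section

variable (hκ : ℵ₀ ≤ κ) {π : Aut κ Λ} {e e' : Λ → Λ} {X Y : Set Λ} {P : Λ → Λ → Prop}

include hκ

theorem BadP.nonempty (h : BadP π P Y) : Y.Nonempty := by
  by_contra hcon
  rw [not_nonempty_iff_eq_empty] at hcon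
  apply not_small_of h.1
  rw [hcon]
  exact sm_empty

theorem few_bad (h : ∀ Y ⊆ X, ¬ BadP π P Y) (he : Good π e X) : #{x ∈ X | P x (e x)} ≤ κ := by
  by_contra hcon
  obtain ⟨Y, hY, hYc⟩ := exists_sub hcon
  exact h Y (fun x hx => (hY hx).1) ⟨hYc, e, he.mono fun x hx => (hY hx).1,
    fun x hx => (hY hx).2⟩

/-- On a set of size `κ⁺` two inducing functions agree somewhere outside of a small set. -/
theorem exists_eq {D : Set Λ} (hY : #Y = Order.succ κ) (he : Good π e Y) (he' : Good π e' Y)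
    (hD : #D ≤ κ) : ∃ x ∈ Y, x ∉ D ∧ e x = e' x := by
  by_contra hcon
  push Not at hcon
  refine not_small_of hY (sm_mono ?_ (sm_union hκ hD (he.uniq hκ he')))
  intro x hx
  by_cases hxD : x ∈ D
  · exact Or.inl hxD
  · exact Or.inr ⟨hx, hcon x hx hxD⟩

theorem exists_not_mem {D : Set Λ} (hY : #Y = Order.succ κ) (hD : #{x ∈ Y | x ∈ D} ≤ κ) :
    ∃ x ∈ Y, x ∉ D := by
  by_contra hcon
  push Not at hcon
  refine not_small_of hY (sm_mono ?_ hD)
  intro x hx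
  exact ⟨hx, hcon x hx⟩

/-- A common inducing function of a disjoint family. -/
theorem family_fun {S : Set (Set Λ)}
    (hd : ∀ Y ∈ S, ∀ Y' ∈ S, Y ≠ Y' → Disjoint Y Y') (h : ∀ Y ∈ S, BadP π P Y) :
    ∃ E : Λ → Λ, ∀ Y ∈ S, Good π E Y ∧ ∀ x ∈ Y, P x (E x) := by
  classical
  have h' : ∀ Y : Set Λ, ∃ e : Λ → Λ, Y ∈ S → Good π e Y ∧ ∀ x ∈ Y, P x (e x) := by
    intro Y
    by_cases hY : Y ∈ S
    · obtain ⟨e, he⟩ := (h Y hY).2
      exact ⟨e, fun _ => he⟩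
    · exact ⟨id, fun h => (hY h).elim⟩
  choose e he using h'
  refine ⟨fun x => if h : ∃ Y ∈ S, x ∈ Y then e h.choose x else x, fun Y hY => ?_⟩
  have key : ∀ x ∈ Y, (if h : ∃ Y ∈ S, x ∈ Y then e h.choose x else x) = e Y x := by
    intro x hx
    have h1 : ∃ Y ∈ S, x ∈ Y := ⟨Y, hY, hx⟩
    rw [dif_pos h1]
    congr 1
    by_contra hne
    exact Set.disjoint_left.1 (hd _ h1.choose_spec.1 _ hY hne) h1.choose_spec.2 hx
  constructor
  · refine (he Y hY).1.congr hκ ?_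
    refine sm_mono (t := ∅) ?_ sm_empty
    rintro x ⟨hx, hx'⟩
    exact hx' (key x hx).symm
  · intro x hx
    show P x (if h : ∃ Y ∈ S, x ∈ Y then e h.choose x else x)
    rw [key x hx]
    exact (he Y hY).2 x hx

/-- The final thread. -/
theorem final_thread {M : Type u} (T : Λ → Set M) (hπ : Loc π) (hT : InjOn T X)
    (h : ∀ Y ⊆ X, ¬ BadP π (fun x y => Sc π T y ≠ T x) Y) : Tr π X := by
  classical
  let e : Λ → Λ := fun x => if h : ∃ y ∈ π.F X, Sc π T y = T x then h.choose else x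
  have hspec : ∀ x, (∃ y ∈ π.F X, Sc π T y = T x) → e x ∈ π.F X ∧ Sc π T (e x) = T x := by
    intro x hx
    have h1 : e x = hx.choose := dif_pos hx
    rw [h1]
    exact hx.choose_spec
  refine ⟨e, good_of_local hκ fun Y hYX hY => ?_⟩
  obtain ⟨e₁, he₁⟩ := hπ Y hY
  refine he₁.congr hκ ?_
  by_contra hcon
  have hD1 : #{x ∈ Y | Sc π T (e₁ x) ≠ T x} ≤ κ :=
    few_bad hκ (P := fun x y => Sc π T y ≠ T x) (fun Y' hY' => h Y' (hY'.trans hYX)) he₁
  have hD2 := he₁.side hκ X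
  have hrest : ¬ #{x ∈ Y | e₁ x ≠ e x ∧ Sc π T (e₁ x) = T x ∧ e₁ x ∈ π.F X} ≤ κ := by
    intro h'
    refine hcon (sm_mono ?_ (sm_union hκ h' (sm_union hκ hD1 hD2)))
    rintro x ⟨hx, hne⟩
    by_cases h1 : Sc π T (e₁ x) = T x
    · by_cases h2 : e₁ x ∈ π.F X
      · exact Or.inl ⟨hx, hne, h1, h2⟩
      · exact Or.inr (Or.inr ⟨hx, fun h3 => h2 (h3.1 (hYX hx))⟩)
    · exact Or.inr (Or.inl ⟨hx, h1⟩)
  obtain ⟨Y', hY', hYc⟩ := exists_sub hrest
  have hcand : ∀ x ∈ Y', e x ∈ π.F X ∧ Sc π T (e x) = T x := fun x hx =>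
    hspec x ⟨e₁ x, (hY' hx).2.2.2, (hY' hx).2.2.1⟩
  have hYX' : Y' ⊆ X := fun x hx => hYX (hY' hx).1
  have hinj : InjOn e Y' := by
    intro x hx y hy hxy
    apply hT (hYX' hx) (hYX' hy)
    rw [← (hcand x hx).2, ← (hcand y hy).2, hxy]
  have hC : ¬ #(e '' Y') ≤ κ := by
    rw [Cardinal.mk_image_eq_of_injOn _ _ hinj]
    exact not_small_of hYc
  obtain ⟨W, e₀, hW, he₀, hWC, -⟩ := exists_image hκ hπ hC
  have h1 := he₀.side hκ X
  let W₁ : Set Λ := {w ∈ W | w ∈ X}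
  have h2 : #{w ∈ W₁ | Sc π T (e₀ w) ≠ T w} ≤ κ :=
    few_bad hκ (P := fun x y => Sc π T y ≠ T x) (fun Y' hY' => h Y' (hY'.trans fun w hw => hw.2))
      (he₀.mono fun w hw => hw.1)
  have h3 : #{w ∈ W | ¬ (w ∈ Y' ∧ e₀ w = e w)} ≤ κ := by
    refine sm_mono ?_ (sm_union hκ h1 h2)
    rintro w ⟨hw, hw'⟩
    obtain ⟨x, hx, hxw⟩ := hWC w hw
    have h4 : e₀ w ∈ π.F X := hxw ▸ (hcand x hx).1
    by_cases hwX : w ∈ X
    · by_cases h5 : Sc π T (e₀ w) = T w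
      · have h6 : x = w := by
          apply hT (hYX' hx) hwX
          rw [← (hcand x hx).2, hxw, h5]
        subst h6
        exact (hw' ⟨hx, hxw.symm⟩).elim
      · exact Or.inr ⟨⟨hw, hwX⟩, h5⟩
    · exact Or.inl ⟨hw, fun h => hwX (h.2 h4)⟩
  let W₂ : Set Λ := {w ∈ W | w ∈ Y' ∧ e₀ w = e w}
  have h4 : ¬ #W₂ ≤ κ := by
    intro h5
    refine not_small_of hW (sm_mono ?_ (sm_union hκ h3 h5))
    intro w hw
    by_cases h6 : w ∈ Y' ∧ e₀ w = e w
    · exact Or.inr ⟨hw, h6⟩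
    · exact Or.inl ⟨hw, h6⟩
  have h5 : Good π e₀ W₂ := he₀.mono fun w hw => hw.1
  have h6 : Good π e₁ W₂ := he₁.mono fun w hw => (hY' hw.2.1).1
  apply h4
  refine sm_mono ?_ (h5.uniq hκ h6)
  intro w hw
  refine ⟨hw, ?_⟩
  rw [hw.2.2]
  exact (hY' hw.2.1).2.1.symm

/-- Removing a set on which the automorphism is trivial. -/
theorem Tr.of_remove {N : Set Λ} (h : Tr π (X \ N)) (hN : Tr π N) : Tr π X := by
  obtain ⟨e, he⟩ := h
  obtain ⟨e', he'⟩ := hN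
  obtain ⟨e'', he''⟩ := he.glue hκ he'
  refine ⟨e'', he''.mono fun x hx => ?_⟩
  by_cases hxN : x ∈ N
  · exact Or.inr hxN
  · exact Or.inl ⟨hx, hxN⟩

end

end Pool.Agent.W869.AU
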