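import Pool.Agent.W869.AU.Glob3

/-!
# The singular case
-/

set_option autoImplicit false
set_option linter.unusedSectionVars false
set_option linter.unusedVariables false
set_option linter.style.haveILetI false

universe u

namespace Pool.Agent.W869.AU

open Set
open Cardinal hiding univ

variable {κ : Cardinal.{u}} {Λ : Type u}

theorem iUnion_le' {A J : Type u} {c : Cardinal.{u}} (s : J → Set A) (h : ∀ j, #(s j) ≤ c) :
    #(⋃ j, s j) ≤ #J * c := by
  refine (Cardinal.mk_iUnion_le _).trans ?_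
  have h1 : (⨆ j, #(s j)) ≤ c := ciSup_le' h
  exact mul_le_mul_right h1 _

/-- A subfamily of given size. -/
theorem exists_subfamily {A : Type u} {S : Set A} {c : Cardinal.{u}} (h : c ≤ #S) :
    ∃ S' ⊆ S, #S' = c := Cardinal.le_mk_iff_exists_subset.1 h

section

variable (hκ : ℵ₀ ≤ κ) {π : Aut κ Λ} {X : Set Λ}

include hκ

theorem singular_case (hπ : Loc π) (hX : (#X).IsSingular) (hk : Order.succ κ < #X)
    (ih : ∀ Y : Set Λ, #Y < #X → Tr π Y) : Tr π X := by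
  classical
  have hinf : ℵ₀ ≤ #X := hX.aleph0_le
  let L : Type u := (#X).ord.ToType
  have hL : #L = #X := Cardinal.mk_ord_toType _
  obtain ⟨φ⟩ : Nonempty (X ≃ L) := Cardinal.eq.1 hL.symm
  obtain ⟨I, hI, hIc⟩ := Order.exists_cof_eq L
  have hI' : #I < #X := by
    rw [hIc, Ordinal.cof_toType]
    exact hX.cof_ord_lt
  let Xi : I → Set Λ := fun i => {x | ∃ h : x ∈ X, φ ⟨x, h⟩ ≤ i.1}
  have hXi : ∀ i, #(Xi i) < #X := by
    intro i
    have h1 : #(Xi i) ≤ #(Iic i.1) := Cardinal.mk_le_of_injective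
      (f := fun x : Xi i => (⟨φ ⟨x.1, x.2.1⟩, x.2.2⟩ : Iic i.1)) (by
        intro x y h
        have h2 := φ.injective (congrArg Subtype.val h)
        exact Subtype.ext (congrArg (fun z : X => z.1) h2))
    have h2 : #(Iic i.1) < #L := Cardinal.mk_Iic_lt i.1 (by
      rw [hL]
      exact (Ordinal.type_toType _).symm) (hL ▸ hinf)
    rw [hL] at h2
    exact h1.trans_lt h2
  have hcov : ∀ x ∈ X, ∃ i, x ∈ Xi i := by
    intro x hx
    obtain ⟨b, hb, hb'⟩ := hI (φ ⟨x, hx⟩)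
    exact ⟨⟨b, hb⟩, hx, hb'⟩
  choose e he using fun i => ih (Xi i) (hXi i)
  have hκX : κ < #X := (Order.lt_succ κ).trans hk
  let D : Set Λ := ⋃ p : I × I, {x ∈ Xi p.1 ∩ Xi p.2 | e p.1 x ≠ e p.2 x}
  have hD : #D < #X := by
    have h1 : #D ≤ #(I × I) * κ := by
      refine iUnion_le' _ fun p => ?_
      have h2 : Good π (e p.1) (Xi p.1 ∩ Xi p.2) := (he p.1).mono inter_subset_left
      have h3 : Good π (e p.2) (Xi p.1 ∩ Xi p.2) := (he p.2).mono inter_subset_right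
      exact h2.uniq hκ h3
    refine h1.trans_lt (Cardinal.mul_lt_of_lt hinf ?_ hκX)
    rw [Cardinal.mk_prod, Cardinal.lift_id]
    exact Cardinal.mul_lt_of_lt hinf hI' hI'
  have hDe : ∀ x, x ∉ D → ∀ i j, x ∈ Xi i → x ∈ Xi j → e i x = e j x := by
    intro x hx i j hi hj
    by_contra hne
    exact hx (mem_iUnion.2 ⟨(i, j), ⟨hi, hj⟩, hne⟩)
  let f : Λ → Λ := fun x => if h : ∃ i, x ∈ Xi i then e h.choose x else x
  have hf : ∀ x, x ∉ D → ∀ i, x ∈ Xi i → f x = e i x := by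
    intro x hx i hi
    have h1 : ∃ i, x ∈ Xi i := ⟨i, hi⟩
    have h2 : f x = e h1.choose x := dif_pos h1
    rw [h2]
    exact hDe x hx _ _ h1.choose_spec hi
  obtain ⟨S, hS, hSd, hSmax⟩ := exists_family (BadP π fun x y => y ≠ f x) (X \ D)
    fun Y hY => hY.nonempty hκ
  let ρ : Cardinal.{u} := max (Order.succ κ) #I
  have hρ : ρ < #X := max_lt hk hI'
  have hρκ : Order.succ κ ≤ ρ := le_max_left _ _
  have hρinf : ℵ₀ ≤ ρ := (hκ.trans (Order.le_succ κ)).trans hρκ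
  have hSc : #S ≤ ρ := by
    by_contra hcon
    obtain ⟨S', hS', hS'c⟩ := exists_subfamily (Order.succ_le_of_lt (not_le.1 hcon))
    have h1 : #(⋃₀ S' : Set Λ) < #X := by
      have h2 : #(⋃₀ S' : Set Λ) ≤ #S' * Order.succ κ :=
        card_sUnion fun Y hY => (hS Y (hS' hY)).2.1.le
      rw [hS'c] at h2
      exact h2.trans_lt (Cardinal.mul_lt_of_lt hinf (hX.isSuccLimit.succ_lt hρ) hk)
    obtain ⟨e', he'⟩ := ih _ h1
    have hSd' : ∀ Y ∈ S', ∀ Y' ∈ S', Y ≠ Y' → Disjoint Y Y' := fun Y hY Y' hY' =>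
      hSd Y (hS' hY) Y' (hS' hY')
    let U : Set Λ := {x ∈ ⋃₀ S' | e' x ≠ f x}
    have hU : #U ≤ ρ := by
      have h2 : U ⊆ ⋃ i : I, {x ∈ ⋃₀ S' ∩ Xi i | e' x ≠ e i x} := by
        rintro x ⟨⟨Y, hY, hx⟩, hne⟩
        have h3 : x ∈ X \ D := (hS Y (hS' hY)).1 hx
        obtain ⟨i, hi⟩ := hcov x h3.1
        refine mem_iUnion.2 ⟨i, ⟨⟨Y, hY, hx⟩, hi⟩, ?_⟩
        rw [← hf x h3.2 i hi]
        exact hne
      have h5 : #(⋃ i : I, {x ∈ ⋃₀ S' ∩ Xi i | e' x ≠ e i x} : Set Λ) ≤ #I * κ := by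
        refine iUnion_le' _ fun i => ?_
        have h6 : Good π e' (⋃₀ S' ∩ Xi i) := he'.mono inter_subset_left
        have h7 : Good π (e i) (⋃₀ S' ∩ Xi i) := (he i).mono inter_subset_right
        exact h6.uniq hκ h7
      have h8 : #I * κ ≤ ρ * ρ :=
        mul_le_mul' (le_max_right (Order.succ κ) #I) ((Order.le_succ κ).trans hρκ)
      rw [Cardinal.mul_eq_self hρinf] at h8
      exact (Cardinal.mk_le_mk_of_subset h2).trans (h5.trans h8)
    have hmeet : ∀ Y ∈ S', (Y ∩ U).Nonempty := by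
      intro Y hY
      obtain ⟨hYX, hYc, e₁, he₁, hne⟩ := hS Y (hS' hY)
      obtain ⟨x, hx, -, heq⟩ := exists_eq hκ (D := ∅) hYc he₁
        (he'.mono (subset_sUnion_of_mem hY)) sm_empty
      exact ⟨x, hx, ⟨Y, hY, hx⟩, heq ▸ hne x hx⟩
    have h4 := (card_family hSd' hmeet).trans hU
    rw [hS'c] at h4
    exact not_le.2 (Order.lt_succ ρ) h4
  have hN : #(D ∪ ⋃₀ S : Set Λ) < #X := by
    refine (Cardinal.mk_union_le _ _).trans_lt (Cardinal.add_lt_of_lt hinf hD ?_)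
    have h9 : #(⋃₀ S : Set Λ) ≤ #S * Order.succ κ := card_sUnion fun Y hY => (hS Y hY).2.1.le
    exact h9.trans_lt (Cardinal.mul_lt_of_lt hinf (hSc.trans_lt hρ) hk)
  refine Tr.of_remove hκ ⟨f, good_of_local hκ fun Y hY hYc => ?_⟩ (ih _ hN)
  obtain ⟨e₁, he₁⟩ := hπ Y hYc
  refine he₁.congr hκ ?_
  refine few_bad hκ (P := fun x y => y ≠ f x) (fun Y' hY' hbad => hSmax Y' hbad ?_) he₁
  intro x hx
  have h5 := hY (hY' hx)
  exact ⟨⟨h5.1, fun h => h5.2 (Or.inl h)⟩, fun h => h5.2 (Or.inr h)⟩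

end

end Pool.Agent.W869.AU
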