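import Pool.Agent.W869.AU.Glob4

/-!
# The regular case with few coordinates
-/

set_option autoImplicit false
set_option linter.unusedSectionVars false
set_option linter.unusedVariables false
set_option linter.style.haveILetI false

universe u

namespace Pool.Agent.W869.AU

open Set
open Cardinal hiding univ

variable {κ : Cardinal.{u}} {Λ : Type u}

section

variable (hκ : ℵ₀ ≤ κ) {π : Aut κ Λ} {X : Set Λ}

include hκ

theorem few_coordinates (hπ : Loc π) {θ : Cardinal.{u}} {X : Set Λ}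
    (hθ : ℵ₀ ≤ θ) (hk : Order.succ κ < θ) (ih : ∀ Y : Set Λ, #Y < θ → Tr π Y)
    (ih' : ∀ Y : Set Λ, #Y < θ → Tr (π.symm hκ) Y)
    {M : Type u} (T : Λ → Set M) (hT : InjOn T X) (hM : #M ≤ 2 ^ κ) (hMθ : #M < θ) :
    Tr π X := by
  classical
  have hκθ : κ < θ := (Order.lt_succ κ).trans hk
  obtain ⟨S, hS, hSd, hSmax⟩ := exists_family (BadP π fun x y => Sc π T y ≠ T x) X
    fun Y hY => hY.nonempty hκ
  obtain ⟨E, hE⟩ := family_fun hκ hSd fun Y hY => (hS Y hY).2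
  have hErr : ∀ Y ∈ S, ∀ x ∈ Y, ∃ ν, ¬ (ν ∈ T x ↔ ν ∈ Sc π T (E x)) := by
    intro Y hY x hx
    by_contra hcon
    push Not at hcon
    exact (hE Y hY).2 x hx (Set.ext fun ν => (hcon ν).symm)
  let f : Λ → Option (M × Bool) := fun x =>
    if h : ∃ ν, ¬ (ν ∈ T x ↔ ν ∈ Sc π T (E x)) then some (h.choose, decide (h.choose ∈ T x))
    else none
  have hf : ∀ Y ∈ S, ∀ x ∈ Y, ∃ ν, ¬ (ν ∈ T x ↔ ν ∈ Sc π T (E x)) ∧
      f x = some (ν, decide (ν ∈ T x)) := by
    intro Y hY x hx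
    have h1 := hErr Y hY x hx
    exact ⟨h1.choose, h1.choose_spec, dif_pos h1⟩
  have hf' : ∀ x ν b, f x = some (ν, b) → (ν ∈ T x ↔ b = true) := by
    intro x ν b hx
    by_cases h : ∃ ν, ¬ (ν ∈ T x ↔ ν ∈ Sc π T (E x))
    · have h1 : f x = some (h.choose, decide (h.choose ∈ T x)) := dif_pos h
      rw [h1, Option.some.injEq, Prod.mk.injEq] at hx
      rw [← hx.2, ← hx.1]
      exact decide_eq_true_iff.symm
    · have h1 : f x = none := dif_neg h
      rw [h1] at hx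
      exact (Option.some_ne_none _ hx.symm).elim
  have h2κ : ℵ₀ ≤ (2 : Cardinal.{u}) ^ κ := hκ.trans (Cardinal.cantor κ).le
  have hZ : #(Option (M × Bool)) ≤ 2 ^ κ := by
    rw [Cardinal.mk_option, Cardinal.mk_prod]
    refine Cardinal.add_le_of_le h2κ (Cardinal.mul_le_of_le h2κ ?_ ?_)
      (Cardinal.one_le_aleph0.trans h2κ)
    · rw [Cardinal.lift_id']
      exact hM
    · rw [Cardinal.mk_bool]
      simp only [Cardinal.lift_ofNat]
      exact (Cardinal.natCast_lt_aleph0 (n := 2)).le.trans h2κ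
  obtain ⟨g, hg⟩ := exists_resp hκ π hZ f
  let K : Set Λ := ⋃ p : M × ULift.{u} Bool,
    {y | g y = some (p.1, p.2.down) ∧ ¬ (p.1 ∈ Sc π T y ↔ p.2.down = true)}
  have hKp : ∀ p : M × ULift.{u} Bool,
      #{y | g y = some (p.1, p.2.down) ∧ ¬ (p.1 ∈ Sc π T y ↔ p.2.down = true)} ≤ κ := by
    intro p
    by_contra hcon
    obtain ⟨Y, e, hYc, he, hYe, -⟩ := exists_image hκ hπ hcon
    obtain ⟨x, hx, hx'⟩ := exists_not_mem hκ
      (D := {x | g (e x) ≠ f x ∨ ¬ (x ∈ {x | p.1 ∈ T x} ↔ e x ∈ π.F {x | p.1 ∈ T x})}) hYc (by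
        refine sm_mono ?_ (sm_union hκ (hg e Y he) (he.side hκ {x | p.1 ∈ T x}))
        rintro x ⟨hx, h | h⟩
        · exact Or.inl ⟨hx, h⟩
        · exact Or.inr ⟨hx, h⟩)
    simp only [mem_ofPred_eq, not_or, not_not] at hx'
    have h1 := hYe x hx
    have h2 := hf' x p.1 p.2.down (hx'.1.symm.trans h1.1)
    exact h1.2 (hx'.2.symm.trans h2)
  have hK : #K < θ := by
    refine (iUnion_le' _ hKp).trans_lt (Cardinal.mul_lt_of_lt hθ ?_ hκθ)
    rw [Cardinal.mk_prod, Cardinal.lift_id, Cardinal.lift_id]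
    refine Cardinal.mul_lt_of_lt hθ hMθ ?_
    rw [Cardinal.mk_uLift, Cardinal.mk_bool]
    simp only [Cardinal.lift_ofNat]
    exact (Cardinal.natCast_lt_aleph0 (n := 2)).trans_le hθ
  have hW : #(π.G K) < θ :=
    (card_G hκ (ih' K hK)).trans_lt (Cardinal.add_lt_of_lt hθ hK hκθ)
  have hmeet : ∀ Y ∈ S, (Y ∩ π.G K).Nonempty := by
    intro Y hY
    by_contra hcon
    obtain ⟨x, hx, hx'⟩ := exists_not_mem hκ
      (D := {x | g (E x) ≠ f x ∨ ¬ (x ∈ π.G K ↔ E x ∈ K)}) (hS Y hY).2.1 (by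
        refine sm_mono ?_ (sm_union hκ (hg E Y (hE Y hY).1) ((hE Y hY).1.side' hκ K))
        rintro x ⟨hx, h | h⟩
        · exact Or.inl ⟨hx, h⟩
        · exact Or.inr ⟨hx, h⟩)
    simp only [mem_ofPred_eq, not_or, not_not] at hx'
    have h1 : E x ∉ K := fun h => hcon ⟨x, hx, hx'.2.2 h⟩
    obtain ⟨ν, hν, hν'⟩ := hf Y hY x hx
    apply h1
    refine mem_iUnion.2 ⟨(ν, ⟨decide (ν ∈ T x)⟩), hx'.1.trans hν', ?_⟩
    intro h2
    apply hν
    rw [h2]
    exact decide_eq_true_iff.symm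
  have hSc : #S < θ := (card_family hSd hmeet).trans_lt hW
  have hN : #(⋃₀ S : Set Λ) < θ := by
    have h9 : #(⋃₀ S : Set Λ) ≤ #S * Order.succ κ := card_sUnion fun Y hY => (hS Y hY).2.1.le
    exact h9.trans_lt (Cardinal.mul_lt_of_lt hθ hSc hk)
  exact Tr.of_remove hκ (final_thread hκ T hπ (hT.mono sdiff_subset)
    fun Y hY hbad => hSmax Y hbad hY) (ih _ hN)

end

end Pool.Agent.W869.AU
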