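import Pool.Agent.W869.AU.Glob5

/-!
# The regular case with many coordinates
-/

set_option autoImplicit false
set_option linter.unusedSectionVars false
set_option linter.unusedVariables false
set_option linter.style.haveILetI false

universe u

namespace Pool.Agent.W869.AU

open Set
open Cardinal hiding univ

variable {κ : Cardinal.{u}} {Λ : Type u}

theorem exists_Iio_ge {L : Type u} [LinearOrder L] [WellFoundedLT L] {c : Cardinal.{u}}
    (h : c < #L) : ∃ m : L, c ≤ #(Iio m) := by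
  have h1 : c.ord < Ordinal.type (α := L) (· < ·) := by
    by_contra hc
    have h2 := Ordinal.card_le_card (not_lt.1 hc)
    rw [Cardinal.card_ord, Ordinal.card_type] at h2
    exact not_lt.2 h2 h
  obtain ⟨m, hm⟩ := Ordinal.typein_surj (α := L) (· < ·) h1
  refine ⟨m, ?_⟩
  have h2 := Ordinal.card_typein (α := L) (r := (· < ·)) m
  rw [hm, Cardinal.card_ord] at h2
  exact h2.le

theorem rank_lemma (hκ : ℵ₀ ≤ κ) {U : Set Λ} {M : Type u} [LinearOrder M] [WellFoundedLT M]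
    (ν : Λ → M) (h : ∀ c, #{x ∈ U | ν x ≤ c} ≤ κ) : #U ≤ Order.succ κ := by
  have hs : ℵ₀ ≤ Order.succ κ := hκ.trans (Order.le_succ κ)
  have hR : #(ν '' U) ≤ Order.succ κ := by
    by_contra hcon
    obtain ⟨m, hm⟩ := exists_Iio_ge (not_le.1 hcon)
    have h1 : #(Iio m) ≤ κ := by
      choose g hg hg' using fun r : Iio m => r.1.2
      refine le_trans ?_ (h m.1)
      refine Cardinal.mk_le_of_injective (f := fun r : Iio m =>
        (⟨g r, hg r, (hg' r).le.trans (le_of_lt r.2)⟩ : {x ∈ U | ν x ≤ m.1})) ?_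
      intro r r' hrr
      have h2 : g r = g r' := congrArg Subtype.val hrr
      apply Subtype.ext
      apply Subtype.ext
      rw [← hg' r, ← hg' r', h2]
    exact not_lt.2 (hm.trans h1) (Order.lt_succ κ)
  have h2 : U ⊆ ⋃ r : ν '' U, {x ∈ U | ν x ≤ r.1} := fun x hx =>
    mem_iUnion.2 ⟨⟨ν x, x, hx, rfl⟩, hx, le_rfl⟩
  have h3 : #(⋃ r : ν '' U, {x ∈ U | ν x ≤ r.1} : Set Λ) ≤ #(ν '' U) * κ :=
    iUnion_le' _ fun r => h r.1
  refine (Cardinal.mk_le_mk_of_subset h2).trans (h3.trans ?_)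
  exact (mul_le_mul' hR (Order.le_succ κ)).trans (Cardinal.mul_eq_self hs).le

section

variable (hκ : ℵ₀ ≤ κ) {π : Aut κ Λ} {X : Set Λ}

include hκ

/-- Sets of size `κ⁺` on which there are errors at bounded coordinates. -/
def BadB {M : Type u} [LinearOrder M] (π : Aut κ Λ) (T : Λ → Set M) (Y : Set Λ) : Prop :=
  #Y = Order.succ κ ∧ ∃ e : Λ → Λ, Good π e Y ∧
    ∃ c : M, ∀ x ∈ Y, ∃ ν ≤ c, ¬ (ν ∈ T x ↔ ν ∈ Sc π T (e x))

theorem bounded_case {θ : Cardinal.{u}} (hθ : θ.IsRegular)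
    (hk : Order.succ (Order.succ κ) < θ) (ih : ∀ Y : Set Λ, #Y < θ → Tr π Y)
    {M : Type u} [LinearOrder M] [WellFoundedLT M] (T : Λ → Set M)
    (hMθ : #M < θ) (hpow : ∀ c : M, 2 ^ #(Iic c) < θ) {S : Set (Set Λ)}
    (hS : ∀ Y ∈ S, BadB π T Y) (hSd : ∀ Y ∈ S, ∀ Y' ∈ S, Y ≠ Y' → Disjoint Y Y') : #S < θ := by
  classical
  have hθ0 := hθ.aleph0_le
  have hs : ℵ₀ ≤ Order.succ κ := hκ.trans (Order.le_succ κ)
  have hk' : Order.succ κ < θ := (Order.lt_succ _).trans hk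
  have hex : ∀ Y : Set Λ, ∃ (e : Λ → Λ) (a : Set M), Y ∈ S → #Y = Order.succ κ ∧ Good π e Y ∧
      (∃ c, a ⊆ Iic c) ∧ #a ≤ Order.succ κ ∧ ∀ x ∈ Y, ∃ ν ∈ a, ¬ (ν ∈ T x ↔ ν ∈ Sc π T (e x)) := by
    intro Y
    by_cases hY : Y ∈ S
    · obtain ⟨hYc, e, he, c, hc⟩ := hS Y hY
      choose ν hν hν' using fun x : Y => hc x.1 x.2
      refine ⟨e, range ν, fun _ => ⟨hYc, he, ⟨c, ?_⟩, ?_, fun x hx => ?_⟩⟩
      · rintro _ ⟨x, rfl⟩
        exact hν x
      · exact Cardinal.mk_range_le.trans hYc.le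
      · exact ⟨ν ⟨x, hx⟩, ⟨_, rfl⟩, hν' ⟨x, hx⟩⟩
    · exact ⟨id, ∅, fun h => (hY h).elim⟩
  choose e a hea using hex
  by_contra hcon
  have hV : #(Σ c : M, Set (Iic c)) < θ := by
    rw [Cardinal.mk_sigma]
    refine Cardinal.sum_lt_of_isRegular hθ hMθ fun c => ?_
    rw [Cardinal.mk_set]
    exact hpow c
  have hR : #(a '' S) < θ := by
    have h1 : a '' S ⊆ range fun p : (Σ c : M, Set (Iic c)) => Subtype.val '' p.2 := by
      rintro _ ⟨Y, hY, rfl⟩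
      obtain ⟨c, hc⟩ := (hea Y hY).2.2.1
      refine ⟨⟨c, {x | x.1 ∈ a Y}⟩, ?_⟩
      ext x
      constructor
      · rintro ⟨y, hy, rfl⟩
        exact hy
      · intro hx
        exact ⟨⟨x, hc hx⟩, hx, rfl⟩
    exact ((Cardinal.mk_le_mk_of_subset h1).trans Cardinal.mk_range_le).trans_lt hV
  obtain ⟨r, hr⟩ : ∃ r, ¬ #{Y ∈ S | a Y = r} ≤ Order.succ κ := by
    by_contra hall
    push Not at hall
    have h2 : S ⊆ ⋃ r : a '' S, {Y ∈ S | a Y = r.1} := fun Y hY =>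
      mem_iUnion.2 ⟨⟨a Y, Y, hY, rfl⟩, hY, rfl⟩
    have h3 : #(⋃ r : a '' S, {Y ∈ S | a Y = r.1} : Set (Set Λ)) ≤ #(a '' S) * Order.succ κ :=
      iUnion_le' _ fun r => hall r.1
    exact hcon (((Cardinal.mk_le_mk_of_subset h2).trans h3).trans_lt
      (Cardinal.mul_lt_of_lt hθ0 hR hk'))
  obtain ⟨S', hS', hS'c⟩ := exists_subfamily (Order.succ_le_of_lt (not_le.1 hr))
  have hYs : #(⋃₀ S' : Set Λ) < θ := by
    have h2 : #(⋃₀ S' : Set Λ) ≤ #S' * Order.succ κ :=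
      card_sUnion fun Y hY => (hea Y (hS' hY).1).1.le
    rw [hS'c] at h2
    exact h2.trans_lt (Cardinal.mul_lt_of_lt hθ0 hk hk')
  obtain ⟨e', he'⟩ := ih _ hYs
  have hne : S'.Nonempty := by
    by_contra hcon
    rw [not_nonempty_iff_eq_empty] at hcon
    rw [hcon, Cardinal.mk_eq_zero] at hS'c
    exact (Order.succ_ne_bot (Order.succ κ)) hS'c.symm
  have hrc : #r ≤ Order.succ κ := by
    obtain ⟨Y, hY⟩ := hne
    rw [← (hS' hY).2]
    exact (hea Y (hS' hY).1).2.2.2.1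
  let U : Set Λ := {x ∈ ⋃₀ S' | ∃ ν ∈ r, ¬ (ν ∈ T x ↔ ν ∈ Sc π T (e' x))}
  have hU : #U ≤ Order.succ κ := by
    have h2 : U ⊆ ⋃ ν : r, {x ∈ ⋃₀ S' | ¬ (x ∈ {x | ν.1 ∈ T x} ↔
        e' x ∈ π.F {x | ν.1 ∈ T x})} := by
      rintro x ⟨hx, ν, hν, hne⟩
      exact mem_iUnion.2 ⟨⟨ν, hν⟩, hx, hne⟩
    have h3 : #(⋃ ν : r, {x ∈ ⋃₀ S' | ¬ (x ∈ {x | ν.1 ∈ T x} ↔
        e' x ∈ π.F {x | ν.1 ∈ T x})} : Set Λ) ≤ #r * κ :=
      iUnion_le' _ fun ν => he'.side hκ _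
    refine (Cardinal.mk_le_mk_of_subset h2).trans (h3.trans ?_)
    exact (mul_le_mul' hrc (Order.le_succ κ)).trans (Cardinal.mul_eq_self hs).le
  have hmeet : ∀ Y ∈ S', (Y ∩ U).Nonempty := by
    intro Y hY
    obtain ⟨hYc, he₁, -, -, hx₁⟩ := hea Y (hS' hY).1
    obtain ⟨x, hx, -, heq⟩ := exists_eq hκ (D := ∅) hYc he₁
      (he'.mono (subset_sUnion_of_mem hY)) sm_empty
    obtain ⟨ν, hν, hν'⟩ := hx₁ x hx
    rw [(hS' hY).2] at hν
    rw [heq] at hν'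
    exact ⟨x, hx, ⟨Y, hY, hx⟩, ν, hν, hν'⟩
  have h4 := (card_family (fun Y hY Y' hY' => hSd Y (hS' hY).1 Y' (hS' hY').1) hmeet).trans hU
  rw [hS'c] at h4
  exact not_le.2 (Order.lt_succ _) h4

theorem many_coordinates (hπ : Loc π) {θ : Cardinal.{u}} {X : Set Λ} (hθ : θ.IsRegular)
    (hk : Order.succ (Order.succ κ) < θ) (ih : ∀ Y : Set Λ, #Y < θ → Tr π Y)
    {M : Type u} [LinearOrder M] [WellFoundedLT M] (T : Λ → Set M) (hT : InjOn T X)
    (hMθ : #M < θ) (hpow : ∀ c : M, 2 ^ #(Iic c) < θ) : Tr π X := by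
  classical
  have hθ0 := hθ.aleph0_le
  have hs : ℵ₀ ≤ Order.succ κ := hκ.trans (Order.le_succ κ)
  have hk' : Order.succ κ < θ := (Order.lt_succ _).trans hk
  obtain ⟨S₁, hS₁, hSd₁, hSmax₁⟩ := exists_family (BadB π T) X (by
    intro Y hY
    by_contra hcon
    rw [not_nonempty_iff_eq_empty] at hcon
    apply not_small_of hY.1
    rw [hcon]
    exact sm_empty)
  have hSc₁ : #S₁ < θ := bounded_case hκ hθ hk ih T hMθ hpow (fun Y hY => (hS₁ Y hY).2) hSd₁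
  have hN₁ : #(⋃₀ S₁ : Set Λ) < θ := by
    have h9 : #(⋃₀ S₁ : Set Λ) ≤ #S₁ * Order.succ κ := card_sUnion fun Y hY => (hS₁ Y hY).2.1.le
    exact h9.trans_lt (Cardinal.mul_lt_of_lt hθ0 hSc₁ hk')
  refine Tr.of_remove hκ (N := ⋃₀ S₁) ?_ (ih _ hN₁)
  obtain ⟨S, hS, hSd, hSmax⟩ := exists_family (BadP π fun x y => Sc π T y ≠ T x) (X \ ⋃₀ S₁)
    fun Y hY => hY.nonempty hκ
  have hSc : #S ≤ Order.succ κ := by
    by_contra hcon
    obtain ⟨S', hS', hS'c⟩ := exists_subfamily (Order.succ_le_of_lt (not_le.1 hcon))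
    have hYs : #(⋃₀ S' : Set Λ) < θ := by
      have h2 : #(⋃₀ S' : Set Λ) ≤ #S' * Order.succ κ :=
        card_sUnion fun Y hY => (hS Y (hS' hY)).2.1.le
      rw [hS'c] at h2
      exact h2.trans_lt (Cardinal.mul_lt_of_lt hθ0 hk hk')
    obtain ⟨e', he'⟩ := ih _ hYs
    let U : Set Λ := {x ∈ ⋃₀ S' | Sc π T (e' x) ≠ T x}
    have hmeet : ∀ Y ∈ S', (Y ∩ U).Nonempty := by
      intro Y hY
      obtain ⟨hYX, hYc, e₁, he₁, hne⟩ := hS Y (hS' hY)
      obtain ⟨x, hx, -, heq⟩ := exists_eq hκ (D := ∅) hYc he₁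
        (he'.mono (subset_sUnion_of_mem hY)) sm_empty
      have h5 := hne x hx
      rw [heq] at h5
      exact ⟨x, hx, ⟨Y, hY, hx⟩, h5⟩
    have h4 := card_family (fun Y hY Y' hY' => hSd Y (hS' hY) Y' (hS' hY')) hmeet
    rw [hS'c] at h4
    have hMn : Nonempty M := by
      by_contra hM
      rw [not_nonempty_iff] at hM
      obtain ⟨x, hx⟩ : U.Nonempty := by
        by_contra hcon
        rw [not_nonempty_iff_eq_empty] at hcon
        rw [hcon, Cardinal.mk_eq_zero] at h4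
        exact (Order.succ_ne_bot (Order.succ κ)) (le_bot_iff.1 h4)
      exact hx.2 (Subsingleton.elim _ _)
    have hex : ∀ x, ∃ ν, x ∈ U → ¬ (ν ∈ T x ↔ ν ∈ Sc π T (e' x)) := by
      intro x
      by_cases hx : x ∈ U
      · by_contra hcon
        push Not at hcon
        exact hx.2 (Set.ext fun ν => ((hcon ν).2).symm)
      · exact ⟨Classical.arbitrary M, fun h => (hx h).elim⟩
    choose ν hν using hex
    obtain ⟨c, hc⟩ : ∃ c, ¬ #{x ∈ U | ν x ≤ c} ≤ κ := by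
      by_contra hall
      push Not at hall
      exact not_le.2 (Order.lt_succ _) (h4.trans (rank_lemma hκ ν hall))
    obtain ⟨Y, hY, hYc⟩ := exists_sub hc
    refine hSmax₁ Y ⟨hYc, e', he'.mono fun x hx => (hY hx).1.1, c, fun x hx =>
      ⟨ν x, (hY hx).2, hν x (hY hx).1⟩⟩ fun x hx => ?_
    obtain ⟨Y', hY', hxY'⟩ := (hY hx).1.1
    exact (hS Y' (hS' hY')).1 hxY'
  have hN : #(⋃₀ S : Set Λ) < θ := by
    have h9 : #(⋃₀ S : Set Λ) ≤ #S * Order.succ κ := card_sUnion fun Y hY => (hS Y hY).2.1.le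
    exact h9.trans_lt (Cardinal.mul_lt_of_lt hθ0 (hSc.trans_lt hk') hk')
  exact Tr.of_remove hκ (final_thread hκ T hπ (hT.mono (sdiff_subset.trans sdiff_subset))
    fun Y hY hbad => hSmax Y hbad hY) (ih _ hN)

end

end Pool.Agent.W869.AU
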