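import Pool.Agent.W869.AU.Glob6

/-!
# The induction
-/

set_option autoImplicit false
set_option linter.unusedSectionVars false
set_option linter.unusedVariables false
set_option linter.style.haveILetI false

universe u

namespace Pool.Agent.W869.AU

open Set
open Cardinal hiding univ

variable {κ : Cardinal.{u}} {Λ : Type u}

theorem regular_case (hκ : ℵ₀ ≤ κ) {π : Aut κ Λ} (hπ : Loc π) {θ : Cardinal.{u}} {X : Set Λ}
    (hX : #X = θ) (hθ : θ.IsRegular) (hk : Order.succ κ < θ) (hno : ¬ θ.IsInaccessible)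
    (ih : ∀ Y : Set Λ, #Y < θ → Tr π Y) (ih' : ∀ Y : Set Λ, #Y < θ → Tr (π.symm hκ) Y) :
    Tr π X := by
  classical
  have hθ0 := hθ.aleph0_le
  have hκθ : κ < θ := (Order.lt_succ κ).trans hk
  have hex : {x : Cardinal.{u} | θ ≤ 2 ^ x}.Nonempty := ⟨θ, (Cardinal.cantor θ).le⟩
  obtain ⟨μ, hμ, hmin⟩ : ∃ μ : Cardinal.{u}, θ ≤ 2 ^ μ ∧ ∀ c < μ, 2 ^ c < θ := by
    refine ⟨wellFounded_lt.min _ hex, wellFounded_lt.min_mem _ hex, fun c hc => ?_⟩
    by_contra hcon
    exact wellFounded_lt.not_lt_min _ (show c ∈ {x : Cardinal.{u} | θ ≤ 2 ^ x} from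
      not_lt.1 hcon) hc
  have hμθ : μ < θ := by
    by_contra hcon
    apply hno
    refine ⟨hκ.trans_lt hκθ, hθ.le_cof_ord, ?_⟩
    intro c hc
    exact hmin c (hc.trans_le (not_lt.1 hcon))
  have hμ0 : ℵ₀ ≤ μ := by
    by_contra hcon
    have h1 : (2 : Cardinal.{u}) ^ μ < ℵ₀ :=
      Cardinal.power_lt_aleph0 Cardinal.ofNat_lt_aleph0 (not_le.1 hcon)
    exact not_lt.2 hμ (h1.trans_le hθ0)
  let M : Type u := μ.ord.ToType
  have hM : #M = μ := Cardinal.mk_ord_toType μ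
  obtain ⟨i⟩ : Nonempty (X ↪ Set M) := by
    rw [← Cardinal.le_def, Cardinal.mk_set, hM, hX]
    exact hμ
  let T : Λ → Set M := fun x => if h : x ∈ X then i ⟨x, h⟩ else ∅
  have hT : InjOn T X := by
    intro x hx y hy hxy
    have h1 : T x = i ⟨x, hx⟩ := dif_pos hx
    have h2 : T y = i ⟨y, hy⟩ := dif_pos hy
    rw [h1, h2] at hxy
    exact congrArg (fun z : X => z.1) (i.injective hxy)
  by_cases hc : μ ≤ 2 ^ κ
  · exact few_coordinates hκ hπ hθ0 hk ih ih' T hT (hM.le.trans hc) (hM.trans_lt hμθ)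
  · have h1 : Order.succ κ < μ := (Order.succ_le_of_lt (Cardinal.cantor κ)).trans_lt (not_le.1 hc)
    refine many_coordinates hκ hπ hθ ((Order.succ_le_of_lt h1).trans_lt hμθ) ih T hT
      (hM.trans_lt hμθ) fun c => hmin _ ?_
    have h2 : #(Iic c) < #M := Cardinal.mk_Iic_lt c (by
      rw [hM]
      exact (Ordinal.type_toType _).symm) (hM ▸ hμ0)
    rwa [hM] at h2

theorem main_induction (hκ : ℵ₀ ≤ κ)
    (hno : ∀ θ : Cardinal.{u}, κ < θ → θ ≤ #Λ → ¬ θ.IsInaccessible) (θ : Cardinal.{u}) :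
    ∀ π : Aut κ Λ, Loc π → ∀ X : Set Λ, #X = θ → Tr π X := by
  induction θ using WellFoundedLT.induction with
  | ind θ IH =>
    intro π hπ X hX
    by_cases hk : θ ≤ Order.succ κ
    · exact hπ.le hκ (hX.le.trans hk)
    · have hk' := not_le.1 hk
      have hκθ : κ < θ := (Order.lt_succ κ).trans hk'
      have ih : ∀ Y : Set Λ, #Y < θ → Tr π Y := fun Y hY => IH _ hY π hπ Y rfl
      have ih' : ∀ Y : Set Λ, #Y < θ → Tr (π.symm hκ) Y := fun Y hY =>
        IH _ hY (π.symm hκ) (loc_symm hκ hπ) Y rfl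
      rcases Cardinal.isRegular_or_isSingular (hκ.trans hκθ.le) with hθ | hθ
      · exact regular_case hκ hπ hX hθ hk' (hno θ hκθ (hX ▸ Cardinal.mk_set_le X)) ih ih'
      · subst hX
        exact singular_case hκ hπ hθ hk' ih

/-- Automorphisms which are trivial on the sets of size `κ⁺` are trivial below the first
inaccessible cardinal. -/
theorem trivial_of_no_inaccessible (hκ : ℵ₀ ≤ κ)
    (hno : ∀ θ : Cardinal.{u}, κ < θ → θ ≤ #Λ → ¬ θ.IsInaccessible) {π : Aut κ Λ}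
    (hπ : Loc π) : Tr π Set.univ :=
  main_induction hκ hno _ π hπ Set.univ rfl

end Pool.Agent.W869.AU
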