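import Pool.Agent.W869.AU.Names

/-!
# The list of all names
-/

set_option autoImplicit false
set_option linter.unusedSectionVars false
set_option linter.unusedVariables false
set_option linter.style.haveILetI false

universe u

namespace Pool.Agent.W869.AU

open Set
open Cardinal hiding univ

/-- The names `τ ζ` list all names consisting of at most `2 ^ |L|` conditions. -/
structure Univ {L M : Type u} [LinearOrder L] [LinearOrder M]
    (τ : M → L → Set (PC L M)) : Prop where
  cof : ∀ X : Set M, #X ≤ 2 ^ #L → ∃ b, ∀ ξ ∈ X, ξ < b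
  list : ∀ N : L → Set (PC L M), (∀ x, #(N x) ≤ 2 ^ #L) → (∀ x, ∀ a ∈ N x, #a.s ≤ #L) →
    ∀ b : M, ∃ ζ, b ≤ ζ ∧ ∀ x, (∀ a ∈ τ ζ x, ∃ a' ∈ N x, Same a a') ∧
      ∀ a ∈ N x, ∃ a' ∈ τ ζ x, Same a a'

theorem exists_gt_of_small {M : Type u} [LinearOrder M] {X : Set M} (h : #X < Order.cof M) :
    ∃ b, ∀ ξ ∈ X, ξ < b := by
  have h1 : ¬ IsCofinal X := fun h2 => (not_lt.2 (Order.cof_le h2)) h
  simp only [IsCofinal] at h1
  push Not at h1
  exact h1

theorem exists_univ {L : Type u} [LinearOrder L] [WellFoundedLT L] [Infinite L] :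
    ∃ (M : Type u) (_ : LinearOrder M) (_ : WellFoundedLT M) (τ : M → L → Set (PC L M)),
      Univ τ := by
  classical
  let c : Cardinal.{u} := 2 ^ #L
  let m : Cardinal.{u} := 2 ^ c
  have hL : ℵ₀ ≤ #L := Cardinal.aleph0_le_mk L
  have hc : ℵ₀ ≤ c := hL.trans (Cardinal.cantor _).le
  have hcm : c ≤ m := (Cardinal.cantor _).le
  have hm : ℵ₀ ≤ m := hc.trans hcm
  have hLc : #L ≤ c := (Cardinal.cantor _).le
  have hmc : m ^ c = m := by
    show (2 ^ c) ^ c = (2 : Cardinal.{u}) ^ c
    rw [← Cardinal.power_mul, Cardinal.mul_eq_self hc]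
  have hmL : m ^ #L ≤ m := by
    refine (Cardinal.power_le_power_left ?_ hLc).trans hmc.le
    exact fun h => (not_le.2 (Cardinal.aleph0_pos)) (h ▸ hm)
  let M : Type u := m.ord.ToType
  have hM : #M = m := Cardinal.mk_ord_toType _
  have hCd : #(Cd L M) ≤ m := mk_Cd hcm hmL hM.le
  let Nm : Type u := L → Set L → Option (Cd L M)
  have hNm : #Nm ≤ m := by
    have h1 : #(Option (Cd L M)) ≤ m := by
      rw [Cardinal.mk_option]
      exact (add_le_add hCd (Cardinal.one_le_aleph0.trans hm)).trans (Cardinal.add_eq_self hm).le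
    have h2 : #(Set L → Option (Cd L M)) ≤ m := by
      rw [← Cardinal.power_def, Cardinal.mk_set]
      exact (Cardinal.power_le_power_right h1).trans hmc.le
    show #(L → Set L → Option (Cd L M)) ≤ m
    rw [← Cardinal.power_def]
    exact (Cardinal.power_le_power_right h2).trans hmL
  have hprod : #(M × Nm) ≤ #M := by
    rw [Cardinal.mk_prod, Cardinal.lift_id, Cardinal.lift_id, hM]
    exact (mul_le_mul_right hNm m).trans (Cardinal.mul_eq_self hm).le
  obtain ⟨j⟩ := hprod
  refine ⟨M, inferInstance, inferInstance,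
    fun ζ x => {b | ∃ (ξ : M) (n : Nm) (k : Set L) (a : Cd L M), j (ξ, n) = ζ ∧
      n x k = some a ∧ b = dcd a}, ?_, ?_⟩
  · intro X hX
    refine exists_gt_of_small (hX.trans_lt ?_)
    have h1 : c < m.ord.cof := Cardinal.lt_cof_ord_power hc Cardinal.one_lt_two
    rwa [← Ordinal.cof_toType] at h1
  · intro N hN hs b
    have hcode : ∀ a : PC L M, ∃ z : Cd L M, #a.s ≤ #L → Same a (dcd z) := by
      intro a
      by_cases h : #a.s ≤ #L
      · obtain ⟨z, hz⟩ := exists_code h
        exact ⟨z, fun _ => hz⟩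
      · exact ⟨(a.h, a.e, fun _ => none, ∅, ∅, ∅), fun h' => (h h').elim⟩
    choose cd hcd using hcode
    have henum : ∀ x, ∃ f : Set L → Option (PC L M), ∀ a, a ∈ N x ↔ ∃ k, f k = some a := by
      intro x
      refine exists_enum (L := Set L) ?_
      rw [Cardinal.mk_set]
      exact hN x
    choose f hf using henum
    let n : Nm := fun x k => (f x k).map cd
    obtain ⟨ξ, hξ⟩ : ∃ ξ : M, b ≤ j (ξ, n) := by
      by_contra hcon
      push Not at hcon
      have h1 : #M ≤ #(Iio b) := Cardinal.mk_le_of_injective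
        (f := fun ξ : M => (⟨j (ξ, n), hcon ξ⟩ : Iio b)) (fun ξ ξ' h => by
          have h2 := j.injective (congrArg Subtype.val h)
          exact (Prod.ext_iff.1 h2).1)
      have h2 : #(Iio b) < m := Cardinal.mk_Iio_toType_ord_lt b
      rw [hM] at h1
      exact (not_lt.2 h1) h2
    refine ⟨j (ξ, n), hξ, fun x => ⟨?_, ?_⟩⟩
    · rintro a ⟨ξ', n', k, z, h1, h2, h3⟩
      have h4 : n' = n := (Prod.ext_iff.1 (j.injective h1)).2
      subst h4
      obtain ⟨p, h5, h6⟩ := Option.map_eq_some_iff.1 h2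
      have h7 : p ∈ N x := (hf x p).2 ⟨k, h5⟩
      refine ⟨p, h7, ?_⟩
      rw [h3, ← h6]
      exact (hcd p (hs x p h7)).symm
    · intro a ha
      obtain ⟨k, hk⟩ := (hf x a).1 ha
      exact ⟨dcd (cd a), ⟨ξ, n, k, cd a, rfl, by simp [n, hk], rfl⟩, hcd a (hs x a ha)⟩

end Pool.Agent.W869.AU
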