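import Pool.Agent.W869.AU.Cond

/-!
# Limits of chains of conditions
-/

set_option autoImplicit false
set_option linter.unusedSectionVars false
set_option linter.unusedVariables false

universe u

namespace Pool.Agent.W869.AU

open Set
open Cardinal hiding univ

variable {κ : Cardinal.{u}} {L M : Type u} [LinearOrder L] [WellFoundedLT L]
variable [LinearOrder M] [WellFoundedLT M]
variable {τ : M → L → Set (PC L M)}

section Lim

variable {J : Type u} {p : J → PC L M}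

/-- The union of the permutations. -/
noncomputable def LE (p : J → PC L M) (x : L) : L := by
  classical
  exact if h : ∃ j, x < (p j).h then (p h.choose).e x else x

/-- The union of the inverse permutations. -/
noncomputable def LE' (p : J → PC L M) (x : L) : L := by
  classical
  exact if h : ∃ j, x < (p j).h then (p h.choose).e.symm x else x

theorem e_agree (tot : ∀ i j, SLe (p i) (p j) ∨ SLe (p j) (p i)) {i j : J} {x : L}
    (hi : x < (p i).h) (hj : x < (p j).h) : (p i).e x = (p j).e x := by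
  rcases tot i j with ⟨σ, h1, h2⟩ | ⟨σ, h1, h2⟩
  · rw [h2, h1.lo x hj]
  · rw [h2, h1.lo x hi]

theorem e_agree' (hwf : ∀ j, Wf κ (p j)) (tot : ∀ i j, SLe (p i) (p j) ∨ SLe (p j) (p i))
    {i j : J} {x : L} (hi : x < (p i).h) (hj : x < (p j).h) :
    (p i).e.symm x = (p j).e.symm x := by
  have key : ∀ i j, x < (p i).h → x < (p j).h → SLe (p i) (p j) →
      (p i).e.symm x = (p j).e.symm x := by
    rintro i j hi hj ⟨σ, h1, h2⟩
    have h3 : (p j).e.symm x < (p j).h := by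
      rw [← perm_lt (hwf j).fix, Equiv.apply_symm_apply]
      exact hj
    rw [Equiv.symm_apply_eq, h2, h1.lo _ h3, Equiv.apply_symm_apply]
  rcases tot i j with h | h
  · exact key i j hi hj h
  · exact (key j i hj hi h).symm

theorem LE_eq (tot : ∀ i j, SLe (p i) (p j) ∨ SLe (p j) (p i)) {j : J} {x : L}
    (hj : x < (p j).h) : LE p x = (p j).e x := by
  have h : ∃ j, x < (p j).h := ⟨j, hj⟩
  unfold LE
  rw [dif_pos h]
  exact e_agree tot h.choose_spec hj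

theorem LE'_eq (hwf : ∀ j, Wf κ (p j)) (tot : ∀ i j, SLe (p i) (p j) ∨ SLe (p j) (p i))
    {j : J} {x : L} (hj : x < (p j).h) : LE' p x = (p j).e.symm x := by
  have h : ∃ j, x < (p j).h := ⟨j, hj⟩
  unfold LE'
  rw [dif_pos h]
  exact e_agree' hwf tot h.choose_spec hj

theorem LE_ne {x : L} (h : ¬ ∃ j, x < (p j).h) : LE p x = x := by
  unfold LE
  rw [dif_neg h]

theorem LE'_ne {x : L} (h : ¬ ∃ j, x < (p j).h) : LE' p x = x := by
  unfold LE'
  rw [dif_neg h]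

/-- The union of the permutations, as a permutation. -/
noncomputable def LP (hwf : ∀ j, Wf κ (p j)) (tot : ∀ i j, SLe (p i) (p j) ∨ SLe (p j) (p i)) :
    Equiv.Perm L where
  toFun := LE p
  invFun := LE' p
  left_inv x := by
    by_cases h : ∃ j, x < (p j).h
    · obtain ⟨j, hj⟩ := h
      rw [LE_eq tot hj, LE'_eq hwf tot ((perm_lt (hwf j).fix).2 hj), Equiv.symm_apply_apply]
    · rw [LE_ne h, LE'_ne h]
  right_inv x := by
    by_cases h : ∃ j, x < (p j).h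
    · obtain ⟨j, hj⟩ := h
      have h3 : (p j).e.symm x < (p j).h := by
        rw [← perm_lt (hwf j).fix, Equiv.apply_symm_apply]
        exact hj
      rw [LE'_eq hwf tot hj, LE_eq tot h3, Equiv.apply_symm_apply]
    · rw [LE'_ne h, LE_ne h]

/-- The union of sets given by the conditions. -/
def UU (g : PC L M → M → Set L) (p : J → PC L M) (ζ : M) : Set L :=
  {x | ∃ j, ζ ∈ (p j).s ∧ x < (p j).h ∧ x ∈ g (p j) ζ}

theorem UU_iff {g : PC L M → M → Set L}
    (hg : ∀ (p q : PC L M) (σ : Equiv.Perm L), Ex p q σ → ∀ ζ ∈ p.s, ∀ x < p.h,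
      (x ∈ g q ζ ↔ x ∈ g p ζ))
    (tot : ∀ i j, SLe (p i) (p j) ∨ SLe (p j) (p i)) {j : J} {ζ : M} (hζ : ζ ∈ (p j).s) {x : L}
    (hj : x < (p j).h) : x ∈ UU g p ζ ↔ x ∈ g (p j) ζ := by
  constructor
  · rintro ⟨i, hi, hxi, hx⟩
    rcases tot i j with ⟨σ, h1, h2⟩ | ⟨σ, h1, h2⟩
    · exact (hg _ _ _ h1 ζ hζ x hj).1 hx
    · exact (hg _ _ _ h1 ζ hi x hxi).2 hx
  · intro hx
    exact ⟨j, hζ, hj, hx⟩

/-- Lower bounds of chains. -/
theorem exists_lim (hL : Inac κ L) (hJ : #J < #L) (hok : ∀ j, Ok κ τ (p j))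
    (tot : ∀ i j, SLe (p i) (p j) ∨ SLe (p j) (p i)) :
    ∃ r, Ok κ τ r ∧ (∀ j, SLe r (p j)) ∧ (∀ x < r.h, ∃ j, x < (p j).h) ∧
      r.s = ⋃ j, (p j).s := by
  obtain ⟨h, hh, hh'⟩ := hL.exists_sup hJ fun j => (p j).h
  have hwf : ∀ j, Wf κ (p j) := fun j => (hok j).1
  let r : PC L M := ⟨h, LP hwf tot, ⋃ j, (p j).s, UU PC.u p, UU PC.v p, UU PC.w p⟩
  have hu : ∀ {j : J} {ζ : M}, ζ ∈ (p j).s → ∀ {x : L}, x < (p j).h →
      (x ∈ r.u ζ ↔ x ∈ (p j).u ζ) := fun hζ _ hx =>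
    UU_iff (g := PC.u) (fun _ _ _ h => h.ueq) tot hζ hx
  have hv : ∀ {j : J} {ζ : M}, ζ ∈ (p j).s → ∀ {x : L}, x < (p j).h →
      (x ∈ r.v ζ ↔ x ∈ (p j).v ζ) := fun hζ _ hx =>
    UU_iff (g := PC.v) (fun _ _ _ h => h.veq) tot hζ hx
  have hw : ∀ {j : J} {ζ : M}, ζ ∈ (p j).s → ∀ {x : L}, x < (p j).h →
      (x ∈ r.w ζ ↔ x ∈ (p j).w ζ) := fun hζ _ hx =>
    UU_iff (g := PC.w) (fun _ _ _ h => h.weq) tot hζ hx
  have hre : ∀ {j : J} {x : L}, x < (p j).h → r.e x = (p j).e x := fun hx => LE_eq tot hx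
  have hrfix : ∀ x, r.h ≤ x → r.e x = x := by
    intro x hx
    refine LE_ne ?_
    rintro ⟨j, hj⟩
    exact (not_lt.2 ((hh j).trans hx)) hj
  have hex : ∀ j, Ex (p j) r ((p j).e⁻¹ * r.e) := by
    intro j
    have hstep : ∀ x, (p j).h ≤ x → x < r.h → ∃ i, x < (p i).h ∧ (p j).s ⊆ (p i).s ∧
        ∃ σ, Ex (p j) (p i) σ ∧ ((p j).e⁻¹ * r.e) x = σ x := by
      intro x hx hx'
      obtain ⟨i, hi⟩ := hh' x hx'
      rcases tot i j with ⟨σ, h1, h2⟩ | ⟨σ, h1, h2⟩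
      · refine ⟨i, hi, h1.sub, σ, h1, ?_⟩
        rw [Equiv.Perm.mul_apply, Equiv.Perm.inv_def, hre hi, h2, Equiv.symm_apply_apply]
      · exact ((not_lt.2 (h1.hle.trans hx)) hi).elim
    refine ⟨hh j, subset_iUnion (fun j => (p j).s) j, fun ζ hζ x hx => hu hζ hx,
      fun ζ hζ x hx => hv hζ hx, fun ζ hζ x hx => hw hζ hx, ?_, ?_, ?_, ?_⟩
    · intro x hx
      rw [Equiv.Perm.mul_apply, Equiv.Perm.inv_def, hre hx, Equiv.symm_apply_apply]
    · intro x hx
      rw [Equiv.Perm.mul_apply, Equiv.Perm.inv_def, hrfix x hx, Equiv.symm_apply_eq,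
        (hwf j).fix x ((hh j).trans hx)]
    · intro ζ hζ x hx hx'
      obtain ⟨i, hi, hsub, σ, h1, h2⟩ := hstep x hx hx'
      rw [h2, hu (hsub hζ) hi, h1.uv ζ hζ x hx hi, hv (hsub hζ) ((perm_lt h1.hi).2 hi)]
    · intro ζ hζ x hx hx'
      obtain ⟨i, hi, hsub, σ, h1, h2⟩ := hstep x hx hx'
      rw [h2, hw (hsub hζ) hi, h1.wu ζ hζ x hx hi, hu (hsub hζ) ((perm_lt h1.hi).2 hi)]
  have hsle : ∀ j, SLe r (p j) := fun j => ⟨_, hex j, fun x => by
    rw [Equiv.Perm.mul_apply, Equiv.Perm.inv_def, Equiv.apply_symm_apply]⟩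
  -- above the height of `p j` the permutation is exact
  have hab : ∀ j x, (p j).h ≤ x → r.e x = ((p j).e⁻¹ * r.e) x := by
    intro j x hx
    have h1 : (p j).h ≤ r.e x := by
      by_contra hc
      rw [not_le] at hc
      have h2 : r.e.symm (r.e x) = (p j).e.symm (r.e x) := LE'_eq hwf tot hc
      have h3 : (p j).e.symm (r.e x) < (p j).h := by
        rw [← perm_lt (hwf j).fix, Equiv.apply_symm_apply]
        exact hc
      rw [← h2, Equiv.symm_apply_apply] at h3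
      exact (not_lt.2 hx) h3
    rw [Equiv.Perm.mul_apply, Equiv.Perm.inv_def, eq_comm, Equiv.symm_apply_eq,
      (hwf j).fix _ h1]
  refine ⟨r, ok_of hL.inf ⟨hrfix, ?_, ?_, ?_⟩ ?_, hsle, hh', rfl⟩
  · exact hL.union hJ _ fun j => (hwf j).small
  · intro ζ hζ
    obtain ⟨j, hj⟩ := mem_iUnion.1 hζ
    refine sm_mono ?_ ((hwf j).verr ζ hj)
    rintro x ⟨hx, hx'⟩
    have h1 : x < (p j).h := by
      by_contra hc
      rw [not_lt] at hc
      apply hx'
      rw [hab j x hc]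
      exact (hex j).uv ζ hj x hc hx
    refine ⟨h1, ?_⟩
    rw [hu hj h1, hre h1, hv hj ((perm_lt (hwf j).fix).2 h1)] at hx'
    exact hx'
  · intro ζ hζ
    obtain ⟨j, hj⟩ := mem_iUnion.1 hζ
    refine sm_mono ?_ ((hwf j).werr ζ hj)
    rintro x ⟨hx, hx'⟩
    have h1 : x < (p j).h := by
      by_contra hc
      rw [not_lt] at hc
      apply hx'
      rw [hab j x hc]
      exact (hex j).wu ζ hj x hc hx
    refine ⟨h1, ?_⟩
    rw [hw hj h1, hre h1, hu hj ((perm_lt (hwf j).fix).2 h1)] at hx'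
    exact hx'
  · intro ζ hζ x hx
    obtain ⟨j₁, hj₁⟩ := mem_iUnion.1 hζ
    obtain ⟨j₂, hj₂⟩ := hh' x hx
    rcases tot j₁ j₂ with h1 | h1
    · have h2 : x < (p j₁).h := hj₂.trans_le (by
        obtain ⟨σ, h3, -⟩ := h1
        exact h3.hle)
      exact ⟨p j₁, hok j₁, hj₁, h2, ((hsle j₁).cut _).le, hu hj₁ h2⟩
    · have h2 : ζ ∈ (p j₂).s := by
        obtain ⟨σ, h3, -⟩ := h1
        exact h3.sub hj₁
      exact ⟨p j₂, hok j₂, h2, hj₂, ((hsle j₂).cut _).le, hu h2 hj₂⟩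

end Lim

end Pool.Agent.W869.AU
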