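import Pool.Agent.W869.AU.Ops
import Pool.Agent.Helper669.Forcing

/-!
# Antichains and names
-/

set_option autoImplicit false
set_option linter.unusedSectionVars false
set_option linter.unusedVariables false
set_option linter.style.haveILetI false

universe u

namespace Pool.Agent.W869.AU

open Set
open Cardinal hiding univ

section Same

variable {κ : Cardinal.{u}} {L M : Type u} [LinearOrder L] [WellFoundedLT L]
variable [LinearOrder M] [WellFoundedLT M]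
variable {τ : M → L → Set (PC L M)}

/-- The conditions have the same relevant data. -/
structure Same (a b : PC L M) : Prop where
  h : a.h = b.h
  e : a.e = b.e
  s : a.s = b.s
  u : ∀ ζ ∈ a.s, a.u ζ = b.u ζ
  v : ∀ ζ ∈ a.s, a.v ζ = b.v ζ
  w : ∀ ζ ∈ a.s, a.w ζ = b.w ζ

theorem Same.sle_cut {a b : PC L M} (h : Same a b) (t : Set M) : SLe (cut b t) (cut a t) := by
  refine sle_of_eq h.h.symm (fun x => by rw [cut_e, cut_e, h.e]) ?_ ?_ ?_ ?_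
  · rw [cut_s, cut_s, h.s]
  · intro ζ hζ x hx
    rw [cut_u, cut_u, h.u ζ hζ.1]
  · intro ζ hζ x hx
    rw [cut_v, cut_v, h.v ζ hζ.1]
  · intro ζ hζ x hx
    rw [cut_w, cut_w, h.w ζ hζ.1]

theorem Same.sle {a b : PC L M} (h : Same a b) : SLe b a := by
  refine sle_of_eq h.h.symm (fun x => by rw [h.e]) ?_ ?_ ?_ ?_
  · rw [h.s]
  · intro ζ hζ x hx
    rw [h.u ζ hζ]
  · intro ζ hζ x hx
    rw [h.v ζ hζ]
  · intro ζ hζ x hx
    rw [h.w ζ hζ]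

theorem Same.symm {a b : PC L M} (h : Same a b) : Same b a :=
  ⟨h.h.symm, h.e.symm, h.s.symm, fun ζ hζ => (h.u ζ (h.s ▸ hζ)).symm,
    fun ζ hζ => (h.v ζ (h.s ▸ hζ)).symm, fun ζ hζ => (h.w ζ (h.s ▸ hζ)).symm⟩

theorem Same.ok (hκ : ℵ₀ ≤ κ) {a b : PC L M} (h : Same a b) (ha : Ok κ τ a) : Ok κ τ b := by
  refine ok_of hκ ⟨?_, ?_, ?_, ?_⟩ ?_
  · intro x hx
    rw [← h.e]
    exact ha.1.fix x (h.h ▸ hx)
  · rw [← h.s]
    exact ha.1.small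
  · intro ζ hζ
    rw [← h.s] at hζ
    rw [← h.h, ← h.e, ← h.u ζ hζ, ← h.v ζ hζ]
    exact ha.1.verr ζ hζ
  · intro ζ hζ
    rw [← h.s] at hζ
    rw [← h.h, ← h.e, ← h.u ζ hζ, ← h.w ζ hζ]
    exact ha.1.werr ζ hζ
  · intro ζ hζ x hx
    rw [← h.s] at hζ
    exact ⟨a, ha, hζ, h.h ▸ hx, (h.sle_cut _).le, by rw [h.u ζ hζ]⟩

/-- Conditions which agree on the common indices are compatible. -/
theorem compat (hL : Inac κ L) {p q : PC L M} (hp : Ok κ τ p) (hq : Ok κ τ q) (hh : p.h = q.h)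
    (he : p.e = q.e) (hu : ∀ ζ ∈ p.s, ζ ∈ q.s → p.u ζ = q.u ζ ∧ p.v ζ = q.v ζ ∧ p.w ζ = q.w ζ) :
    ∃ r, Ok κ τ r ∧ Le κ r p ∧ Le κ r q := by
  classical
  let r : PC L M := ⟨p.h, p.e, p.s ∪ q.s, fun ζ => if ζ ∈ p.s then p.u ζ else q.u ζ,
    fun ζ => if ζ ∈ p.s then p.v ζ else q.v ζ, fun ζ => if ζ ∈ p.s then p.w ζ else q.w ζ⟩
  have hp1 : ∀ ζ ∈ p.s, r.u ζ = p.u ζ ∧ r.v ζ = p.v ζ ∧ r.w ζ = p.w ζ := by
    intro ζ hζ
    exact ⟨if_pos hζ, if_pos hζ, if_pos hζ⟩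
  have hq1 : ∀ ζ ∈ q.s, r.u ζ = q.u ζ ∧ r.v ζ = q.v ζ ∧ r.w ζ = q.w ζ := by
    intro ζ hζ
    by_cases hζp : ζ ∈ p.s
    · obtain ⟨h1, h2, h3⟩ := hu ζ hζp hζ
      obtain ⟨h4, h5, h6⟩ := hp1 ζ hζp
      exact ⟨h4.trans h1, h5.trans h2, h6.trans h3⟩
    · exact ⟨if_neg hζp, if_neg hζp, if_neg hζp⟩
  have hpc : ∀ t : Set M, SLe (cut r t) (cut p t) := by
    intro t
    refine sle_of_eq rfl (fun _ => rfl) (inter_subset_inter_left _ subset_union_left) ?_ ?_ ?_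
    · intro ζ hζ x hx
      rw [cut_u, cut_u, (hp1 ζ hζ.1).1]
    · intro ζ hζ x hx
      rw [cut_v, cut_v, (hp1 ζ hζ.1).2.1]
    · intro ζ hζ x hx
      rw [cut_w, cut_w, (hp1 ζ hζ.1).2.2]
  have hqc : ∀ t : Set M, SLe (cut r t) (cut q t) := by
    intro t
    refine sle_of_eq hh (fun x => by rw [cut_e, cut_e, ← he])
      (inter_subset_inter_left _ subset_union_right) ?_ ?_ ?_
    · intro ζ hζ x hx
      rw [cut_u, cut_u, (hq1 ζ hζ.1).1]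
    · intro ζ hζ x hx
      rw [cut_v, cut_v, (hq1 ζ hζ.1).2.1]
    · intro ζ hζ x hx
      rw [cut_w, cut_w, (hq1 ζ hζ.1).2.2]
  refine ⟨r, ok_of hL.inf ⟨hp.1.fix, ?_, ?_, ?_⟩ ?_, ?_, ?_⟩
  · exact (Cardinal.mk_union_le _ _).trans_lt (hL.add hp.1.small hq.1.small)
  · rintro ζ (hζ | hζ)
    · rw [(hp1 ζ hζ).1, (hp1 ζ hζ).2.1]
      exact hp.1.verr ζ hζ
    · rw [(hq1 ζ hζ).1, (hq1 ζ hζ).2.1]
      show #{x | x < p.h ∧ ¬ (x ∈ q.u ζ ↔ p.e x ∈ q.v ζ)} ≤ κ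
      rw [hh, he]
      exact hq.1.verr ζ hζ
  · rintro ζ (hζ | hζ)
    · rw [(hp1 ζ hζ).1, (hp1 ζ hζ).2.2]
      exact hp.1.werr ζ hζ
    · rw [(hq1 ζ hζ).1, (hq1 ζ hζ).2.2]
      show #{x | x < p.h ∧ ¬ (x ∈ q.w ζ ↔ p.e x ∈ q.u ζ)} ≤ κ
      rw [hh, he]
      exact hq.1.werr ζ hζ
  · rintro ζ (hζ | hζ) x hx
    · exact ⟨p, hp, hζ, hx, (hpc _).le, by rw [(hp1 ζ hζ).1]⟩
    · exact ⟨q, hq, hζ, hh ▸ hx, (hqc _).le, by rw [(hq1 ζ hζ).1]⟩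
  · have := hpc univ
    exact (sle_of_univ ((sle_cut r univ).trans this)).le
  · have := hqc univ
    exact (sle_of_univ ((sle_cut r univ).trans this)).le

end Same

/-! ### Codes -/

/-- Codes of conditions with indices in `A`. -/
abbrev Cd (L A : Type u) : Type u :=
  L × Equiv.Perm L × (L → Option A) × Set (L × L) × Set (L × L) × Set (L × L)

theorem mk_Cd {L A : Type u} [Infinite L] {m : Cardinal.{u}} (h1 : 2 ^ #L ≤ m) (h2 : m ^ #L ≤ m)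
    (hA : #A ≤ m) : #(Cd L A) ≤ m := by
  have hL : ℵ₀ ≤ #L := Cardinal.aleph0_le_mk L
  have hm : ℵ₀ ≤ m := (hL.trans (Cardinal.cantor _).le).trans h1
  have hLm : #L ≤ m := (Cardinal.cantor _).le.trans h1
  have hmul : ∀ a b : Cardinal.{u}, a ≤ m → b ≤ m → a * b ≤ m := fun a b ha hb =>
    (mul_le_mul' ha hb).trans (Cardinal.mul_eq_self hm).le
  have e1 : #(Equiv.Perm L) ≤ m := by
    have h3 : #(Equiv.Perm L) ≤ #(L → L) := Cardinal.mk_le_of_injective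
      (f := fun e : Equiv.Perm L => (e : L → L)) DFunLike.coe_injective
    refine h3.trans ?_
    rw [← Cardinal.power_def, Cardinal.power_self_eq hL]
    exact h1
  have e2 : #(L → Option A) ≤ m := by
    rw [← Cardinal.power_def, Cardinal.mk_option]
    refine (Cardinal.power_le_power_right (c := #L) (a := #A + 1) (b := m) ?_).trans h2
    exact (add_le_add hA (Cardinal.one_le_aleph0.trans hm)).trans (Cardinal.add_eq_self hm).le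
  have e3 : #(Set (L × L)) ≤ m := by
    rw [Cardinal.mk_set, Cardinal.mk_prod, Cardinal.lift_id, Cardinal.mul_eq_self hL]
    exact h1
  simp only [Cd, Cardinal.mk_prod, Cardinal.lift_id]
  exact hmul _ _ hLm (hmul _ _ e1 (hmul _ _ e2 (hmul _ _ e3 (hmul _ _ e3 e3))))

variable {L M : Type u}

/-- Decoding. -/
def dcd (a : Cd L M) : PC L M where
  h := a.1
  e := a.2.1
  s := {ζ | ∃ x, a.2.2.1 x = some ζ}
  u := fun ζ => {y | ∃ x, a.2.2.1 x = some ζ ∧ (x, y) ∈ a.2.2.2.1}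
  v := fun ζ => {y | ∃ x, a.2.2.1 x = some ζ ∧ (x, y) ∈ a.2.2.2.2.1}
  w := fun ζ => {y | ∃ x, a.2.2.1 x = some ζ ∧ (x, y) ∈ a.2.2.2.2.2}

theorem exists_enum {s : Set M} (h : #s ≤ #L) :
    ∃ f : L → Option M, ∀ ζ, ζ ∈ s ↔ ∃ x, f x = some ζ := by
  classical
  obtain ⟨i⟩ := h
  refine ⟨fun x => if h : ∃ ζ : s, i ζ = x then some h.choose.1 else none, fun ζ => ?_⟩
  constructor
  · intro hζ
    refine ⟨i ⟨ζ, hζ⟩, ?_⟩
    have h : ∃ ζ' : s, i ζ' = i ⟨ζ, hζ⟩ := ⟨_, rfl⟩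
    have h2 : h.choose = ⟨ζ, hζ⟩ := i.injective h.choose_spec
    simp only [dif_pos h, h2]
  · rintro ⟨x, hx⟩
    by_cases h : ∃ ζ : s, i ζ = x
    · simp only [dif_pos h] at hx
      have := Option.some.inj hx
      rw [← this]
      exact h.choose.2
    · simp only [dif_neg h] at hx
      cases hx

theorem exists_code {p : PC L M} (h : #p.s ≤ #L) : ∃ a : Cd L M, Same p (dcd a) := by
  obtain ⟨f, hf⟩ := exists_enum (L := L) h
  have key : ∀ (g : M → Set L) (ζ : M), ζ ∈ p.s → g ζ =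
      {y | ∃ x, f x = some ζ ∧ (x, y) ∈ {z : L × L | ∃ ξ, f z.1 = some ξ ∧ z.2 ∈ g ξ}} := by
    intro g ζ hζ
    ext y
    constructor
    · intro hy
      obtain ⟨x, hx⟩ := (hf ζ).1 hζ
      exact ⟨x, hx, ζ, hx, hy⟩
    · rintro ⟨x, hx, ξ, hξ, hy⟩
      rw [hx] at hξ
      rw [Option.some.inj hξ]
      exact hy
  refine ⟨(p.h, p.e, f, {z | ∃ ξ, f z.1 = some ξ ∧ z.2 ∈ p.u ξ},
    {z | ∃ ξ, f z.1 = some ξ ∧ z.2 ∈ p.v ξ}, {z | ∃ ξ, f z.1 = some ξ ∧ z.2 ∈ p.w ξ}), rfl, rfl,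
    ?_, fun ζ hζ => key p.u ζ hζ, fun ζ hζ => key p.v ζ hζ, fun ζ hζ => key p.w ζ hζ⟩
  ext ζ
  exact hf ζ

/-- The restriction to `R` is determined by a code with indices in `R`. -/
theorem exists_codeR (R : Set M) : ∃ F : PC L M → Cd L R, ∀ p q : PC L M, #p.s ≤ #L →
    #q.s ≤ #L → F p = F q → p.h = q.h ∧ p.e = q.e ∧ ∀ ζ ∈ R, ζ ∈ p.s → ζ ∈ q.s →
      p.u ζ = q.u ζ ∧ p.v ζ = q.v ζ ∧ p.w ζ = q.w ζ := by
  classical
  have hex : ∀ p : PC L M, ∃ f : L → Option M, #p.s ≤ #L → ∀ ζ, ζ ∈ p.s ↔ ∃ x, f x = some ζ := by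
    intro p
    by_cases h : #p.s ≤ #L
    · obtain ⟨f, hf⟩ := exists_enum (L := L) h
      exact ⟨f, fun _ => hf⟩
    · exact ⟨fun _ => none, fun h' => (h h').elim⟩
  choose f hf using hex
  let g : PC L M → L → Option R := fun p x => (f p x).bind fun ζ =>
    if h : ζ ∈ R then some ⟨ζ, h⟩ else none
  have hg : ∀ (p : PC L M) (x : L) (ζ : R), g p x = some ζ ↔ f p x = some ζ.1 := by
    intro p x ζ
    simp only [g]
    constructor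
    · intro h
      obtain ⟨ξ, h1, h2⟩ := Option.bind_eq_some_iff.1 h
      by_cases hξ : ξ ∈ R
      · rw [dif_pos hξ] at h2
        have := Option.some.inj h2
        rw [h1, ← this]
      · rw [dif_neg hξ] at h2
        cases h2
    · intro h
      rw [h, Option.bind_some, dif_pos ζ.2]
  refine ⟨fun p => (p.h, p.e, g p, {z | ∃ ξ : R, g p z.1 = some ξ ∧ z.2 ∈ p.u ξ},
    {z | ∃ ξ : R, g p z.1 = some ξ ∧ z.2 ∈ p.v ξ}, {z | ∃ ξ : R, g p z.1 = some ξ ∧ z.2 ∈ p.w ξ}),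
    ?_⟩
  intro p q hp hq h
  have h1 : p.h = q.h := congrArg (fun z : Cd L R => z.1) h
  have h2 : p.e = q.e := congrArg (fun z : Cd L R => z.2.1) h
  have h3 : g p = g q := congrArg (fun z : Cd L R => z.2.2.1) h
  have h4 : {z : L × L | ∃ ξ : R, g p z.1 = some ξ ∧ z.2 ∈ p.u ξ} =
      {z | ∃ ξ : R, g q z.1 = some ξ ∧ z.2 ∈ q.u ξ} :=
    congrArg (fun z : Cd L R => z.2.2.2.1) h
  have h5 : {z : L × L | ∃ ξ : R, g p z.1 = some ξ ∧ z.2 ∈ p.v ξ} =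
      {z | ∃ ξ : R, g q z.1 = some ξ ∧ z.2 ∈ q.v ξ} :=
    congrArg (fun z : Cd L R => z.2.2.2.2.1) h
  have h6 : {z : L × L | ∃ ξ : R, g p z.1 = some ξ ∧ z.2 ∈ p.w ξ} =
      {z | ∃ ξ : R, g q z.1 = some ξ ∧ z.2 ∈ q.w ξ} :=
    congrArg (fun z : Cd L R => z.2.2.2.2.2) h
  refine ⟨h1, h2, fun ζ hζ hζp hζq => ?_⟩
  obtain ⟨x, hx⟩ := (hf p hp ζ).1 hζp
  have hgp : g p x = some ⟨ζ, hζ⟩ := (hg p x ⟨ζ, hζ⟩).2 hx
  have hgq : g q x = some ⟨ζ, hζ⟩ := h3 ▸ hgp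
  have key : ∀ A B : M → Set L, {z : L × L | ∃ ξ : R, g p z.1 = some ξ ∧ z.2 ∈ A ξ} =
      {z | ∃ ξ : R, g q z.1 = some ξ ∧ z.2 ∈ B ξ} → A ζ = B ζ := by
    intro A B hAB
    ext y
    have h7 : (x, y) ∈ {z : L × L | ∃ ξ : R, g p z.1 = some ξ ∧ z.2 ∈ A ξ} ↔ y ∈ A ζ := by
      constructor
      · rintro ⟨ξ, h8, h9⟩
        rw [show g p (x, y).1 = some ⟨ζ, hζ⟩ from hgp] at h8
        rw [← Option.some.inj h8] at h9
        exact h9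
      · intro h8
        exact ⟨⟨ζ, hζ⟩, hgp, h8⟩
    have h8 : (x, y) ∈ {z : L × L | ∃ ξ : R, g q z.1 = some ξ ∧ z.2 ∈ B ξ} ↔ y ∈ B ζ := by
      constructor
      · rintro ⟨ξ, h8, h9⟩
        rw [show g q (x, y).1 = some ⟨ζ, hζ⟩ from hgq] at h8
        rw [← Option.some.inj h8] at h9
        exact h9
      · intro h8
        exact ⟨⟨ζ, hζ⟩, hgq, h8⟩
    rw [← h7, ← h8, hAB]
  exact ⟨key _ _ h4, key _ _ h5, key _ _ h6⟩

/-! ### Antichains -/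

section Anti

variable {κ : Cardinal.{u}} [LinearOrder L] [WellFoundedLT L]
variable [LinearOrder M] [WellFoundedLT M]
variable {τ : M → L → Set (PC L M)}

theorem pow_self (hL : Inac κ L) : (2 ^ #L : Cardinal.{u}) ^ #L ≤ 2 ^ #L := by
  rw [← Cardinal.power_mul, Cardinal.mul_eq_self hL.aleph.le]

theorem antichain (hL : Inac κ L) (A : Set (PC L M)) (hA : ∀ p ∈ A, Ok κ τ p)
    (hanti : ∀ p ∈ A, ∀ q ∈ A, p ≠ q → ¬ ∃ r, Ok κ τ r ∧ Le κ r p ∧ Le κ r q) :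
    #A ≤ 2 ^ #L := by
  by_contra hcon
  haveI := hL.infinite
  have hc : ℵ₀ ≤ (2 ^ #L : Cardinal.{u}) := hL.aleph.le.trans (Cardinal.cantor _).le
  obtain ⟨T, R, hT, hR, hTR⟩ := Helper669.KDelta.weak_delta (E := A) (K := M) hc hcon
    (fun b => b.1.s) (fun b => (hA b.1 b.2).1.small.trans (Cardinal.cantor _))
  obtain ⟨F, hF⟩ := exists_codeR (L := L) R
  have h1 : #(Cd L R) ≤ 2 ^ #L := mk_Cd le_rfl (pow_self hL) hR
  have h2 : ¬ Function.Injective fun b : T => F b.1.1 := by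
    intro hinj
    exact hT ((Cardinal.mk_le_of_injective hinj).trans h1)
  rw [Function.Injective] at h2
  push Not at h2
  obtain ⟨b, b', heq, hne⟩ := h2
  obtain ⟨h3, h4, h5⟩ := hF _ _ (hA _ b.1.2).1.small.le (hA _ b'.1.2).1.small.le heq
  have hne' : b.1 ≠ b'.1 := fun h => hne (Subtype.ext h)
  refine hanti b.1.1 b.1.2 b'.1.1 b'.1.2 (fun h => hne' (Subtype.ext h)) ?_
  exact compat hL (hA _ b.1.2) (hA _ b'.1.2) h3 h4 fun ζ hζ hζ' =>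
    h5 ζ (hTR b.1 b.2 b'.1 b'.2 hne' ⟨hζ, hζ'⟩) hζ hζ'

end Anti

end Pool.Agent.W869.AU
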