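import Pool.Agent.W869.AU.Cap

/-!
# The generic coherent family has no thread
-/

set_option autoImplicit false
set_option linter.unusedSectionVars false
set_option linter.unusedVariables false
set_option linter.style.haveILetI false

universe u

namespace Pool.Agent.W869.AU

open Set Pool.Agent.Helper669.Forcing
open Cardinal hiding univ

variable {κ : Cardinal.{u}} {L M : Type u} [LinearOrder L] [WellFoundedLT L]
variable [LinearOrder M] [WellFoundedLT M]
variable {hκ : ℵ₀ ≤ κ} {τ : M → L → Set (PC L M)}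

theorem pp_lim (hL : Inac κ L) {J : Type u} (hJ : #J < #L) (p : J → PP κ hκ τ)
    (tot : ∀ i j, SLe (p i).val (p j).val ∨ SLe (p j).val (p i).val) :
    ∃ r : PP κ hκ τ, ∀ j, SLe r.val (p j).val := by
  obtain ⟨r, h1, h2, -⟩ := exists_lim hL hJ (fun j => (p j).ok) tot
  exact ⟨⟨r, h1⟩, h2⟩

theorem swap_fix {x x' z : L} (h : z ≠ x) (h' : z ≠ x') : Equiv.swap x x' z = z :=
  Equiv.swap_apply_of_ne_of_ne h h'

/-- There are many points above the height. -/
theorem exists_many (hL : Inac κ L) (h : L) {c : Cardinal.{u}} (hc : c < #L) :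
    ∃ β, ¬ #(Ico h β) ≤ c := by
  obtain ⟨β, hβ⟩ := hL.exists_Iio (hL.pow _ (hL.add (hL.seg h) hc))
  refine ⟨β, fun hcon => ?_⟩
  have h1 : Iio β ⊆ Iio h ∪ Ico h β := by
    intro x hx
    by_cases hxh : x < h
    · exact Or.inl hxh
    · exact Or.inr ⟨not_lt.1 hxh, hx⟩
  have h2 : #(Iio β) ≤ #(Iio h) + c := (Cardinal.mk_le_mk_of_subset h1).trans
    ((Cardinal.mk_union_le _ _).trans (add_le_add le_rfl hcon))
  exact not_lt.2 (hβ.trans h2) (Cardinal.cantor _)

theorem thread_step (hL : Inac κ L) {F : L → L → Set (PP κ hκ τ)} (q : PP κ hκ τ)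
    (hq : q ∈ IsFun F) : ∃ r : PP κ hκ τ, SLe r.val q.val ∧ ∃ x y, q.val.h ≤ x ∧ x < r.val.h ∧
      r ∈ meets (F x y) ∧ r.val.e x ≠ y := by
  have hs := q.ok.1.small
  have hc : (2 : Cardinal.{u}) ^ (#q.val.s + #q.val.s) < #L := hL.pow _ (hL.add hs hs)
  obtain ⟨β, hβ⟩ := exists_many hL q.val.h hc
  obtain ⟨q₁, h1, -, h2, h3⟩ := exists_height hL q.ok β (T := univ)
    (fun _ _ _ _ => mem_univ _) (subset_univ _)
  obtain ⟨q₂, h4, h5⟩ := pp_fun (hκ := hκ) (τ := τ) hL (J := Iio q₁.h) (hL.seg _) (Y := L)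
    (R := fun x y => F x y) (p := ⟨q₁, h1⟩)
    (fun x => (down_IsFun F q hq ⟨q₁, h1⟩ h2.le).1 x)
  have h6 : SLe q₂.val q.val := SLe.trans h4 h2
  obtain ⟨σ, hex, hσ⟩ := id h6
  obtain ⟨ρ, hex', -⟩ := id h4
  have hle : q₁.h ≤ q₂.val.h := hex'.hle
  -- two points of the same type
  obtain ⟨x, hx, x', hx', hne, htu, htw⟩ : ∃ x ∈ Ico q.val.h β, ∃ x' ∈ Ico q.val.h β, x ≠ x' ∧
      (∀ ζ ∈ q.val.s, (x ∈ q₂.val.u ζ ↔ x' ∈ q₂.val.u ζ)) ∧
      ∀ ζ ∈ q.val.s, (x ∈ q₂.val.w ζ ↔ x' ∈ q₂.val.w ζ) := by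
    by_contra hcon
    apply hβ
    have hinj : Function.Injective (fun x : Ico q.val.h β =>
        (({ζ : q.val.s | x.1 ∈ q₂.val.u ζ.1}, {ζ : q.val.s | x.1 ∈ q₂.val.w ζ.1}) :
          Set q.val.s × Set q.val.s)) := by
      intro x x' heq
      by_contra hne
      apply hcon
      obtain ⟨e1, e2⟩ := Prod.ext_iff.1 heq
      refine ⟨x, x.2, x', x'.2, fun h => hne (Subtype.ext h), fun ζ hζ => ?_, fun ζ hζ => ?_⟩
      · exact Set.ext_iff.1 e1 ⟨ζ, hζ⟩
      · exact Set.ext_iff.1 e2 ⟨ζ, hζ⟩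
    refine (Cardinal.mk_le_of_injective hinj).trans ?_
    rw [Cardinal.mk_prod, Cardinal.mk_set, Cardinal.lift_id, Cardinal.power_add]
  have hxlt : x < q₂.val.h := (hx.2.trans_le h3).trans_le hle
  have hx'lt : x' < q₂.val.h := (hx'.2.trans_le h3).trans_le hle
  obtain ⟨y, hy⟩ := h5 ⟨x, hx.2.trans_le h3⟩
  by_cases hxy : q₂.val.e x = y
  · have hf : #{z | q₂.val.e z ≠ (q₂.val.e * Equiv.swap x x') z} ≤ κ := by
      refine sm_mono (t := {x, x'}) ?_ ?_
      · intro z hz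
        by_contra hc
        simp only [mem_insert_iff, mem_singleton_iff, not_or] at hc
        apply hz
        rw [Equiv.Perm.mul_apply, swap_fix hc.1 hc.2]
      · exact ((Set.toFinite ({x, x'} : Set L)).lt_aleph0).le.trans hκ
    obtain ⟨h7, h8, h9⟩ := change hκ q₂.ok (f := q₂.val.e * Equiv.swap x x') (fun z hz => by
      rw [Equiv.Perm.mul_apply, swap_fix (hxlt.trans_le hz).ne' (hx'lt.trans_le hz).ne',
        q₂.ok.1.fix z hz]) hf
    have hsw : ∀ z, q.val.h ≤ z → z < q₂.val.h → q.val.h ≤ Equiv.swap x x' z ∧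
        Equiv.swap x x' z < q₂.val.h ∧
        (∀ ζ ∈ q.val.s, (z ∈ q₂.val.u ζ ↔ Equiv.swap x x' z ∈ q₂.val.u ζ)) ∧
        ∀ ζ ∈ q.val.s, (z ∈ q₂.val.w ζ ↔ Equiv.swap x x' z ∈ q₂.val.w ζ) := by
      intro z hz hz'
      by_cases h1 : z = x
      · subst h1
        rw [Equiv.swap_apply_left]
        exact ⟨hx'.1, hx'lt, htu, htw⟩
      · by_cases h2 : z = x'
        · subst h2
          rw [Equiv.swap_apply_right]
          exact ⟨hx.1, hxlt, fun ζ hζ => (htu ζ hζ).symm, fun ζ hζ => (htw ζ hζ).symm⟩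
        · rw [swap_fix h1 h2]
          exact ⟨hz, hz', fun _ _ => Iff.rfl, fun _ _ => Iff.rfl⟩
    refine ⟨⟨_, h7⟩, ⟨σ * Equiv.swap x x', ⟨hex.hle, hex.sub, hex.ueq, hex.veq, hex.weq,
      ?_, ?_, ?_, ?_⟩, fun z => ?_⟩, x, y, hx.1, hxlt, ?_, ?_⟩
    · intro z hz
      rw [Equiv.Perm.mul_apply, swap_fix (hz.trans_le hx.1).ne (hz.trans_le hx'.1).ne,
        hex.lo z hz]
    · intro z hz
      have hz' : q₂.val.h ≤ z := hz
      rw [Equiv.Perm.mul_apply, swap_fix (hxlt.trans_le hz').ne' (hx'lt.trans_le hz').ne',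
        hex.hi z hz']
    · intro ζ hζ z hz hz'
      obtain ⟨e1, e2, e3, e4⟩ := hsw z hz hz'
      rw [Equiv.Perm.mul_apply]
      show z ∈ q₂.val.u ζ ↔ _ ∈ q₂.val.v ζ
      rw [e3 ζ hζ, hex.uv ζ hζ _ e1 e2]
    · intro ζ hζ z hz hz'
      obtain ⟨e1, e2, e3, e4⟩ := hsw z hz hz'
      rw [Equiv.Perm.mul_apply]
      show z ∈ q₂.val.w ζ ↔ _ ∈ q₂.val.u ζ
      rw [e4 ζ hζ, hex.wu ζ hζ _ e1 e2]
    · show (q₂.val.e * Equiv.swap x x') z = _
      rw [Equiv.Perm.mul_apply, Equiv.Perm.mul_apply, hσ]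
    · exact down_meets _ _ hy _ h8
    · show (q₂.val.e * Equiv.swap x x') x ≠ y
      rw [Equiv.Perm.mul_apply, Equiv.swap_apply_left, ← hxy]
      exact fun h => hne (q₂.val.e.injective h).symm
  · exact ⟨q₂, h6, x, y, hx.1, hxlt, hy, hxy⟩

/-- A named function is not a thread. -/
theorem no_thread (hL : Inac κ L) {F : L → L → Set (PP κ hκ τ)} (p : PP κ hκ τ)
    (hp : p ∈ IsFun F) : ∃ q ≤ p,
      ¬ #{x | x < q.val.h ∧ ∃ y, q ∈ meets (F x y) ∧ q.val.e x ≠ y} ≤ κ := by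
  let J := (Order.succ κ).ord.ToType
  have hJ : #J = Order.succ κ := Cardinal.mk_ord_toType _
  have hJL : #J < #L := hJ.le.trans_lt hL.succ
  have hopt : ∀ {A : Type u}, #A < #L → #(Option A) < #L := by
    intro A hA
    rw [Cardinal.mk_option]
    exact hL.add hA (Cardinal.one_lt_aleph0.trans hL.aleph)
  haveI : Nonempty (PP κ hκ τ) := ⟨p⟩
  obtain ⟨f, hf⟩ := Helper669.KDelta.rec_choice (ι := J) (β := PP κ hκ τ) (r := (· < ·))
    wellFounded_lt
    (fun i f b => SLe b.val p.val ∧ (∀ j, j < i → SLe b.val (f j).val) ∧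
      ∃ x y, (∀ j, j < i → (f j).val.h ≤ x) ∧ x < b.val.h ∧ b ∈ meets (F x y) ∧ b.val.e x ≠ y)
    (by
      rintro i f g b hfg ⟨h1, h2, x, y, h3, h4⟩
      exact ⟨h1, fun j hj => hfg j hj ▸ h2 j hj, x, y, fun j hj => hfg j hj ▸ h3 j hj, h4⟩)
    (by
      intro i f ih
      obtain ⟨r, hr⟩ := pp_lim (hκ := hκ) (τ := τ) hL (J := Option (Iio i))
        (hopt ((Cardinal.mk_set_le _).trans_lt hJL)) (fun o => o.elim p fun j => f j)
        (by
          rintro (_ | j) (_ | j')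
          · exact Or.inl (SLe.refl _)
          · exact Or.inr (ih j'.1 j'.2).1
          · exact Or.inl (ih j.1 j.2).1
          · rcases lt_trichotomy j.1 j'.1 with hlt | heq | hlt
            · exact Or.inr ((ih j'.1 j'.2).2.1 j.1 hlt)
            · have : j = j' := Subtype.ext heq
              subst this
              exact Or.inl (SLe.refl _)
            · exact Or.inl ((ih j.1 j.2).2.1 j'.1 hlt))
      have hrF : r ∈ IsFun F := down_IsFun F p hp r (hr none).le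
      obtain ⟨b, h1, x, y, h2, h3⟩ := thread_step hL r hrF
      refine ⟨b, h1.trans (hr none), fun j hj => h1.trans (hr (some ⟨j, hj⟩)), x, y,
        fun j hj => ?_, h3⟩
      obtain ⟨σ, hσ, -⟩ := hr (some ⟨j, hj⟩)
      exact hσ.hle.trans h2)
  obtain ⟨r, hr⟩ := pp_lim (hκ := hκ) (τ := τ) hL (J := Option J) (hopt hJL)
    (fun o => o.elim p f)
    (by
      rintro (_ | j) (_ | j')
      · exact Or.inl (SLe.refl _)
      · exact Or.inr (hf j').1
      · exact Or.inl (hf j).1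
      · rcases lt_trichotomy j j' with hlt | heq | hlt
        · exact Or.inr ((hf j').2.1 j hlt)
        · subst heq
          exact Or.inl (SLe.refl _)
        · exact Or.inl ((hf j).2.1 j' hlt))
  choose x y hx using fun j => (hf j).2.2
  refine ⟨r, (hr none).le, fun hcon => ?_⟩
  have hinj : Function.Injective x := by
    have key : ∀ j j', j < j' → x j ≠ x j' := by
      intro j j' hlt heq
      exact (not_lt.2 ((hx j').1 j hlt)) (heq ▸ (hx j).2.1)
    intro j j' heq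
    rcases lt_trichotomy j j' with h | h | h
    · exact (key j j' h heq).elim
    · exact h
    · exact (key j' j h heq.symm).elim
  have hmem : ∀ j, x j ∈ {x | x < r.val.h ∧ ∃ y, r ∈ meets (F x y) ∧ r.val.e x ≠ y} := by
    intro j
    obtain ⟨σ, hσ, hσ'⟩ := id (hr (some j))
    have h1 : x j < (f j).val.h := (hx j).2.1
    refine ⟨h1.trans_le hσ.hle, y j, down_meets _ _ (hx j).2.2.1 _ (hr (some j)).le, ?_⟩
    rw [hσ', hσ.lo _ h1]
    exact (hx j).2.2.2
  have h1 : #J ≤ κ := (Cardinal.mk_le_of_injective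
    (f := fun j => (⟨x j, hmem j⟩ : {x | x < r.val.h ∧ ∃ y, r ∈ meets (F x y) ∧ r.val.e x ≠ y}))
    (fun j j' h => hinj (congrArg Subtype.val h))).trans hcon
  rw [hJ] at h1
  exact (not_lt.2 h1) (Order.lt_succ κ)

end Pool.Agent.W869.AU
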