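import Pool.Agent.W869.AU.Lim

/-!
# Extensions of conditions
-/

set_option autoImplicit false
set_option linter.unusedSectionVars false
set_option linter.unusedVariables false
set_option linter.style.haveILetI false

universe u

namespace Pool.Agent.W869.AU

open Set
open Cardinal hiding univ

/-! ### Fusion -/

section Fusion

variable {I : Type u} [LinearOrder I] [WellFoundedLT I]

/-- Every chain of size at most `|I|` has a lower bound. -/
def Closed (I P : Type u) [Preorder P] : Prop :=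
  ∀ (K : Type u) (p : K → P), #K ≤ #I → Nonempty K → (∀ k l, p k ≤ p l ∨ p l ≤ p k) →
    ∃ r, ∀ k, r ≤ p k

theorem fusion [Infinite I] {P : Type u} [Preorder P] (hcl : Closed I P)
    (D : I → Set P) (hopen : ∀ i, ∀ p ∈ D i, ∀ q ≤ p, q ∈ D i)
    (hdense : ∀ i p, ∃ q ≤ p, q ∈ D i) (p : P) : ∃ q ≤ p, ∀ i, q ∈ D i := by
  classical
  let F : ∀ i : I, (∀ k, k < i → P) → P := fun i ih =>
    if h : ∃ r, r ≤ p ∧ (∀ k (hk : k < i), r ≤ ih k hk) ∧ r ∈ D i then h.choose else p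
  let f : I → P := (wellFounded_lt (α := I)).fix F
  have hf : ∀ i, f i = F i (fun k _ => f k) := fun i =>
    (wellFounded_lt (α := I)).fix_eq F i
  have key : ∀ i, f i ≤ p ∧ (∀ k < i, f i ≤ f k) ∧ f i ∈ D i := by
    intro i
    induction i using WellFoundedLT.induction with
    | ind i ih =>
      have hex : ∃ r, r ≤ p ∧ (∀ k (hk : k < i), r ≤ (fun k (_ : k < i) => f k) k hk) ∧
          r ∈ D i := by
        obtain ⟨r, hr⟩ := hcl (Option (Iio i)) (fun o => o.elim p (fun k => f k)) (by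
          rw [Cardinal.mk_option]
          calc #(Iio i) + 1 ≤ #I + #I := add_le_add (Cardinal.mk_set_le _)
                ((Cardinal.one_le_aleph0).trans (Cardinal.aleph0_le_mk I))
            _ = #I := Cardinal.add_eq_self (Cardinal.aleph0_le_mk I)) ⟨none⟩ (by
          rintro (_ | k) (_ | l)
          · exact Or.inl le_rfl
          · exact Or.inr (ih l l.2).1
          · exact Or.inl (ih k k.2).1
          · rcases lt_trichotomy (k : I) l with h | h | h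
            · exact Or.inr ((ih l l.2).2.1 k h)
            · have : k = l := Subtype.ext h
              subst this
              exact Or.inl le_rfl
            · exact Or.inl ((ih k k.2).2.1 l h))
        obtain ⟨q, hq, hq'⟩ := hdense i r
        exact ⟨q, hq.trans (hr none), fun k hk => hq.trans (hr (some ⟨k, hk⟩)), hq'⟩
      have hfi : f i = hex.choose := by
        rw [hf i]
        exact dif_pos hex
      rw [hfi]
      exact hex.choose_spec
  obtain ⟨r, hr⟩ := hcl (Option I) (fun o => o.elim p f) (by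
    rw [Cardinal.mk_option]
    calc #I + 1 ≤ #I + #I := add_le_add le_rfl
          ((Cardinal.one_le_aleph0).trans (Cardinal.aleph0_le_mk I))
      _ = #I := Cardinal.add_eq_self (Cardinal.aleph0_le_mk I)) ⟨none⟩ (by
    rintro (_ | k) (_ | l)
    · exact Or.inl le_rfl
    · exact Or.inr (key l).1
    · exact Or.inl (key k).1
    · rcases lt_trichotomy k l with h | h | h
      · exact Or.inr ((key l).2.1 k h)
      · subst h
        exact Or.inl le_rfl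
      · exact Or.inl ((key k).2.1 l h))
  exact ⟨r, hr none, fun i => hopen i _ (key i).2.2 _ (hr (some i))⟩

theorem fusion' [Infinite I] {P : Type u} [Preorder P] (hcl : Closed I P) {J : Type u}
    (hJ : #J ≤ #I)
    (D : J → Set P) (hopen : ∀ i, ∀ p ∈ D i, ∀ q ≤ p, q ∈ D i)
    (hdense : ∀ i p, ∃ q ≤ p, q ∈ D i) (p : P) : ∃ q ≤ p, ∀ i, q ∈ D i := by
  obtain ⟨e⟩ := hJ
  obtain ⟨q, hq, hq'⟩ := fusion hcl (fun i => {q | ∀ j, e j = i → q ∈ D j})
    (fun i p hp q hq j hj => hopen j p (hp j hj) q hq) (fun i p => by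
      by_cases h : ∃ j, e j = i
      · obtain ⟨j, hj⟩ := h
        obtain ⟨q, hq, hq'⟩ := hdense j p
        refine ⟨q, hq, fun j' hj' => ?_⟩
        have : j' = j := e.injective (hj'.trans hj.symm)
        rw [this]
        exact hq'
      · exact ⟨p, le_rfl, fun j hj => (h ⟨j, hj⟩).elim⟩) p
  exact ⟨q, hq, fun j => hq' (e j) j rfl⟩

end Fusion

variable {κ : Cardinal.{u}} {L M : Type u} [LinearOrder L] [WellFoundedLT L]
variable [LinearOrder M] [WellFoundedLT M]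
variable {τ : M → L → Set (PC L M)}

/-- The conditions with indices in `t`, with the strict order. -/
structure PS (κ : Cardinal.{u}) (τ : M → L → Set (PC L M)) (t : Set M) where
  val : PC L M
  ok : Ok κ τ val
  sub : val.s ⊆ t

instance (t : Set M) : Preorder (PS κ τ t) where
  le q p := SLe q.val p.val
  le_refl p := SLe.refl p.val
  le_trans r q p h1 h2 := h1.trans h2

theorem PS.le_def {t : Set M} {p q : PS κ τ t} : q ≤ p ↔ SLe q.val p.val := Iff.rfl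

theorem ps_lim (hL : Inac κ L) {t : Set M} {J : Type u} (hJ : #J < #L) (p : J → PS κ τ t)
    (tot : ∀ i j, p i ≤ p j ∨ p j ≤ p i) :
    ∃ r : PS κ τ t, (∀ j, r ≤ p j) ∧ ∀ x < r.val.h, ∃ j, x < (p j).val.h := by
  obtain ⟨r, h1, h2, h3, h4⟩ := exists_lim hL hJ (fun j => (p j).ok) tot
  exact ⟨⟨r, h1, by
    rw [h4]
    exact iUnion_subset fun j => (p j).sub⟩, h2, h3⟩

/-- Fusion in the strict order. -/
theorem ps_fusion (hL : Inac κ L) {t : Set M} {J : Type u} (hJ : #J < #L)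
    (D : J → Set (PS κ τ t)) (hopen : ∀ i, ∀ p ∈ D i, ∀ q ≤ p, q ∈ D i)
    (hdense : ∀ i p, ∃ q ≤ p, q ∈ D i) (p : PS κ τ t) : ∃ q ≤ p, ∀ i, q ∈ D i := by
  have hc : max ℵ₀ #J < #L := max_lt hL.aleph hJ
  have hI : #(max ℵ₀ #J).ord.ToType = max ℵ₀ #J := Cardinal.mk_ord_toType _
  haveI : Infinite (max ℵ₀ #J).ord.ToType := by
    rw [Cardinal.infinite_iff, hI]
    exact le_max_left _ _
  refine fusion' (I := (max ℵ₀ #J).ord.ToType) ?_ ?_ D hopen hdense p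
  · intro K p hK _ tot
    obtain ⟨r, hr, -⟩ := ps_lim hL ((hK.trans hI.le).trans_lt hc) p tot
    exact ⟨r, hr⟩
  · rw [hI]
    exact le_max_right _ _

/-- From the forcing order to the strict order. -/
theorem ps_strict (hL : Inac κ L) {t : Set M} (p : PS κ τ t) {q : PC L M} (hq : Ok κ τ q)
    (hs : q.s ⊆ t) (h : Le κ q p.val) : ∃ r : PS κ τ t, r ≤ p ∧ Le κ r.val q := by
  obtain ⟨r, h1, h2, h3, h4, h5, h6, -⟩ := exists_strict hL.inf p.ok.1 hq h
  exact ⟨⟨r, h1, h6 ▸ hs⟩, h2, h3⟩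

theorem dec_all (hL : Inac κ L) {ζ : M} (p : PS κ τ (Iio ζ)) (N : L → Set (PC L M)) :
    ∃ q ≤ p, ∀ x < p.val.h, q.val ∈ Mt κ (DD κ τ ζ) (N x) ∨ q.val ∈ Nt κ (DD κ τ ζ) (N x) := by
  obtain ⟨q, hq, hq'⟩ := ps_fusion hL (J := Iio p.val.h) (hL.seg _)
    (fun x => {q | q.val ∈ Mt κ (DD κ τ ζ) (N x) ∨ q.val ∈ Nt κ (DD κ τ ζ) (N x)})
    (by
      intro x p hp q hq
      rcases hp with hp | hp
      · exact Or.inl (Mt.down hL.inf hp (SLe.le hq))
      · exact Or.inr (Nt.down hL.inf hp (SLe.le hq)))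
    (by
      intro x p
      by_cases h : ∃ r ∈ DD κ τ ζ, Le κ r p.val ∧ r ∈ Mt κ (DD κ τ ζ) (N x)
      · obtain ⟨r, h1, h2, h3⟩ := h
        obtain ⟨r', h4, h5⟩ := ps_strict hL p (mem_DD.1 h1).1 (mem_DD.1 h1).2 h2
        exact ⟨r', h4, Or.inl (Mt.down hL.inf h3 h5)⟩
      · push Not at h
        exact ⟨p, le_rfl, Or.inr h⟩) p
  exact ⟨q, hq, fun x hx => hq' ⟨x, hx⟩⟩

theorem dec_lim (hL : Inac κ L) {ζ : M} (p : PS κ τ (Iio ζ)) (N : L → Set (PC L M)) :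
    ∃ q ≤ p, ∀ x < q.val.h, q.val ∈ Mt κ (DD κ τ ζ) (N x) ∨ q.val ∈ Nt κ (DD κ τ ζ) (N x) := by
  choose F hF hF' using fun p : PS κ τ (Iio ζ) => dec_all hL p N
  let f : ℕ → PS κ τ (Iio ζ) := fun n => Nat.rec p (fun _ q => F q) n
  have hf : ∀ n, f (n + 1) = F (f n) := fun n => rfl
  have hanti : Antitone f := antitone_nat_of_succ_le fun n => by
    rw [hf]
    exact hF _
  obtain ⟨r, hr', hr''⟩ := ps_lim hL (J := ULift.{u} ℕ) (by
    rw [Cardinal.mk_uLift, Cardinal.mk_nat, Cardinal.lift_aleph0]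
    exact hL.aleph) (fun n => f n.down) (fun i j => by
      rcases le_total i.down j.down with h | h
      · exact Or.inr (hanti h)
      · exact Or.inl (hanti h))
  have hr : ∀ n, r ≤ f n := fun n => hr' ⟨n⟩
  refine ⟨r, hr 0, fun x hx => ?_⟩
  obtain ⟨⟨n⟩, hn⟩ := hr'' x hx
  have h1 := hF' (f n) x hn
  rw [← hf] at h1
  rcases h1 with h1 | h1
  · exact Or.inl (Mt.down hL.inf h1 (SLe.le (hr (n + 1))))
  · exact Or.inr (Nt.down hL.inf h1 (SLe.le (hr (n + 1))))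

/-- Adding or extending the coordinate `j`. -/
theorem add_step (hL : Inac κ L) {p : PC L M} (hp : Ok κ τ p) (j : M) (r₀ : PS κ τ (Iio j))
    (h₀ : SLe r₀.val (res p j)) :
    ∃ r, Ok κ τ r ∧ r.s ⊆ Iic j ∧ j ∈ r.s ∧ SLe r (cut p (Iic j)) ∧ SLe r r₀.val := by
  classical
  obtain ⟨r₁, hr₁, hdec⟩ := dec_lim hL r₀ (τ j)
  have h1 : SLe r₁.val (res p j) := SLe.trans hr₁ h₀
  obtain ⟨σ, hex, hσ⟩ := h1
  let U : Set L := {x | r₁.val ∈ Mt κ (DD κ τ j) (τ j x)}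
  let V : Set L := {y | if j ∈ p.s ∧ y < p.h then y ∈ p.v j else r₁.val.e.symm y ∈ U}
  let W : Set L := {x | if j ∈ p.s ∧ x < p.h then x ∈ p.w j else r₁.val.e x ∈ U}
  let r : PC L M := ⟨r₁.val.h, r₁.val.e, insert j r₁.val.s, Function.update r₁.val.u j U,
    Function.update r₁.val.v j V, Function.update r₁.val.w j W⟩
  have huj : r.u j = U := Function.update_self _ _ _
  have hvj : r.v j = V := Function.update_self _ _ _
  have hwj : r.w j = W := Function.update_self _ _ _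
  have hu : ∀ ζ, ζ ≠ j → r.u ζ = r₁.val.u ζ := fun ζ hζ => Function.update_of_ne hζ _ _
  have hv : ∀ ζ, ζ ≠ j → r.v ζ = r₁.val.v ζ := fun ζ hζ => Function.update_of_ne hζ _ _
  have hw : ∀ ζ, ζ ≠ j → r.w ζ = r₁.val.w ζ := fun ζ hζ => Function.update_of_ne hζ _ _
  have hmem : ∀ ζ ∈ r₁.val.s, ζ ≠ j := fun ζ hζ => (r₁.sub hζ).ne
  have hVlo : ∀ y, j ∈ p.s → y < p.h → (y ∈ V ↔ y ∈ p.v j) := by
    intro y h1 h2
    show (if j ∈ p.s ∧ y < p.h then y ∈ p.v j else _) ↔ _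
    rw [if_pos ⟨h1, h2⟩]
  have hVhi : ∀ y, ¬ (j ∈ p.s ∧ y < p.h) → (y ∈ V ↔ r₁.val.e.symm y ∈ U) := by
    intro y h1
    show (if j ∈ p.s ∧ y < p.h then y ∈ p.v j else _) ↔ _
    rw [if_neg h1]
  have hWlo : ∀ y, j ∈ p.s → y < p.h → (y ∈ W ↔ y ∈ p.w j) := by
    intro y h1 h2
    show (if j ∈ p.s ∧ y < p.h then y ∈ p.w j else _) ↔ _
    rw [if_pos ⟨h1, h2⟩]
  have hWhi : ∀ y, ¬ (j ∈ p.s ∧ y < p.h) → (y ∈ W ↔ r₁.val.e y ∈ U) := by
    intro y h1
    show (if j ∈ p.s ∧ y < p.h then y ∈ p.w j else _) ↔ _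
    rw [if_neg h1]
  have hσlo : ∀ x < p.h, r₁.val.e x = p.e x := fun x hx => by
    rw [hσ, hex.lo x hx]
    rfl
  have hσhi : ∀ x, p.h ≤ x → r₁.val.e x = σ x := fun x hx => by
    rw [hσ]
    exact hp.1.fix _ ((perm_ge hex.lo).2 hx)
  have hσge : ∀ x, p.h ≤ x → p.h ≤ σ x := fun x hx => (perm_ge hex.lo).2 hx
  have hUlo : j ∈ p.s → ∀ x < p.h, (x ∈ U ↔ x ∈ p.u j) := by
    intro hj x hx
    have h1 := hp.2 j hj x hx
    constructor
    · intro hxU
      by_contra hc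
      exact (h1.2 hc) r₁.val (mem_DD.2 ⟨r₁.ok, r₁.sub⟩) (SLe.le ⟨σ, hex, hσ⟩) hxU
    · intro hxu
      exact Mt.down hL.inf (h1.1 hxu) (SLe.le ⟨σ, hex, hσ⟩)
  have hrr₁ : ∀ t : Set M, Le κ (cut r t) (cut r₁.val t) := by
    intro t
    refine SLe.le (sle_of_eq rfl (fun _ => rfl) ?_ ?_ ?_ ?_)
    · exact inter_subset_inter_left _ (subset_insert _ _)
    · intro ζ hζ x hx
      show x ∈ r.u ζ ↔ _
      rw [hu ζ (hmem ζ hζ.1)]
      rfl
    · intro ζ hζ x hx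
      show x ∈ r.v ζ ↔ _
      rw [hv ζ (hmem ζ hζ.1)]
      rfl
    · intro ζ hζ x hx
      show x ∈ r.w ζ ↔ _
      rw [hw ζ (hmem ζ hζ.1)]
      rfl
  have hrr₁' : SLe r r₁.val := by
    refine sle_of_eq rfl (fun _ => rfl) (subset_insert _ _) ?_ ?_ ?_
    · intro ζ hζ x hx
      rw [hu ζ (hmem ζ hζ)]
    · intro ζ hζ x hx
      rw [hv ζ (hmem ζ hζ)]
    · intro ζ hζ x hx
      rw [hw ζ (hmem ζ hζ)]
  refine ⟨r, ⟨⟨r₁.ok.1.fix, ?_, ?_, ?_⟩, ?_⟩, ?_, mem_insert _ _, ⟨σ, ⟨hex.hle, ?_, ?_, ?_, ?_,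
    hex.lo, hex.hi, ?_, ?_⟩, hσ⟩, SLe.trans hrr₁' hr₁⟩
  · refine (Cardinal.mk_insert_le (a := j) (s := r₁.val.s)).trans_lt ?_
    exact hL.add r₁.ok.1.small (Cardinal.one_lt_aleph0.trans hL.aleph)
  · intro ζ hζ
    by_cases hζj : ζ = j
    · subst hζj
      rw [huj, hvj]
      by_cases hjp : ζ ∈ p.s
      · refine sm_mono ?_ (hp.1.verr ζ hjp)
        rintro x ⟨hx, hx'⟩
        have hxp : x < p.h := by
          by_contra hc
          rw [not_lt] at hc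
          apply hx'
          rw [hVhi _ (fun h => (not_lt.2 (hσge x hc)) (hσhi x hc ▸ h.2))]
          change x ∈ U ↔ r₁.val.e.symm (r₁.val.e x) ∈ U
          rw [Equiv.symm_apply_apply]
        refine ⟨hxp, ?_⟩
        rw [hUlo hjp x hxp] at hx'
        change ¬ (x ∈ p.u ζ ↔ r₁.val.e x ∈ V) at hx'
        rw [hσlo x hxp, hVlo _ hjp ((perm_lt hp.1.fix).2 hxp)] at hx'
        exact hx'
      · have : {x | x < r.h ∧ ¬ (x ∈ U ↔ r.e x ∈ V)} = ∅ := by
          ext x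
          simp only [mem_ofPred_eq, mem_empty_iff_false, iff_false, not_and, not_not]
          intro _
          rw [hVhi _ (fun h => hjp h.1)]
          change x ∈ U ↔ r₁.val.e.symm (r₁.val.e x) ∈ U
          rw [Equiv.symm_apply_apply]
        rw [this, Cardinal.mk_eq_zero]
        exact bot_le
    · rw [hu ζ hζj, hv ζ hζj]
      exact r₁.ok.1.verr ζ (hζ.resolve_left hζj)
  · intro ζ hζ
    by_cases hζj : ζ = j
    · subst hζj
      rw [huj, hwj]
      by_cases hjp : ζ ∈ p.s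
      · refine sm_mono ?_ (hp.1.werr ζ hjp)
        rintro x ⟨hx, hx'⟩
        have hxp : x < p.h := by
          by_contra hc
          apply hx'
          rw [hWhi _ (fun h => hc h.2)]
        refine ⟨hxp, ?_⟩
        rw [hWlo x hjp hxp] at hx'
        change ¬ (x ∈ p.w ζ ↔ r₁.val.e x ∈ U) at hx'
        rw [hσlo x hxp, hUlo hjp _ ((perm_lt hp.1.fix).2 hxp)] at hx'
        exact hx'
      · have : {x | x < r.h ∧ ¬ (x ∈ W ↔ r.e x ∈ U)} = ∅ := by
          ext x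
          simp only [mem_ofPred_eq, mem_empty_iff_false, iff_false, not_and, not_not]
          intro _
          rw [hWhi _ (fun h => hjp h.1)]
        rw [this, Cardinal.mk_eq_zero]
        exact bot_le
    · rw [hu ζ hζj, hw ζ hζj]
      exact r₁.ok.1.werr ζ (hζ.resolve_left hζj)
  · intro ζ hζ
    by_cases hζj : ζ = j
    · subst hζj
      intro x hx
      have hle : Le κ (res r ζ) r₁.val := by
        refine SLe.le (sle_of_eq rfl (fun _ => rfl) ?_ ?_ ?_ ?_)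
        · exact fun ξ hξ => ⟨Or.inr hξ, r₁.sub hξ⟩
        · intro ξ hξ x hx
          show x ∈ r.u ξ ↔ _
          rw [hu ξ (hmem ξ hξ)]
        · intro ξ hξ x hx
          show x ∈ r.v ξ ↔ _
          rw [hv ξ (hmem ξ hξ)]
        · intro ξ hξ x hx
          show x ∈ r.w ξ ↔ _
          rw [hw ξ (hmem ξ hξ)]
      rw [huj]
      refine ⟨fun hxU => Mt.down hL.inf hxU hle, fun hxU => ?_⟩
      exact Nt.down hL.inf ((hdec x hx).resolve_left hxU) hle
    · intro x hx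
      have h2 := r₁.ok.2 ζ (hζ.resolve_left hζj) x hx
      rw [hu ζ hζj]
      exact ⟨fun h => Mt.down hL.inf (h2.1 h) (hrr₁ _), fun h => Nt.down hL.inf (h2.2 h) (hrr₁ _)⟩
  · rintro ζ (hζ | hζ)
    · exact hζ.le
    · exact (r₁.sub hζ).le
  · rintro ζ ⟨hζ, hζ'⟩
    rcases (show ζ ≤ j from hζ').lt_or_eq with h | h
    · exact Or.inr (hex.sub ⟨hζ, h⟩)
    · exact Or.inl h
  · rintro ζ ⟨hζ, hζ'⟩ x hx
    by_cases hζj : ζ = j
    · subst hζj
      rw [huj]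
      exact hUlo hζ x hx
    · rw [hu ζ hζj]
      exact hex.ueq ζ ⟨hζ, (show ζ ≤ j from hζ').lt_of_ne hζj⟩ x hx
  · rintro ζ ⟨hζ, hζ'⟩ x hx
    by_cases hζj : ζ = j
    · subst hζj
      rw [hvj]
      exact hVlo x hζ hx
    · rw [hv ζ hζj]
      exact hex.veq ζ ⟨hζ, (show ζ ≤ j from hζ').lt_of_ne hζj⟩ x hx
  · rintro ζ ⟨hζ, hζ'⟩ x hx
    by_cases hζj : ζ = j
    · subst hζj
      rw [hwj]
      exact hWlo x hζ hx
    · rw [hw ζ hζj]
      exact hex.weq ζ ⟨hζ, (show ζ ≤ j from hζ').lt_of_ne hζj⟩ x hx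
  · rintro ζ ⟨hζ, hζ'⟩ x hx hx'
    by_cases hζj : ζ = j
    · subst hζj
      rw [huj, hvj, hVhi _ (fun h => (not_lt.2 (hσge x hx)) h.2), ← hσhi x hx,
        Equiv.symm_apply_apply]
    · rw [hu ζ hζj, hv ζ hζj]
      exact hex.uv ζ ⟨hζ, (show ζ ≤ j from hζ').lt_of_ne hζj⟩ x hx hx'
  · rintro ζ ⟨hζ, hζ'⟩ x hx hx'
    by_cases hζj : ζ = j
    · subst hζj
      rw [huj, hwj, hWhi _ (fun h => (not_lt.2 hx) h.2), ← hσhi x hx]
    · rw [hu ζ hζj, hw ζ hζj]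
      exact hex.wu ζ ⟨hζ, (show ζ ≤ j from hζ').lt_of_ne hζj⟩ x hx hx'

/-- Joining strict extensions of restrictions. -/
theorem sle_join {p r : PC L M} {B₀ A : Set M} (h0 : SLe r (cut p B₀))
    (h : ∀ ζ ∈ p.s, ζ ∈ A → ∃ B, ζ ∈ B ∧ SLe r (cut p B)) : SLe r (cut p A) := by
  obtain ⟨σ, h1, h2⟩ := h0
  have key : ∀ ζ ∈ p.s, ζ ∈ A → ∃ B, ζ ∈ B ∧ Ex (cut p B) r σ := by
    intro ζ hζ hζA
    obtain ⟨B, hB, ρ, h3, h4⟩ := h ζ hζ hζA
    have : ρ = σ := by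
      ext x
      have h5 : p.e (ρ x) = p.e (σ x) := by
        have h6 := h4 x
        have h7 := h2 x
        rw [h6] at h7
        exact h7
      exact p.e.injective h5
    exact ⟨B, hB, this ▸ h3⟩
  refine ⟨σ, ⟨h1.hle, ?_, ?_, ?_, ?_, h1.lo, h1.hi, ?_, ?_⟩, h2⟩
  · rintro ζ ⟨hζ, hζA⟩
    obtain ⟨B, hB, h3⟩ := key ζ hζ hζA
    exact h3.sub ⟨hζ, hB⟩
  · rintro ζ ⟨hζ, hζA⟩
    obtain ⟨B, hB, h3⟩ := key ζ hζ hζA
    exact h3.ueq ζ ⟨hζ, hB⟩
  · rintro ζ ⟨hζ, hζA⟩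
    obtain ⟨B, hB, h3⟩ := key ζ hζ hζA
    exact h3.veq ζ ⟨hζ, hB⟩
  · rintro ζ ⟨hζ, hζA⟩
    obtain ⟨B, hB, h3⟩ := key ζ hζ hζA
    exact h3.weq ζ ⟨hζ, hB⟩
  · rintro ζ ⟨hζ, hζA⟩
    obtain ⟨B, hB, h3⟩ := key ζ hζ hζA
    exact h3.uv ζ ⟨hζ, hB⟩
  · rintro ζ ⟨hζ, hζA⟩
    obtain ⟨B, hB, h3⟩ := key ζ hζ hζA
    exact h3.wu ζ ⟨hζ, hB⟩

theorem sle_of_univ {p r : PC L M} (h : SLe r (cut p univ)) : SLe r p := by
  obtain ⟨σ, h1, h2⟩ := h
  exact ⟨σ, h1.of_sub rfl (fun ζ hζ => ⟨hζ, mem_univ _⟩) (fun _ _ _ _ => Iff.rfl)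
    (fun _ _ _ _ => Iff.rfl) (fun _ _ _ _ => Iff.rfl), h2⟩

/-- The main extension lemma. -/
theorem merge (hL : Inac κ L) {p q : PC L M} (hp : Ok κ τ p) (hq : Ok κ τ q) {t T : Set M}
    (ht : ∀ ζ ∈ t, ∀ ξ < ζ, ξ ∈ t) (hT : ∀ ζ ∈ T, ∀ ξ < ζ, ξ ∈ T) (hpT : p.s ⊆ T)
    (hqT : q.s ⊆ T) (hqt : q.s ⊆ t) (h : SLe q (cut p t)) :
    ∃ r, Ok κ τ r ∧ r.s ⊆ T ∧ SLe r p ∧ SLe r q := by
  let J := {j : M // j ∈ p.s ∧ j ∉ t}
  have hJ : #J < #L := (Cardinal.mk_le_of_injective (f := fun j : J => (⟨j.1, j.2.1⟩ : p.s))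
    (fun i j h => Subtype.ext (congrArg (fun z : p.s => z.1) h))).trans_lt hp.1.small
  have htj : ∀ j : J, t ⊆ Iio j.1 := by
    intro j ξ hξ
    by_contra hc
    rcases (not_lt.1 hc).lt_or_eq with h1 | h1
    · exact j.2.2 (ht ξ hξ _ h1)
    · exact j.2.2 (h1 ▸ hξ)
  have hopt : ∀ {A : Type u}, #A < #L → #(Option A) < #L := by
    intro A hA
    rw [Cardinal.mk_option]
    exact hL.add hA (Cardinal.one_lt_aleph0.trans hL.aleph)
  haveI : Nonempty (PC L M) := ⟨p⟩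
  obtain ⟨f, hf⟩ := Helper669.KDelta.rec_choice (ι := J) (β := PC L M) (r := (· < ·))
    wellFounded_lt
    (fun j f b => Ok κ τ b ∧ b.s ⊆ Iic j.1 ∧ SLe b (cut p (Iic j.1)) ∧ SLe b q ∧
      ∀ i, i < j → SLe b (f i))
    (by
      rintro i f g b hfg ⟨h1, h2, h3, h4, h5⟩
      exact ⟨h1, h2, h3, h4, fun j hj => hfg j hj ▸ h5 j hj⟩)
    (by
      intro j f ih
      obtain ⟨r, h1, h2, h3, h4⟩ := exists_lim (τ := τ) hL (J := Option (Iio j))
        (p := fun o => o.elim q fun i => f i) (hopt ((Cardinal.mk_set_le _).trans_lt hJ))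
        (by
          rintro (_ | i)
          · exact hq
          · exact (ih i.1 i.2).1)
        (by
          rintro (_ | i) (_ | i')
          · exact Or.inl (SLe.refl _)
          · exact Or.inr (ih i'.1 i'.2).2.2.2.1
          · exact Or.inl (ih i.1 i.2).2.2.2.1
          · rcases lt_trichotomy i.1 i'.1 with hlt | heq | hlt
            · exact Or.inr ((ih i'.1 i'.2).2.2.2.2 i.1 hlt)
            · have : i = i' := Subtype.ext heq
              subst this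
              exact Or.inl (SLe.refl _)
            · exact Or.inl ((ih i.1 i.2).2.2.2.2 i'.1 hlt))
      have hrs : r.s ⊆ Iio j.1 := by
        rw [h4]
        refine iUnion_subset ?_
        rintro (_ | i)
        · exact hqt.trans (htj j)
        · exact (ih i.1 i.2).2.1.trans fun ξ (hξ : ξ ≤ i.1.1) => lt_of_le_of_lt hξ i.2
      have hrp : SLe r (res p j.1) := by
        refine sle_join (B₀ := t) ((h2 none).trans h) ?_
        intro ζ hζ hζj
        by_cases hζt : ζ ∈ t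
        · exact ⟨t, hζt, (h2 none).trans h⟩
        · have hlt : (⟨ζ, hζ, hζt⟩ : J) < j := hζj
          exact ⟨Iic ζ, le_rfl, (h2 (some ⟨⟨ζ, hζ, hζt⟩, hlt⟩)).trans (ih _ hlt).2.2.1⟩
      obtain ⟨r', h5, h6, -, h7, h8⟩ := add_step hL hp j.1 ⟨r, h1, hrs⟩ hrp
      exact ⟨r', h5, h6, h7, h8.trans (h2 none), fun i hi => h8.trans (h2 (some ⟨i, hi⟩))⟩)
  obtain ⟨r, h1, h2, h3, h4⟩ := exists_lim (τ := τ) hL (J := Option J)
    (p := fun o => o.elim q f) (hopt hJ)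
    (by
      rintro (_ | i)
      · exact hq
      · exact (hf i).1)
    (by
      rintro (_ | i) (_ | i')
      · exact Or.inl (SLe.refl _)
      · exact Or.inr (hf i').2.2.2.1
      · exact Or.inl (hf i).2.2.2.1
      · rcases lt_trichotomy i i' with hlt | heq | hlt
        · exact Or.inr ((hf i').2.2.2.2 i hlt)
        · subst heq
          exact Or.inl (SLe.refl _)
        · exact Or.inl ((hf i).2.2.2.2 i' hlt))
  refine ⟨r, h1, ?_, ?_, h2 none⟩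
  · rw [h4]
    refine iUnion_subset ?_
    rintro (_ | i)
    · exact hqT
    · refine (hf i).2.1.trans fun ξ (hξ : ξ ≤ i.1) => ?_
      rcases hξ.lt_or_eq with h5 | h5
      · exact hT _ (hpT i.2.1) _ h5
      · exact h5 ▸ hpT i.2.1
  · refine sle_of_univ (sle_join (B₀ := t) ((h2 none).trans h) ?_)
    intro ζ hζ _
    by_cases hζt : ζ ∈ t
    · exact ⟨t, hζt, (h2 none).trans h⟩
    · exact ⟨Iic ζ, le_rfl, (h2 (some ⟨ζ, hζ, hζt⟩)).trans (hf _).2.2.1⟩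

/-- Extending the height. -/
theorem exists_height (hL : Inac κ L) {p : PC L M} (hp : Ok κ τ p) (β : L) {T : Set M}
    (hT : ∀ ζ ∈ T, ∀ ξ < ζ, ξ ∈ T) (hpT : p.s ⊆ T) :
    ∃ r, Ok κ τ r ∧ r.s ⊆ T ∧ SLe r p ∧ β ≤ r.h := by
  let q : PC L M := ⟨max p.h β, p.e, ∅, p.u, p.v, p.w⟩
  have hq : Ok κ τ q := ⟨⟨fun x hx => hp.1.fix x ((le_max_left _ _).trans hx), by
    show #(∅ : Set M) < #L
    rw [Cardinal.mk_eq_zero]
    exact (Cardinal.aleph0_pos).trans hL.aleph, fun ζ hζ => hζ.elim, fun ζ hζ => hζ.elim⟩,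
    fun ζ hζ => hζ.elim⟩
  obtain ⟨r, h1, h2, h3, σ, h4, -⟩ := merge hL hp hq (t := ∅) (fun ζ hζ => hζ.elim) hT hpT
    (empty_subset _) (empty_subset _) ⟨1, ⟨le_max_left _ _, fun ζ hζ => hζ.2.elim,
      fun ζ hζ => hζ.2.elim, fun ζ hζ => hζ.2.elim, fun ζ hζ => hζ.2.elim, fun _ _ => rfl,
      fun _ _ => rfl, fun ζ hζ => hζ.2.elim, fun ζ hζ => hζ.2.elim⟩, fun _ => rfl⟩
  exact ⟨r, h1, h2, h3, (le_max_right _ _).trans h4.hle⟩

/-- Adding an index. -/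
theorem exists_enter (hL : Inac κ L) {p : PC L M} (hp : Ok κ τ p) (ζ : M) :
    ∃ r, Ok κ τ r ∧ SLe r p ∧ ζ ∈ r.s := by
  obtain ⟨r, h1, h2, h3, h4, h5⟩ := add_step hL hp ζ ⟨res p ζ, ok_res hL.inf hp ζ,
    inter_subset_right⟩ (SLe.refl _)
  obtain ⟨r', h6, -, h7, σ, h8, -⟩ := merge hL hp h1 (t := Iic ζ) (T := univ)
    (fun ξ hξ η hη => hη.le.trans hξ) (fun _ _ _ _ => mem_univ _) (subset_univ _)
    (subset_univ _) h2 h4
  exact ⟨r', h6, h7, h8.sub h3⟩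

end Pool.Agent.W869.AU
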